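import Mathlib
import Pool.Agent.Lib.MP_91315a_an.Defs

/-!
# RC constant factor: definitions

`J1` is the unweighted functional of Baernstein-Taylor type, `rr c c' t` the height function of the intersection of two caps:
for `t` in `(0, π)`, `rr² = 1 - (c² + c'² - 2 c c' cos t) / sin² t` where this is positive, and `rr = 0` elsewhere.
-/

set_option autoImplicit false

open MeasureTheory
open scoped ENNReal NNReal

namespace RC

variable {E : Type*} [NormedAddCommGroup E] [InnerProductSpace ℝ E] [MeasurableSpace E]
  [BorelSpace E] [FiniteDimensional ℝ E]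

/-- the unweighted functional of Baernstein-Taylor type -/
noncomputable def J1 (l r : ℝ) (A : Set E) : ℝ≥0∞ :=
  ∫⁻ x, ENNReal.ofReal (kk A r x - l) ∂(om E)

/-- the height function -/
noncomputable def rr (c c' t : ℝ) : ℝ :=
  Real.sqrt ((Real.sin t ^ 2 - (c ^ 2 + c' ^ 2 - 2 * c * c' * Real.cos t)) / Real.sin t ^ 2)

/-- the point at angle `θ` from `N` in the direction `e` -/
noncomputable def pp (N e : E) (θ : ℝ) : E := Real.cos θ • N + Real.sin θ • e

end RC
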