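import Mathlib
import Pool.Agent.Lib.MP_91315a_an.K.Defs
import Pool.Agent.Lib.MP_91315a_an.Level

section

/-!
# RC constant factor: tails of powers of a concave function (medium, real analysis)

Let `V θ = ∫ t in θ..b, r t ^ k` for `θ` in `[a,b]`, `p = 1/(k+1)`. The function `r` is continuous on the open interval `(a,b)` (`ConcaveOn.continuousOn` or `ConcaveOn.continuousOn_interior`), `0 ≤ r ≤ 1`, so `r^k` is interval
integrable, `V` is continuous on `[a,b]`, `V b = 0`, `V` is antitone and `V' = - r^k` on `(a,b)`.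
If `r` vanishes at one point of `(a,b)` it vanishes everywhere on `(a,b)` (concave and nonnegative), so `V = 0` on `[a,b]` and the claim is trivial. Otherwise `r > 0` on `(a,b)` and `V > 0` on `[a,b)`.
`W = V^p` is continuous on `[a,b]` and differentiable on `(a,b)`, `W' = - p V^(p-1) r^k = - p (r^(k+1)/V)^(k/(k+1))`. So `W'` is antitone on `(a,b)` (then `AntitoneOn.concaveOn_of_deriv`) if `r^(k+1)/V` is monotone, that is
(KEY) for `a < θ₁ < θ₂ < b`: `r(θ₁)^(k+1) V(θ₂) ≤ r(θ₂)^(k+1) V(θ₁)`.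
Proof of (KEY): let `r₁ = r θ₁`, `r₂ = r θ₂`. If `r₁ ≤ r₂`: clear as `V θ₂ ≤ V θ₁`. If `r₁ > r₂`: let `m = (r₁ - r₂)/(θ₂ - θ₁) > 0`, `ℓ t = r₂ + m (θ₂ - t)` (the chord). By concavity `r ≥ ℓ` on `[θ₁,θ₂]`, hence
`V θ₁ - V θ₂ = ∫ θ₁..θ₂ r^k ≥ ∫ θ₁..θ₂ ℓ^k = (r₁^(k+1) - r₂^(k+1))/(m (k+1))`, and `0 ≤ r ≤ ℓ` on `[θ₂,b)`, hence `V θ₂ ≤ ∫ θ₂..b ℓ^k = (r₂^(k+1) - (ℓ b)^(k+1))/(m (k+1)) ≤ r₂^(k+1)/(m (k+1))` (`ℓ b ≥ 0` by continuity of `ℓ`).
So `(r₁^(k+1) - r₂^(k+1)) V θ₂ ≤ (r₁^(k+1) - r₂^(k+1)) r₂^(k+1)/(m(k+1)) ≤ r₂^(k+1) (V θ₁ - V θ₂)`, which is (KEY).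
-/

set_option autoImplicit false

open MeasureTheory

namespace RC

/-- three points on the graph of a concave function -/
private theorem tail_three {a b : ℝ} {r : ℝ → ℝ} (hr : ConcaveOn ℝ (Set.Ioo a b) r) {x y z : ℝ}
    (hx : x ∈ Set.Ioo a b) (hz : z ∈ Set.Ioo a b) (hxy : x < y) (hyz : y < z) :
    (z - y) * r x + (y - x) * r z ≤ (z - x) * r y := by
  have h := hr.slope_anti_adjacent hx hz hxy hyz
  rw [div_le_div_iff₀ (by linarith) (by linarith)] at h
  linarith

private theorem tail_chord (k : ℕ) {m c : ℝ} (hm : 0 < m) (y x z : ℝ) :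
    ∫ t in x..z, (c + m * (y - t)) ^ k =
      ((c + m * (y - x)) ^ (k + 1) - (c + m * (y - z)) ^ (k + 1)) / (m * ((k:ℝ) + 1)) := by
  have hk : (0:ℝ) < (k:ℝ) + 1 := by positivity
  have h1 : ∀ t ∈ Set.uIcc x z, HasDerivAt
      (fun t => -((c + m * (y - t)) ^ (k + 1) / (m * ((k:ℝ) + 1)))) ((c + m * (y - t)) ^ k) t := by
    intro t _
    have h2 : HasDerivAt (fun t => c + m * (y - t)) (m * (-1)) t :=
      (((hasDerivAt_id t).const_sub y).const_mul m).const_add c
    have h3 := ((h2.pow (k + 1)).div_const (m * ((k:ℝ) + 1))).neg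
    refine h3.congr_deriv ?_
    rw [Nat.add_sub_cancel]
    push_cast
    field_simp
  rw [intervalIntegral.integral_eq_sub_of_hasDerivAt h1
    ((by fun_prop : Continuous fun t : ℝ => (c + m * (y - t)) ^ k).intervalIntegrable _ _)]
  ring

theorem tail_concave (k : ℕ) {a b : ℝ} (hab : a < b) (r : ℝ → ℝ)
    (hr : ConcaveOn ℝ (Set.Ioo a b) r) (h0 : ∀ t ∈ Set.Ioo a b, 0 ≤ r t) (h1 : ∀ t ∈ Set.Ioo a b, r t ≤ 1) :
    ConcaveOn ℝ (Set.Icc a b) (fun θ => (∫ t in θ..b, r t ^ k) ^ (1 / ((k:ℝ) + 1))) := by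
  have hk1 : (0:ℝ) < (k:ℝ) + 1 := by positivity
  -- the case `k = 0`
  rcases Nat.eq_zero_or_pos k with rfl | hk
  · have e : (fun θ : ℝ => (∫ t in θ..b, r t ^ 0) ^ (1 / (((0:ℕ):ℝ) + 1))) = fun θ => b - θ := by
      funext θ
      simp
    rw [e]
    refine ⟨convex_Icc a b, fun x _ y _ p q _ _ hpq => ?_⟩
    simp only [smul_eq_mul]
    have : p * b + q * b = b := by rw [← add_mul, hpq, one_mul]
    linarith
  have hcont : ContinuousOn r (Set.Ioo a b) := hr.continuousOn isOpen_Ioo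
  have hcontk : ContinuousOn (fun t => r t ^ k) (Set.Ioo a b) := hcont.pow k
  -- integrability
  have hint0 : IntegrableOn (fun t => r t ^ k) (Set.Ioo a b) := by
    refine Integrable.mono' (integrable_const (1:ℝ)) (hcontk.aestronglyMeasurable measurableSet_Ioo) ?_
    rw [ae_restrict_iff' measurableSet_Ioo]
    refine Filter.Eventually.of_forall fun t ht => ?_
    rw [Real.norm_eq_abs, abs_of_nonneg (pow_nonneg (h0 t ht) k)]
    exact pow_le_one₀ (h0 t ht) (h1 t ht)
  have hintI : IntegrableOn (fun t => r t ^ k) (Set.Icc a b) := by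
    rwa [integrableOn_Icc_iff_integrableOn_Ioo]
  have hint : ∀ x ∈ Set.Icc a b, ∀ y ∈ Set.Icc a b,
      IntervalIntegrable (fun t => r t ^ k) volume x y := by
    intro x hx y hy
    rw [intervalIntegrable_iff]
    refine hintI.mono_set ?_
    intro t ht
    rcases Set.mem_uIoc.1 ht with h | h
    · exact ⟨hx.1.trans h.1.le, h.2.trans hy.2⟩
    · exact ⟨hy.1.trans h.1.le, h.2.trans hx.2⟩
  set V : ℝ → ℝ := fun θ => ∫ t in θ..b, r t ^ k with hV
  have hbI : b ∈ Set.Icc a b := ⟨hab.le, le_rfl⟩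
  have hVcont : ContinuousOn V (Set.Icc a b) := by
    have h := intervalIntegral.continuousOn_primitive_interval_left (μ := volume)
      (f := fun t => r t ^ k) (a := a) (b := b) (by rwa [Set.uIcc_of_le hab.le])
    rwa [Set.uIcc_of_le hab.le] at h
  have hVsub : ∀ x ∈ Set.Icc a b, ∀ y ∈ Set.Icc a b, V x - V y = ∫ t in x..y, r t ^ k := by
    intro x hx y hy
    have h := intervalIntegral.integral_add_adjacent_intervals (hint x hx y hy) (hint y hy b hbI)
    simp only [hV]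
    linarith
  -- if `r` vanishes somewhere it vanishes everywhere
  by_cases hz : ∃ s ∈ Set.Ioo a b, r s = 0
  · obtain ⟨s, hs, hrs⟩ := hz
    have hall : ∀ t ∈ Set.Ioo a b, r t = 0 := by
      intro t ht
      refine le_antisymm ?_ (h0 t ht)
      rcases lt_trichotomy t s with hts | rfl | hts
      · have hz : (s + b) / 2 ∈ Set.Ioo a b := ⟨by linarith [hs.1, hs.2], by linarith [hs.2]⟩
        have h := tail_three hr ht hz hts (by linarith [hs.2])
        rw [hrs, mul_zero] at h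
        have h2 := mul_nonneg (sub_nonneg.2 hts.le) (h0 _ hz)
        have h3 : 0 < (s + b) / 2 - s := by linarith [hs.2]
        by_contra hcon
        push Not at hcon
        have := mul_pos h3 hcon
        linarith
      · exact hrs.le
      · have hz : (a + s) / 2 ∈ Set.Ioo a b := ⟨by linarith [hs.1], by linarith [hs.1, hs.2]⟩
        have h := tail_three hr hz ht (show (a + s) / 2 < s by linarith [hs.1]) hts
        rw [hrs, mul_zero] at h
        have h2 := mul_nonneg (sub_nonneg.2 hts.le) (h0 _ hz)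
        have h3 : 0 < s - (a + s) / 2 := by linarith [hs.1]
        by_contra hcon
        push Not at hcon
        have := mul_pos h3 hcon
        linarith
    have hV0 : ∀ θ ∈ Set.Icc a b, V θ = 0 := by
      intro θ hθ
      have h : V θ = ∫ t in θ..b, (0:ℝ) := by
        simp only [hV]
        rw [intervalIntegral.integral_of_le hθ.2, intervalIntegral.integral_of_le hθ.2,
          integral_Ioc_eq_integral_Ioo, integral_Ioc_eq_integral_Ioo]
        refine setIntegral_congr_fun measurableSet_Ioo fun t ht => ?_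
        show r t ^ k = 0
        rw [hall t ⟨lt_of_le_of_lt hθ.1 ht.1, ht.2⟩, zero_pow hk.ne']
      rw [h, intervalIntegral.integral_zero]
    have hp0 : (1 / ((k:ℝ) + 1)) ≠ 0 := by positivity
    refine ⟨convex_Icc a b, fun x hx y hy p q hp hq hpq => ?_⟩
    have hm : p • x + q • y ∈ Set.Icc a b := (convex_Icc a b) hx hy hp hq hpq
    show p • V x ^ (1 / ((k:ℝ) + 1)) + q • V y ^ (1 / ((k:ℝ) + 1)) ≤
      V (p • x + q • y) ^ (1 / ((k:ℝ) + 1))
    rw [hV0 x hx, hV0 y hy, hV0 _ hm, Real.zero_rpow hp0, smul_zero, smul_zero, add_zero]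
  push Not at hz
  have hpos : ∀ t ∈ Set.Ioo a b, 0 < r t := fun t ht => lt_of_le_of_ne (h0 t ht) (hz t ht).symm
  have hVpos : ∀ θ, a ≤ θ → θ < b → 0 < V θ := by
    intro θ h2 h3
    exact intervalIntegral.intervalIntegral_pos_of_pos_on (hint θ ⟨h2, h3.le⟩ b hbI)
      (fun t ht => pow_pos (hpos t ⟨lt_of_le_of_lt h2 ht.1, ht.2⟩) k) h3
  -- the key inequality
  have key : ∀ x y, a < x → x < y → y < b → r x ^ (k + 1) * V y ≤ r y ^ (k + 1) * V x := by
    intro x y hax hxy hyb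
    have hxI : x ∈ Set.Ioo a b := ⟨hax, hxy.trans hyb⟩
    have hyI : y ∈ Set.Ioo a b := ⟨hax.trans hxy, hyb⟩
    have hxC := Set.Ioo_subset_Icc_self hxI
    have hyC := Set.Ioo_subset_Icc_self hyI
    have hVy := hVpos y hyC.1 hyb
    have hrx := hpos x hxI
    have hry := hpos y hyI
    have hsub := hVsub x hxC y hyC
    have hsubnn : 0 ≤ ∫ t in x..y, r t ^ k := by
      refine intervalIntegral.integral_nonneg hxy.le fun t ht => ?_
      exact pow_nonneg (h0 t ⟨lt_of_lt_of_le hax ht.1, lt_of_le_of_lt ht.2 hyb⟩) k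
    rcases le_or_gt (r x) (r y) with hle | hlt
    · calc r x ^ (k + 1) * V y ≤ r y ^ (k + 1) * V y :=
            mul_le_mul_of_nonneg_right (pow_le_pow_left₀ hrx.le hle _) hVy.le
        _ ≤ r y ^ (k + 1) * V x :=
            mul_le_mul_of_nonneg_left (by linarith) (pow_nonneg hry.le _)
    · set m := (r x - r y) / (y - x) with hm
      have hyx : 0 < y - x := sub_pos.2 hxy
      have hmpos : 0 < m := div_pos (sub_pos.2 hlt) hyx
      have hmyx : m * (y - x) = r x - r y := div_mul_cancel₀ _ hyx.ne'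
      have hc : 0 < m * ((k:ℝ) + 1) := mul_pos hmpos hk1
      -- lower bound on `[x, y]`
      have hlow : ∀ t ∈ Set.Icc x y, r y + m * (y - t) ≤ r t := by
        intro t ht
        rcases eq_or_lt_of_le ht.1 with rfl | hxt
        · rw [hmyx]
          linarith
        · rcases eq_or_lt_of_le ht.2 with rfl | hty
          · rw [sub_self, mul_zero, add_zero]
          · have h := tail_three hr hxI hyI hxt hty
            have h2 : (y - x) * (r y + m * (y - t)) = (y - t) * r x + (t - x) * r y := by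
              rw [mul_add, show (y - x) * (m * (y - t)) = (m * (y - x)) * (y - t) by ring, hmyx]
              ring
            rw [← h2] at h
            exact le_of_mul_le_mul_left h hyx
      have hl0 : ∀ t ∈ Set.Icc x y, 0 ≤ r y + m * (y - t) := fun t ht => by
        have := mul_nonneg hmpos.le (sub_nonneg.2 ht.2)
        linarith
      -- upper bound on `(y, b)`
      have hup : ∀ t ∈ Set.Ioo y b, r t ≤ r y + m * (y - t) := by
        intro t ht
        have htI : t ∈ Set.Ioo a b := ⟨hyI.1.trans ht.1, ht.2⟩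
        have h := tail_three hr hxI htI hxy ht.1
        have h2 : (y - x) * (r y + m * (y - t)) = (t - x) * r y - (t - y) * r x := by
          rw [mul_add, show (y - x) * (m * (y - t)) = (m * (y - x)) * (y - t) by ring, hmyx]
          ring
        refine le_of_mul_le_mul_left ?_ hyx
        rw [h2]
        linarith
      have hlb : 0 ≤ r y + m * (y - b) := by
        by_contra hcon
        push Not at hcon
        set e := -(r y + m * (y - b)) / (2 * m) with he
        have hepos : 0 < e := div_pos (by linarith) (by linarith)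
        have hme : 2 * (m * e) = -(r y + m * (y - b)) := by
          rw [he]
          field_simp
        have h3 : r y + m * (y - (b - e)) < 0 := by
          have : m * (y - (b - e)) = m * (y - b) + m * e := by ring
          rw [this]
          linarith
        have h4 : y < b - e := by
          by_contra h5
          push Not at h5
          have := mul_nonneg hmpos.le (sub_nonneg.2 h5)
          linarith
        have h6 := hup (b - e) ⟨h4, by linarith⟩
        have h7 := h0 (b - e) ⟨hyI.1.trans h4, by linarith⟩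
        linarith
      -- the two integrals
      have hI1 : (r x ^ (k + 1) - r y ^ (k + 1)) / (m * ((k:ℝ) + 1)) ≤ V x - V y := by
        rw [hsub]
        have h2 := tail_chord k (c := r y) hmpos y x y
        rw [hmyx, sub_self, mul_zero, add_zero, add_sub_cancel] at h2
        rw [← h2]
        refine intervalIntegral.integral_mono_on hxy.le
          ((by fun_prop : Continuous fun t : ℝ => (r y + m * (y - t)) ^ k).intervalIntegrable _ _)
          (hint x hxC y hyC) fun t ht => ?_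
        exact pow_le_pow_left₀ (hl0 t ht) (hlow t ht) k
      have hI2 : V y ≤ r y ^ (k + 1) / (m * ((k:ℝ) + 1)) := by
        have h2 := tail_chord k (c := r y) hmpos y y b
        rw [sub_self, mul_zero, add_zero] at h2
        have h3 : V y ≤ ∫ t in y..b, (r y + m * (y - t)) ^ k := by
          refine intervalIntegral.integral_mono_on_of_le_Ioo hyb.le (hint y hyC b hbI)
            ((by fun_prop : Continuous fun t : ℝ => (r y + m * (y - t)) ^ k).intervalIntegrable _ _)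
            fun t ht => ?_
          exact pow_le_pow_left₀ (h0 t ⟨hyI.1.trans ht.1, ht.2⟩) (hup t ht) k
        rw [h2] at h3
        refine h3.trans (div_le_div_of_nonneg_right ?_ hc.le)
        have := pow_nonneg hlb (k + 1)
        linarith
      rw [div_le_iff₀ hc] at hI1
      rw [le_div_iff₀ hc] at hI2
      have hAB : 0 ≤ r x ^ (k + 1) - r y ^ (k + 1) :=
        sub_nonneg.2 (pow_le_pow_left₀ hry.le hlt.le _)
      have hB : 0 ≤ r y ^ (k + 1) := pow_nonneg hry.le _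
      have h4 := mul_le_mul_of_nonneg_left hI2 hAB
      have h5 := mul_le_mul_of_nonneg_left hI1 hB
      have h6 : ((r x ^ (k + 1) - r y ^ (k + 1)) * V y) * (m * ((k:ℝ) + 1)) ≤
          (r y ^ (k + 1) * (V x - V y)) * (m * ((k:ℝ) + 1)) := by
        calc ((r x ^ (k + 1) - r y ^ (k + 1)) * V y) * (m * ((k:ℝ) + 1))
            = (r x ^ (k + 1) - r y ^ (k + 1)) * (V y * (m * ((k:ℝ) + 1))) := by ring
          _ ≤ (r x ^ (k + 1) - r y ^ (k + 1)) * r y ^ (k + 1) := h4
          _ = r y ^ (k + 1) * (r x ^ (k + 1) - r y ^ (k + 1)) := by ring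
          _ ≤ r y ^ (k + 1) * ((V x - V y) * (m * ((k:ℝ) + 1))) := h5
          _ = _ := by ring
      have h7 := le_of_mul_le_mul_right h6 hc
      linarith
  -- derivative
  set p : ℝ := 1 / ((k:ℝ) + 1) with hp
  have hppos : 0 < p := by positivity
  have hderiv : ∀ θ ∈ Set.Ioo a b,
      HasDerivAt (fun θ => V θ ^ p) (-(r θ ^ k) * p * V θ ^ (p - 1)) θ := by
    intro θ hθ
    have h2 : HasDerivAt V (-(r θ ^ k)) θ :=
      intervalIntegral.integral_hasDerivAt_left (hint θ (Set.Ioo_subset_Icc_self hθ) b hbI)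
        (hcontk.stronglyMeasurableAtFilter isOpen_Ioo θ hθ)
        (hcontk.continuousAt (isOpen_Ioo.mem_nhds hθ))
    exact h2.rpow_const (Or.inl (hVpos θ hθ.1.le hθ.2).ne')
  have hanti : ∀ x ∈ Set.Ioo a b, ∀ y ∈ Set.Ioo a b, x < y →
      r x ^ k * V x ^ (p - 1) ≤ r y ^ k * V y ^ (p - 1) := by
    intro x hx y hy hxy
    have hVx := hVpos x hx.1.le hx.2
    have hVy := hVpos y hy.1.le hy.2
    have hpow : ∀ z ∈ Set.Ioo a b, (r z ^ k * V z ^ (p - 1)) ^ (k + 1) =
        (r z ^ (k + 1) / V z) ^ k := by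
      intro z hz'
      have hVz := hVpos z hz'.1.le hz'.2
      rw [mul_pow, ← Real.rpow_natCast (V z ^ (p - 1)) (k + 1), ← Real.rpow_mul hVz.le,
        show (p - 1) * ((k + 1 : ℕ) : ℝ) = -(k : ℝ) by
          rw [hp]
          push_cast
          field_simp
          ring,
        Real.rpow_neg hVz.le, Real.rpow_natCast, div_pow, ← pow_mul, ← pow_mul, mul_comm k (k + 1)]
      rfl
    have h2 : (r x ^ k * V x ^ (p - 1)) ^ (k + 1) ≤ (r y ^ k * V y ^ (p - 1)) ^ (k + 1) := by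
      rw [hpow x hx, hpow y hy]
      refine pow_le_pow_left₀ (div_nonneg (pow_nonneg (h0 x hx) _) hVx.le) ?_ k
      rw [div_le_div_iff₀ hVx hVy]
      exact key x y hx.1 hxy hy.2
    exact le_of_pow_le_pow_left₀ (Nat.succ_ne_zero k)
      (mul_nonneg (pow_nonneg (h0 y hy) _) (Real.rpow_nonneg hVy.le _)) h2
  refine AntitoneOn.concaveOn_of_deriv (convex_Icc a b)
    (hVcont.rpow_const fun x _ => Or.inr hppos.le) ?_ ?_
  · rw [interior_Icc]
    intro θ hθ
    exact (hderiv θ hθ).differentiableAt.differentiableWithinAt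
  · rw [interior_Icc]
    intro x hx y hy hxy
    rcases eq_or_lt_of_le hxy with rfl | hlt
    · exact le_rfl
    · rw [(hderiv x hx).deriv, (hderiv y hy).deriv]
      have h := hanti x hx y hy hlt
      have h2 := mul_le_mul_of_nonneg_left h hppos.le
      linarith

end RC
end

section

section

/-!
# RC constant factor: the height function is concave (medium, real analysis)

Let `α = arccos c`, `β = arccos c'`, both in `(0,π)`, `α + β ≤ π` because `cos β = c' ≥ -c = cos (π - α)`.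
`sin² t - (c² + c'² - 2cc' cos t) = (cos t - cos (α+β)) (cos (α-β) - cos t)` (expand; `sin² = 1 - cos²`).
`rr_zero`: for `t` in `(0,π)` outside `(|α-β|, α+β)` this product is `≤ 0` (`cos` is decreasing on `[0,π]`, `cos (α-β) = cos |α-β|`), and the square root is zero.
`rr_concave`: with `cos t - cos (α+β) = 2 (cos² (t/2) - cos² ((α+β)/2))`, `cos (α-β) - cos t = 2 (sin² (t/2) - sin² ((α-β)/2))`, `sin² t = 4 sin² (t/2) cos² (t/2)`:
`rr² = g₁ g₂`, `g₁ t = 1 - cos²((α+β)/2) / cos² (t/2)`, `g₂ t = 1 - sin²((α-β)/2) / sin² (t/2)`, both positive for `t` in the interval `I = (|α-β|, α+β) ⊆ (0,π)`, and both concave on `I`, as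
`1/cos²` and `1/sin²` are convex on `(0,π/2)` (second derivatives `(4 sin² + 2 cos²)... / cos⁴ > 0`; or: `1/cos² = (1/cos)²`, the square of a positive convex function, `1/cos` is convex since `cos` is positive and concave;
the same for `sin`). The function `√(g₁ g₂)` is concave for positive concave `g₁, g₂`: for `λ + μ = 1`, `λ √(x₁ y₁) + μ √(x₂ y₂) ≤ √((λx₁+μx₂)(λy₁+μy₂))` (Cauchy-Schwarz) and monotonicity.
-/

set_option autoImplicit false

open MeasureTheory
open scoped ENNReal NNReal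

namespace RC

theorem arccos_add_le {c c' : ℝ} (hc : |c| < 1) (hc' : |c'| < 1) (hcc : 0 ≤ c + c') :
    Real.arccos c + Real.arccos c' ≤ Real.pi := by
  have h := Real.arccos_le_arccos (x := -c) (y := c') (by linarith)
  rw [Real.arccos_neg] at h
  linarith

private theorem prod_id {c c' : ℝ} (hc : |c| < 1) (hc' : |c'| < 1) (t : ℝ) :
    Real.sin t ^ 2 - (c ^ 2 + c' ^ 2 - 2 * c * c' * Real.cos t) =
      (Real.cos t - Real.cos (Real.arccos c + Real.arccos c')) *
        (Real.cos (Real.arccos c - Real.arccos c') - Real.cos t) := by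
  obtain ⟨h1, h2⟩ := abs_lt.1 hc
  obtain ⟨h3, h4⟩ := abs_lt.1 hc'
  have e1 : Real.cos (Real.arccos c) = c := Real.cos_arccos h1.le h2.le
  have e2 : Real.cos (Real.arccos c') = c' := Real.cos_arccos h3.le h4.le
  have s1 : Real.sin (Real.arccos c) ^ 2 = 1 - c ^ 2 := by
    have := Real.sin_sq_add_cos_sq (Real.arccos c)
    rw [e1] at this
    linarith
  have s2 : Real.sin (Real.arccos c') ^ 2 = 1 - c' ^ 2 := by
    have := Real.sin_sq_add_cos_sq (Real.arccos c')
    rw [e2] at this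
    linarith
  have s3 := Real.sin_sq_add_cos_sq t
  rw [Real.cos_add, Real.cos_sub, e1, e2]
  have h5 : (Real.cos t - (c * c' - Real.sin (Real.arccos c) * Real.sin (Real.arccos c'))) *
      (c * c' + Real.sin (Real.arccos c) * Real.sin (Real.arccos c') - Real.cos t) =
      Real.sin (Real.arccos c) ^ 2 * Real.sin (Real.arccos c') ^ 2 - (Real.cos t - c * c') ^ 2 := by
    ring
  rw [h5, s1, s2]
  have h6 : Real.sin t ^ 2 = 1 - Real.cos t ^ 2 := by linarith
  rw [h6]
  ring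

theorem rr_zero {c c' : ℝ} (hc : |c| < 1) (hc' : |c'| < 1) (hcc : 0 ≤ c + c') {t : ℝ}
    (ht : t ∈ Set.Ioo 0 Real.pi)
    (hI : t ∉ Set.Ioo |Real.arccos c - Real.arccos c'| (Real.arccos c + Real.arccos c')) :
    rr c c' t = 0 := by
  have hsum := arccos_add_le hc hc' hcc
  have ha0 := Real.arccos_nonneg c
  have hb0 := Real.arccos_nonneg c'
  have habs : |Real.arccos c - Real.arccos c'| ≤ Real.arccos c + Real.arccos c' := by
    rw [abs_le]
    constructor <;> linarith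
  have hcosabs : Real.cos (Real.arccos c - Real.arccos c') =
      Real.cos |Real.arccos c - Real.arccos c'| := (Real.cos_abs _).symm
  unfold rr
  apply Real.sqrt_eq_zero_of_nonpos
  apply div_nonpos_of_nonpos_of_nonneg _ (sq_nonneg _)
  rw [prod_id hc hc' t, hcosabs]
  rw [Set.mem_Ioo, not_and_or, not_lt, not_lt] at hI
  rcases hI with h | h
  · have h1 : Real.cos |Real.arccos c - Real.arccos c'| ≤ Real.cos t :=
      Real.cos_le_cos_of_nonneg_of_le_pi ht.1.le (habs.trans hsum) h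
    have h2 : Real.cos (Real.arccos c + Real.arccos c') ≤ Real.cos t :=
      Real.cos_le_cos_of_nonneg_of_le_pi ht.1.le hsum (h.trans habs)
    exact mul_nonpos_of_nonneg_of_nonpos (by linarith) (by linarith)
  · have h1 : Real.cos t ≤ Real.cos (Real.arccos c + Real.arccos c') :=
      Real.cos_le_cos_of_nonneg_of_le_pi (by linarith) ht.2.le h
    have h2 : Real.cos (Real.arccos c + Real.arccos c') ≤
        Real.cos |Real.arccos c - Real.arccos c'| :=
      Real.cos_le_cos_of_nonneg_of_le_pi (abs_nonneg _) hsum habs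
    exact mul_nonpos_of_nonpos_of_nonneg (by linarith) (by linarith)

private theorem convex_inv_sq {s : Set ℝ} {f : ℝ → ℝ} (hf : ConcaveOn ℝ s f)
    (hpos : ∀ x ∈ s, 0 < f x) : ConvexOn ℝ s (fun x => (f x) ^ (-2 : ℤ)) := by
  refine ⟨hf.1, ?_⟩
  intro x hx y hy a b ha hb hab
  have h1 := hf.2 hx hy ha hb hab
  have h2 : (0 : ℝ) < a • f x + b • f y := by
    simp only [smul_eq_mul]
    rcases ha.eq_or_lt with h | h
    · have hb1 : b = 1 := by linarith
      rw [← h, hb1]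
      simpa using hpos y hy
    · have h3 := mul_pos h (hpos x hx)
      have h4 := mul_nonneg hb (hpos y hy).le
      linarith
  have h3 : (f (a • x + b • y)) ^ (-2 : ℤ) ≤ (a • f x + b • f y) ^ (-2 : ℤ) := by
    rw [zpow_neg, zpow_neg]
    apply inv_anti₀
    · positivity
    · exact zpow_le_zpow_left₀ (by norm_num) h2.le h1
  have h4 := (convexOn_zpow (-2 : ℤ)).2 (hpos x hx) (hpos y hy) ha hb hab
  exact h3.trans h4

private theorem cs_aux {a b x1 x2 y1 y2 : ℝ} (ha : 0 ≤ a) (hb : 0 ≤ b) (hx1 : 0 ≤ x1)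
    (hx2 : 0 ≤ x2) (hy1 : 0 ≤ y1) (hy2 : 0 ≤ y2) :
    a * Real.sqrt (x1 * y1) + b * Real.sqrt (x2 * y2) ≤
      Real.sqrt ((a * x1 + b * x2) * (a * y1 + b * y2)) := by
  apply Real.le_sqrt_of_sq_le
  rw [Real.sqrt_mul hx1, Real.sqrt_mul hx2]
  have e1 := Real.mul_self_sqrt hx1
  have e2 := Real.mul_self_sqrt hx2
  have e3 := Real.mul_self_sqrt hy1
  have e4 := Real.mul_self_sqrt hy2
  set p := Real.sqrt x1
  set q := Real.sqrt x2
  set r := Real.sqrt y1
  set u := Real.sqrt y2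
  rw [← e1, ← e2, ← e3, ← e4]
  have h : 0 ≤ a * b * (p * u - q * r) ^ 2 := by positivity
  nlinarith [h]

theorem rr_concave {c c' : ℝ} (hc : |c| < 1) (hc' : |c'| < 1) (hcc : 0 ≤ c + c') :
    ConcaveOn ℝ (Set.Ioo |Real.arccos c - Real.arccos c'| (Real.arccos c + Real.arccos c')) (rr c c') := by
  have hsum := arccos_add_le hc hc' hcc
  have ha0 := Real.arccos_nonneg c
  have hb0 := Real.arccos_nonneg c'
  have habs : |Real.arccos c - Real.arccos c'| ≤ Real.arccos c + Real.arccos c' := by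
    rw [abs_le]
    constructor <;> linarith
  have hcosabs : Real.cos (Real.arccos c - Real.arccos c') =
      Real.cos |Real.arccos c - Real.arccos c'| := (Real.cos_abs _).symm
  set I : Set ℝ := Set.Ioo |Real.arccos c - Real.arccos c'| (Real.arccos c + Real.arccos c') with hIdef
  have hI0 : ∀ t ∈ I, 0 < t ∧ t < Real.pi := fun t ht =>
    ⟨(abs_nonneg _).trans_lt ht.1, ht.2.trans_le hsum⟩
  have hIconv : Convex ℝ I := convex_Ioo _ _
  -- the half angle functions
  have hC : ConcaveOn ℝ I (fun t => Real.cos (t / 2)) := by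
    refine ⟨hIconv, ?_⟩
    intro x hx y hy a b ha hb hab
    have h := strictConcaveOn_cos_Icc.concaveOn.2 (x := x / 2) (y := y / 2)
      ⟨by linarith [(hI0 x hx).1, Real.pi_pos], by linarith [(hI0 x hx).2]⟩
      ⟨by linarith [(hI0 y hy).1, Real.pi_pos], by linarith [(hI0 y hy).2]⟩ ha hb hab
    have e : (a • x + b • y) / 2 = a • (x / 2) + b • (y / 2) := by
      simp only [smul_eq_mul]; ring
    simp only [e]
    exact h
  have hS : ConcaveOn ℝ I (fun t => Real.sin (t / 2)) := by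
    refine ⟨hIconv, ?_⟩
    intro x hx y hy a b ha hb hab
    have h := strictConcaveOn_sin_Icc.concaveOn.2 (x := x / 2) (y := y / 2)
      ⟨by linarith [(hI0 x hx).1], by linarith [(hI0 x hx).1, (hI0 x hx).2]⟩
      ⟨by linarith [(hI0 y hy).1], by linarith [(hI0 y hy).1, (hI0 y hy).2]⟩ ha hb hab
    have e : (a • x + b • y) / 2 = a • (x / 2) + b • (y / 2) := by
      simp only [smul_eq_mul]; ring
    simp only [e]
    exact h
  have hCpos : ∀ t ∈ I, 0 < Real.cos (t / 2) := fun t ht =>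
    Real.cos_pos_of_mem_Ioo ⟨by linarith [(hI0 t ht).1, Real.pi_pos], by linarith [(hI0 t ht).2]⟩
  have hSpos : ∀ t ∈ I, 0 < Real.sin (t / 2) := fun t ht =>
    Real.sin_pos_of_pos_of_lt_pi (by linarith [(hI0 t ht).1])
      (by linarith [(hI0 t ht).1, (hI0 t ht).2])
  obtain ⟨A, hA⟩ : ∃ A : ℝ, A = (1 + Real.cos (Real.arccos c + Real.arccos c')) / 2 := ⟨_, rfl⟩
  obtain ⟨B, hB⟩ : ∃ B : ℝ, B = (1 - Real.cos (Real.arccos c - Real.arccos c')) / 2 := ⟨_, rfl⟩
  have hA0 : 0 ≤ A := by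
    have := Real.neg_one_le_cos (Real.arccos c + Real.arccos c')
    rw [hA]; linarith
  have hB0 : 0 ≤ B := by
    have := Real.cos_le_one (Real.arccos c - Real.arccos c')
    rw [hB]; linarith
  obtain ⟨g1, hg1⟩ : ∃ g1 : ℝ → ℝ, g1 = fun t => 1 - A * (Real.cos (t / 2)) ^ (-2 : ℤ) := ⟨_, rfl⟩
  obtain ⟨g2, hg2⟩ : ∃ g2 : ℝ → ℝ, g2 = fun t => 1 - B * (Real.sin (t / 2)) ^ (-2 : ℤ) := ⟨_, rfl⟩
  have c1 := (convex_inv_sq hC hCpos).2
  have c2 := (convex_inv_sq hS hSpos).2
  have k1 : ∀ x ∈ I, ∀ y ∈ I, ∀ a b : ℝ, 0 ≤ a → 0 ≤ b → a + b = 1 →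
      a * g1 x + b * g1 y ≤ g1 (a * x + b * y) := by
    intro x hx y hy a b ha hb hab
    have h := mul_le_mul_of_nonneg_left (c1 hx hy ha hb hab) hA0
    simp only [smul_eq_mul] at h
    rw [hg1]
    have : a * (1 - A * (Real.cos (x / 2)) ^ (-2 : ℤ)) + b * (1 - A * (Real.cos (y / 2)) ^ (-2 : ℤ))
        = 1 - A * (a * (Real.cos (x / 2)) ^ (-2 : ℤ) + b * (Real.cos (y / 2)) ^ (-2 : ℤ)) := by
      linear_combination hab
    simp only
    rw [this]
    linarith
  have k2 : ∀ x ∈ I, ∀ y ∈ I, ∀ a b : ℝ, 0 ≤ a → 0 ≤ b → a + b = 1 →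
      a * g2 x + b * g2 y ≤ g2 (a * x + b * y) := by
    intro x hx y hy a b ha hb hab
    have h := mul_le_mul_of_nonneg_left (c2 hx hy ha hb hab) hB0
    simp only [smul_eq_mul] at h
    rw [hg2]
    have : a * (1 - B * (Real.sin (x / 2)) ^ (-2 : ℤ)) + b * (1 - B * (Real.sin (y / 2)) ^ (-2 : ℤ))
        = 1 - B * (a * (Real.sin (x / 2)) ^ (-2 : ℤ) + b * (Real.sin (y / 2)) ^ (-2 : ℤ)) := by
      linear_combination hab
    simp only
    rw [this]
    linarith
  have hcossq : ∀ t : ℝ, Real.cos (t / 2) ^ 2 = (1 + Real.cos t) / 2 := by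
    intro t
    have h := Real.cos_sq (t / 2)
    rw [show 2 * (t / 2) = t by ring] at h
    rw [h]; ring
  have hsinsq : ∀ t : ℝ, Real.sin (t / 2) ^ 2 = (1 - Real.cos t) / 2 := by
    intro t
    have h := Real.sin_sq_add_cos_sq (t / 2)
    have h2 := hcossq t
    linarith
  have n1 : ∀ t ∈ I, 0 ≤ g1 t := by
    intro t ht
    have h1 : Real.cos (Real.arccos c + Real.arccos c') ≤ Real.cos t :=
      Real.cos_le_cos_of_nonneg_of_le_pi (hI0 t ht).1.le hsum ht.2.le
    have h2 : A ≤ Real.cos (t / 2) ^ 2 := by rw [hA, hcossq]; linarith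
    have h3 : 0 < Real.cos (t / 2) ^ 2 := pow_pos (hCpos t ht) 2
    rw [hg1]
    simp only
    rw [zpow_neg, sub_nonneg, ← div_eq_mul_inv]
    rw [show ((2 : ℤ)) = ((2 : ℕ) : ℤ) by norm_num, zpow_natCast]
    exact (div_le_one h3).2 h2
  have n2 : ∀ t ∈ I, 0 ≤ g2 t := by
    intro t ht
    have h1 : Real.cos t ≤ Real.cos (Real.arccos c - Real.arccos c') := by
      rw [hcosabs]
      exact Real.cos_le_cos_of_nonneg_of_le_pi (abs_nonneg _) (hI0 t ht).2.le ht.1.le
    have h2 : B ≤ Real.sin (t / 2) ^ 2 := by rw [hB, hsinsq]; linarith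
    have h3 : 0 < Real.sin (t / 2) ^ 2 := pow_pos (hSpos t ht) 2
    rw [hg2]
    simp only
    rw [zpow_neg, sub_nonneg, ← div_eq_mul_inv]
    rw [show ((2 : ℤ)) = ((2 : ℕ) : ℤ) by norm_num, zpow_natCast]
    exact (div_le_one h3).2 h2
  have hrr : ∀ t ∈ I, rr c c' t = Real.sqrt (g1 t * g2 t) := by
    intro t ht
    unfold rr
    congr 1
    rw [prod_id hc hc' t, hg1, hg2]
    simp only
    rw [zpow_neg, zpow_neg, show ((2 : ℤ)) = ((2 : ℕ) : ℤ) by norm_num, zpow_natCast, zpow_natCast]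
    have hP : Real.cos (Real.arccos c + Real.arccos c') = 2 * A - 1 := by rw [hA]; ring
    have hQ : Real.cos (Real.arccos c - Real.arccos c') = 1 - 2 * B := by rw [hB]; ring
    have hC0 := (hCpos t ht).ne'
    have hS0 := (hSpos t ht).ne'
    have hT : Real.sin t = 2 * Real.sin (t / 2) * Real.cos (t / 2) := by
      have h := Real.sin_two_mul (t / 2)
      rwa [show 2 * (t / 2) = t by ring] at h
    have e1 : Real.cos t - (2 * A - 1) = 2 * (Real.cos (t / 2) ^ 2 - A) := by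
      rw [hcossq]; ring
    have e2 : (1 - 2 * B) - Real.cos t = 2 * (Real.sin (t / 2) ^ 2 - B) := by
      rw [hsinsq]; ring
    rw [hP, hQ, e1, e2, hT]
    field_simp
    try ring
  refine ⟨hIconv, ?_⟩
  intro x hx y hy a b ha hb hab
  have hz := hIconv hx hy ha hb hab
  simp only [smul_eq_mul] at hz ⊢
  rw [hrr x hx, hrr y hy, hrr _ hz]
  refine (cs_aux ha hb (n1 x hx) (n1 y hy) (n2 x hx) (n2 y hy)).trans ?_
  apply Real.sqrt_le_sqrt
  exact mul_le_mul (k1 x hx y hy a b ha hb hab) (k2 x hx y hy a b ha hb hab)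
    (add_nonneg (mul_nonneg ha (n2 x hx)) (mul_nonneg hb (n2 y hy))) (n1 _ hz)

end RC
end

section

/-!
# RC constant factor: overlap of two arcs (medium, trigonometry)

Let `D t = c² + c'² - 2 c c' cos t`. `M = max c c' ≥ 0`, and the other one, `m`, has `|m| ≤ M`.
Case `r ≤ M`: the left set is empty (`r cos ψ ≤ r ≤ M`, and the same for `cos (ψ - θ)`). The right set is empty: `D t - M² sin² t = (M cos t - m)² ≥ 0`, so `r² sin² t ≤ M² sin² t ≤ D t`.
Case `M < r`: let `a = arccos (c/r)`, `b = arccos (c'/r)`, both in `(0, π)`; `cos b = c'/r ≥ -c/r = cos (π - a)`, so `a + b ≤ π`.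
Left: for `ψ` in `(-π,π)`: `c < r cos ψ` iff `|ψ| < a`; for `|ψ| < a` also `c' < r cos (ψ - θ)` iff `|ψ - θ| < b`: here `ψ - θ` lies in `(-a-θ, a)`; if `ψ - θ ≥ -π` this is the monotonicity of `cos`
(`Real.cos_abs`, `Real.strictAntiOn_cos`), and if `ψ - θ < -π` then `|ψ-θ| > b`, while `2π + (ψ - θ)` is in `[2π - a - θ, π] ⊆ [b, π]`, so `cos (ψ - θ) ≤ cos b`: both sides are false. So the left set is `(-a,a) ∩ (θ-b,θ+b)`, an interval
`Ioo (max (-a) (θ-b)) (min a (θ+b))`.
Right: for `t` in `(0,π)`: `r² sin² t - D t = r² (cos t - cos (a+b)) (cos (a-b) - cos t)` (expand with `cos a = c/r`, `cos b = c'/r`, `sin² = 1 - cos²`), which is positive iff `|a-b| < t < a+b`. So the right set is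
`Ioo (max θ |a-b|) (min π (a+b)) = Ioo (max θ |a-b|) (a+b)`.
The lengths agree: if `|a-b| ≤ θ` both are `a + b - θ`; otherwise both are `2 min a b` (`Real.volume_Ioo`).
-/

set_option autoImplicit false

open MeasureTheory
open scoped ENNReal NNReal

namespace RC

private theorem slice_cos_lt {x y : ℝ} (hx : 0 ≤ x) (hx' : x ≤ Real.pi) (hy : 0 ≤ y)
    (hy' : y ≤ Real.pi) : Real.cos y < Real.cos x ↔ x < y :=
  Real.strictAntiOn_cos.lt_iff_gt ⟨hy, hy'⟩ ⟨hx, hx'⟩

private theorem slice_identity (r ca cb sa sb ct st : ℝ) (ha : sa ^ 2 + ca ^ 2 = 1)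
    (hb : sb ^ 2 + cb ^ 2 = 1) (ht : st ^ 2 + ct ^ 2 = 1) :
    r ^ 2 * st ^ 2 - ((r * ca) ^ 2 + (r * cb) ^ 2 - 2 * (r * ca) * (r * cb) * ct) =
      r ^ 2 * ((ct - (ca * cb - sa * sb)) * ((ca * cb + sa * sb) - ct)) := by
  have h1 : sa ^ 2 = 1 - ca ^ 2 := by linarith
  have h2 : sb ^ 2 = 1 - cb ^ 2 := by linarith
  have h3 : st ^ 2 = 1 - ct ^ 2 := by linarith
  have h4 : (ct - (ca * cb - sa * sb)) * ((ca * cb + sa * sb) - ct) =
      2 * ca * cb * ct - ct ^ 2 - (ca ^ 2 * cb ^ 2 - sa ^ 2 * sb ^ 2) := by ring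
  rw [h4, h1, h2, h3]
  ring

theorem slice {c c' r θ : ℝ} (hc : |c| < 1) (hc' : |c'| < 1) (hcc : 0 ≤ c + c') (hr : 0 < r)
    (hθ : 0 ≤ θ) (hθπ : θ ≤ Real.pi) :
    volume {ψ : ℝ | ψ ∈ Set.Ioo (-Real.pi) Real.pi ∧ c < r * Real.cos ψ ∧ c' < r * Real.cos (ψ - θ)} =
      volume {t : ℝ | t ∈ Set.Ioo θ Real.pi ∧
        c ^ 2 + c' ^ 2 - 2 * c * c' * Real.cos t < r ^ 2 * Real.sin t ^ 2} := by
  by_cases hM : max c c' < r
  · have hcr : c < r := (le_max_left _ _).trans_lt hM
    have hcr' : c' < r := (le_max_right _ _).trans_lt hM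
    set a := Real.arccos (c / r) with ha
    set b := Real.arccos (c' / r) with hb
    have h1 : c / r < 1 := (div_lt_one hr).2 hcr
    have h1' : c' / r < 1 := (div_lt_one hr).2 hcr'
    have h2 : -1 ≤ c / r := by
      rw [le_div_iff₀ hr]
      linarith
    have h2' : -1 ≤ c' / r := by
      rw [le_div_iff₀ hr]
      linarith
    have hca : r * Real.cos a = c := by
      rw [ha, Real.cos_arccos h2 h1.le]
      field_simp
    have hcb : r * Real.cos b = c' := by
      rw [hb, Real.cos_arccos h2' h1'.le]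
      field_simp
    have ha0 : 0 < a := Real.arccos_pos.2 h1
    have hb0 : 0 < b := Real.arccos_pos.2 h1'
    have haπ : a ≤ Real.pi := Real.arccos_le_pi _
    have hbπ : b ≤ Real.pi := Real.arccos_le_pi _
    have hab : a + b ≤ Real.pi := by
      have h3 : -(c / r) ≤ c' / r := by
        rw [← neg_div]
        exact div_le_div_of_nonneg_right (by linarith) hr.le
      have h4 := Real.antitone_arccos h3
      rw [Real.arccos_neg] at h4
      linarith
    have hleft : {ψ : ℝ | ψ ∈ Set.Ioo (-Real.pi) Real.pi ∧ c < r * Real.cos ψ ∧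
        c' < r * Real.cos (ψ - θ)} = Set.Ioo (max (-a) (θ - b)) (min a (θ + b)) := by
      have e1 : ∀ ψ : ℝ, |ψ| ≤ Real.pi → (c < r * Real.cos ψ ↔ |ψ| < a) := by
        intro ψ hψ
        rw [← hca, mul_lt_mul_iff_right₀ hr, ← Real.cos_abs ψ]
        exact slice_cos_lt (abs_nonneg _) hψ ha0.le haπ
      have e2 : ∀ ψ : ℝ, |ψ| < a → (c' < r * Real.cos (ψ - θ) ↔ |ψ - θ| < b) := by
        intro ψ hψ
        rw [← hcb, mul_lt_mul_iff_right₀ hr]
        rw [abs_lt] at hψ
        by_cases hx : -Real.pi ≤ ψ - θ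
        · rw [← Real.cos_abs (ψ - θ)]
          refine slice_cos_lt (abs_nonneg _) ?_ hb0.le hbπ
          rw [abs_le]
          constructor <;> linarith
        · push Not at hx
          have h3 : Real.cos (ψ - θ) ≤ Real.cos b := by
            rw [← Real.cos_add_two_pi (ψ - θ)]
            exact Real.strictAntiOn_cos.antitoneOn ⟨hb0.le, hbπ⟩ ⟨by linarith, by linarith⟩
              (by linarith)
          constructor
          · intro h4
            exact absurd h4 (not_lt.2 h3)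
          · intro h4
            rw [abs_lt] at h4
            linarith
      ext ψ
      simp only [Set.mem_ofPred_eq, Set.mem_Ioo, max_lt_iff, lt_min_iff]
      constructor
      · rintro ⟨⟨h3, h4⟩, h5, h6⟩
        have h7 := (e1 ψ (abs_le.2 ⟨h3.le, h4.le⟩)).1 h5
        have h8 := (e2 ψ h7).1 h6
        rw [abs_lt] at h7 h8
        exact ⟨⟨h7.1, by linarith [h8.1]⟩, h7.2, by linarith [h8.2]⟩
      · rintro ⟨⟨h3, h4⟩, h5, h6⟩
        have h7 : |ψ| < a := abs_lt.2 ⟨h3, h5⟩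
        have h8 : |ψ - θ| < b := abs_lt.2 ⟨by linarith, by linarith⟩
        exact ⟨⟨by linarith, by linarith⟩, (e1 ψ (by linarith)).2 h7, (e2 ψ h7).2 h8⟩
    have hright : {t : ℝ | t ∈ Set.Ioo θ Real.pi ∧
        c ^ 2 + c' ^ 2 - 2 * c * c' * Real.cos t < r ^ 2 * Real.sin t ^ 2} =
        Set.Ioo (max θ |a - b|) (a + b) := by
      have habs : |a - b| ≤ a + b := by
        rw [abs_le]
        constructor <;> linarith
      have e1 : ∀ t : ℝ, 0 ≤ t → t ≤ Real.pi →
          (c ^ 2 + c' ^ 2 - 2 * c * c' * Real.cos t < r ^ 2 * Real.sin t ^ 2 ↔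
            |a - b| < t ∧ t < a + b) := by
        intro t ht0 htπ
        have h3 := slice_identity r (Real.cos a) (Real.cos b) (Real.sin a) (Real.sin b)
          (Real.cos t) (Real.sin t) (Real.sin_sq_add_cos_sq a) (Real.sin_sq_add_cos_sq b)
          (Real.sin_sq_add_cos_sq t)
        rw [hca, hcb, ← Real.cos_add, ← Real.cos_sub, ← Real.cos_abs (a - b)] at h3
        have hr2 : 0 < r ^ 2 := by positivity
        have f1 : Real.cos (a + b) < Real.cos t ↔ t < a + b :=
          slice_cos_lt ht0 htπ (by linarith) hab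
        have f2 : Real.cos t < Real.cos |a - b| ↔ |a - b| < t :=
          slice_cos_lt (abs_nonneg _) (by linarith) ht0 htπ
        constructor
        · intro h4
          have h5 : 0 < (Real.cos t - Real.cos (a + b)) * (Real.cos |a - b| - Real.cos t) := by
            have h6 : 0 < r ^ 2 * ((Real.cos t - Real.cos (a + b)) *
                (Real.cos |a - b| - Real.cos t)) := by
              rw [← h3]
              linarith
            exact (mul_pos_iff_of_pos_left hr2).1 h6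
          rcases pos_and_pos_or_neg_and_neg_of_mul_pos h5 with ⟨h6, h7⟩ | ⟨h6, h7⟩
          · exact ⟨f2.1 (by linarith), f1.1 (by linarith)⟩
          · exfalso
            have h8 : ¬ (t < a + b) := fun h => by
              have := f1.2 h
              linarith
            have h9 : |a - b| < t ∨ t ≤ |a - b| := lt_or_ge _ _
            rcases h9 with h9 | h9
            · have := f2.2 h9
              linarith
            · have h10 : t = |a - b| := le_antisymm h9 (by linarith [not_lt.1 h8])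
              rw [← h10] at h7
              linarith
        · rintro ⟨h4, h5⟩
          have h6 := f1.2 h5
          have h7 := f2.2 h4
          have h8 : 0 < r ^ 2 * ((Real.cos t - Real.cos (a + b)) *
              (Real.cos |a - b| - Real.cos t)) :=
            mul_pos hr2 (mul_pos (by linarith) (by linarith))
          linarith
      ext t
      simp only [Set.mem_ofPred_eq, Set.mem_Ioo, max_lt_iff]
      constructor
      · rintro ⟨⟨h3, h4⟩, h5⟩
        obtain ⟨h6, h7⟩ := (e1 t (by linarith) h4.le).1 h5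
        exact ⟨⟨h3, h6⟩, h7⟩
      · rintro ⟨⟨h3, h6⟩, h7⟩
        exact ⟨⟨h3, by linarith⟩, (e1 t (by linarith) (by linarith)).2 ⟨h6, h7⟩⟩
    rw [hleft, hright, Real.volume_Ioo, Real.volume_Ioo]
    congr 1
    rcases le_or_gt (|a - b|) θ with h3 | h3
    · rw [max_eq_left h3]
      rw [abs_le] at h3
      rw [min_eq_left (by linarith), max_eq_right (by linarith)]
      ring
    · rw [max_eq_right h3.le]
      rcases le_total a b with h4 | h4
      · rw [abs_of_nonpos (by linarith)] at h3 ⊢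
        rw [min_eq_left (by linarith), max_eq_left (by linarith)]
        ring
      · rw [abs_of_nonneg (by linarith)] at h3 ⊢
        rw [min_eq_right (by linarith), max_eq_right (by linarith)]
        ring
  · push Not at hM
    have hleft : {ψ : ℝ | ψ ∈ Set.Ioo (-Real.pi) Real.pi ∧ c < r * Real.cos ψ ∧
        c' < r * Real.cos (ψ - θ)} = ∅ := by
      rw [Set.eq_empty_iff_forall_notMem]
      rintro ψ ⟨-, h1, h2⟩
      have h3 : r * Real.cos ψ ≤ r * 1 := mul_le_mul_of_nonneg_left (Real.cos_le_one _) hr.le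
      have h4 : r * Real.cos (ψ - θ) ≤ r * 1 := mul_le_mul_of_nonneg_left (Real.cos_le_one _) hr.le
      rcases le_max_iff.1 hM with h5 | h5 <;> linarith
    have hright : {t : ℝ | t ∈ Set.Ioo θ Real.pi ∧
        c ^ 2 + c' ^ 2 - 2 * c * c' * Real.cos t < r ^ 2 * Real.sin t ^ 2} = ∅ := by
      rw [Set.eq_empty_iff_forall_notMem]
      rintro t ⟨-, h1⟩
      have h2 := Real.sin_sq_add_cos_sq t
      rcases le_max_iff.1 hM with h5 | h5
      · have h6 : r ^ 2 * Real.sin t ^ 2 ≤ c ^ 2 * Real.sin t ^ 2 :=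
          mul_le_mul_of_nonneg_right (pow_le_pow_left₀ hr.le h5 2) (sq_nonneg _)
        have h7 : c ^ 2 + c' ^ 2 - 2 * c * c' * Real.cos t - c ^ 2 * Real.sin t ^ 2 =
            (c * Real.cos t - c') ^ 2 := by
          have h8 : Real.sin t ^ 2 = 1 - Real.cos t ^ 2 := by linarith
          rw [h8]
          ring
        have h9 := sq_nonneg (c * Real.cos t - c')
        linarith
      · have h6 : r ^ 2 * Real.sin t ^ 2 ≤ c' ^ 2 * Real.sin t ^ 2 :=
          mul_le_mul_of_nonneg_right (pow_le_pow_left₀ hr.le h5 2) (sq_nonneg _)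
        have h7 : c ^ 2 + c' ^ 2 - 2 * c * c' * Real.cos t - c' ^ 2 * Real.sin t ^ 2 =
            (c' * Real.cos t - c) ^ 2 := by
          have h8 : Real.sin t ^ 2 = 1 - Real.cos t ^ 2 := by linarith
          rw [h8]
          ring
        have h9 := sq_nonneg (c' * Real.cos t - c)
        linarith
    rw [hleft, hright]

end RC
end

section

/-!
# RC constant factor: the distribution of two coordinates (medium/hard)

`n = finrank ≥ 3`. Let `F y = G (⟪y,N⟫/‖y‖, ⟪y,e⟫/‖y‖) * 1_{‖y‖ < 1}`. By `polar` (file CVb) and `om_norm`, `∫ F = (∫ r in (0,1), r^(n-1)) * ∫ G (⟪x,N⟫,⟪x,e⟫) dom = (1/n) * ...`.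
On the other hand choose an orthonormal basis `b : OrthonormalBasis (Fin n) ℝ E` with `b 0 = N`, `b 1 = e` (for example `exists_orthonormalBasis_extension_of_card_eq`);
`b.measurePreserving_repr`, the measure preserving equivalence of `EuclideanSpace ℝ (Fin n)` with `Fin n → ℝ` and `MeasureTheory.volume_preserving_piFinSuccAbove` (twice) give
`∫ F = ∫ (s,t) : ℝ × ℝ, ∫ y : Fin (n-2) → ℝ, G (s/R, t/R) 1_{R<1}`, `R = √(s² + t² + Σ y_i²)`.
The inner integral is, again by `polar` for `EuclideanSpace ℝ (Fin (n-2))` (dimension `n-2 ≥ 1`), `C' ∫ ρ in Ioi 0, ρ^(n-3) G (s/R, t/R) 1_{R<1}`, `R = √(s²+t²+ρ²)`, `C' = om univ < ⊤`.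
Polar coordinates `(s,t) = (τ cos ψ, τ sin ψ)` (`lintegral_comp_polarCoord_symm`): `C' ∫ ψ in (-π,π), ∫ τ > 0, ∫ ρ > 0, τ ρ^(n-3) G ((τ/R) cos ψ, (τ/R) sin ψ) 1_{R<1}`, `R² = τ²+ρ²`, and again polar coordinates
`(τ,ρ) = (R cos φ, R sin φ)`, `φ` in `(0,π/2)` (the quadrant): `C' ∫ ψ ∫ φ ∫ R in (0,1), R^(n-1) cos φ sin^(n-3) φ G (cos φ cos ψ, cos φ sin ψ)`. So `C = C'`.
Any other proof is welcome.
-/

set_option autoImplicit false

open MeasureTheory Module
open scoped ENNReal NNReal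

namespace RC

variable {E : Type*} [NormedAddCommGroup E] [InnerProductSpace ℝ E] [MeasurableSpace E]
  [BorelSpace E] [FiniteDimensional ℝ E]

private theorem lint_pow (m : ℕ) :
    ∫⁻ r in Set.Ioo (0 : ℝ) 1, ENNReal.ofReal (r ^ m) = ENNReal.ofReal (1 / ((m : ℝ) + 1)) := by
  rw [Measure.restrict_congr_set Ioo_ae_eq_Ioc,
    ← ofReal_integral_eq_lintegral_ofReal (intervalIntegral.intervalIntegrable_pow _).1,
    ← intervalIntegral.integral_of_le zero_le_one]
  · simp
  · filter_upwards [ae_restrict_mem measurableSet_Ioc] with y hy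
    exact pow_nonneg hy.1.le _

private theorem radial (k : ℕ) (H : ℝ → ℝ≥0∞) (hH : Measurable H) :
    ∫⁻ y : Fin (k + 1) → ℝ, H (Real.sqrt (∑ i, y i ^ 2)) =
      om (EuclideanSpace ℝ (Fin (k + 1))) Set.univ *
        ∫⁻ r in Set.Ioi (0 : ℝ), ENNReal.ofReal (r ^ k) * H r := by
  have h1 : ∫⁻ y : Fin (k + 1) → ℝ, H (Real.sqrt (∑ i, y i ^ 2)) =
      ∫⁻ z : EuclideanSpace ℝ (Fin (k + 1)), H ‖z‖ := by
    rw [← (PiLp.volume_preserving_toLp (Fin (k + 1))).lintegral_comp
      (f := fun z : EuclideanSpace ℝ (Fin (k + 1)) => H ‖z‖) (hH.comp measurable_norm)]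
    refine lintegral_congr fun y => ?_
    rw [EuclideanSpace.norm_eq]
    simp
  have hfr : finrank ℝ (EuclideanSpace ℝ (Fin (k + 1))) = k + 1 := by simp
  rw [h1, polar (by rw [hfr]; omega) (fun z => H ‖z‖) (hH.comp measurable_norm)]
  have h2 : ∀ᵐ x ∂(om (EuclideanSpace ℝ (Fin (k + 1)))),
      (∫⁻ r in Set.Ioi (0 : ℝ), ENNReal.ofReal
        (r ^ (finrank ℝ (EuclideanSpace ℝ (Fin (k + 1))) - 1)) * H ‖r • x‖) =
      ∫⁻ r in Set.Ioi (0 : ℝ), ENNReal.ofReal (r ^ k) * H r := by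
    have : Nontrivial (EuclideanSpace ℝ (Fin (k + 1))) :=
      Module.nontrivial_of_finrank_pos (R := ℝ) (by omega)
    filter_upwards [om_norm (E := EuclideanSpace ℝ (Fin (k + 1)))] with x hx
    rw [hfr, Nat.add_sub_cancel]
    refine setLIntegral_congr_fun measurableSet_Ioi fun r hr => ?_
    have : ‖r • x‖ = r := by
      rw [norm_smul, hx, mul_one, Real.norm_of_nonneg (le_of_lt hr)]
    simp only [this]
  rw [lintegral_congr_ae h2, lintegral_const, mul_comm]

/-- the integrand -/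
private noncomputable def Ph (G : ℝ × ℝ → ℝ≥0∞) (p : ℝ × ℝ × ℝ) : ℝ≥0∞ :=
  {q : ℝ × ℝ × ℝ | q.2.2 < 1}.indicator (fun q => G (q.1 / q.2.2, q.2.1 / q.2.2)) p

private theorem Ph_meas {G : ℝ × ℝ → ℝ≥0∞} (hG : Measurable G) : Measurable (Ph G) := by
  refine Measurable.indicator ?_ (measurableSet_lt (measurable_snd.comp measurable_snd)
    measurable_const)
  exact hG.comp ((measurable_fst.div (measurable_snd.comp measurable_snd)).prodMk
    ((measurable_fst.comp measurable_snd).div (measurable_snd.comp measurable_snd)))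

private theorem quad (k : ℕ) (g : ℝ → ℝ≥0∞) (hg : Measurable g) :
    ∫⁻ p in (Set.Ioi (0 : ℝ)) ×ˢ (Set.Ioi (0 : ℝ)), ENNReal.ofReal (p.1 * p.2 ^ k) *
      ({r : ℝ | r < 1}.indicator (fun r => g (p.1 / r)) (Real.sqrt (p.1 ^ 2 + p.2 ^ 2))) =
      ENNReal.ofReal (1 / ((k : ℝ) + 3)) *
        ∫⁻ φ in Set.Ioo 0 (Real.pi / 2), ENNReal.ofReal (Real.cos φ * Real.sin φ ^ k) *
          g (Real.cos φ) := by
  have hQ : MeasurableSet ((Set.Ioi (0 : ℝ)) ×ˢ (Set.Ioi (0 : ℝ))) :=
    measurableSet_Ioi.prod measurableSet_Ioi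
  rw [← lintegral_indicator hQ, ← lintegral_comp_polarCoord_symm, polarCoord_target]
  have hT : MeasurableSet (Set.Ioi (0 : ℝ) ×ˢ Set.Ioo (-Real.pi) Real.pi) :=
    measurableSet_Ioi.prod measurableSet_Ioo
  have hm1 : Measurable fun q : ℝ × ℝ => ENNReal.ofReal (q.1 ^ (k + 2)) *
      (ENNReal.ofReal (Real.cos q.2 * Real.sin q.2 ^ k) * g (Real.cos q.2)) := by
    fun_prop
  have e1 : ∫⁻ p in Set.Ioi (0 : ℝ) ×ˢ Set.Ioo (-Real.pi) Real.pi, ENNReal.ofReal p.1 •
      ((Set.Ioi (0 : ℝ)) ×ˢ (Set.Ioi (0 : ℝ))).indicator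
        (fun p : ℝ × ℝ => ENNReal.ofReal (p.1 * p.2 ^ k) *
      ({r : ℝ | r < 1}.indicator (fun r => g (p.1 / r)) (Real.sqrt (p.1 ^ 2 + p.2 ^ 2))))
        (polarCoord.symm p) =
      ∫⁻ p in Set.Ioo (0 : ℝ) 1 ×ˢ Set.Ioo 0 (Real.pi / 2), ENNReal.ofReal (p.1 ^ (k + 2)) *
      (ENNReal.ofReal (Real.cos p.2 * Real.sin p.2 ^ k) * g (Real.cos p.2)) := by
    rw [← lintegral_indicator hT, ← lintegral_indicator (measurableSet_Ioo.prod measurableSet_Ioo)]
    refine lintegral_congr fun p => ?_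
    obtain ⟨r, φ⟩ := p
    have hpi := Real.pi_pos
    by_cases h0 : (r, φ) ∈ Set.Ioi (0 : ℝ) ×ˢ Set.Ioo (-Real.pi) Real.pi
    · rw [Set.indicator_of_mem h0]
      obtain ⟨hr, hφ1, hφ2⟩ := h0
      simp only [Set.mem_Ioi] at hr hφ1 hφ2
      by_cases h1 : φ ∈ Set.Ioo 0 (Real.pi / 2)
      · have hc : 0 < Real.cos φ := Real.cos_pos_of_mem_Ioo ⟨by linarith [h1.1], h1.2⟩
        have hs : 0 < Real.sin φ := Real.sin_pos_of_pos_of_lt_pi h1.1 (by linarith [h1.2])
        have hmem : polarCoord.symm (r, φ) ∈ (Set.Ioi (0 : ℝ)) ×ˢ (Set.Ioi (0 : ℝ)) :=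
          ⟨mul_pos hr hc, mul_pos hr hs⟩
        rw [Set.indicator_of_mem hmem]
        have hsq : Real.sqrt ((polarCoord.symm (r, φ)).1 ^ 2 + (polarCoord.symm (r, φ)).2 ^ 2) = r := by
          have : (polarCoord.symm (r, φ)).1 ^ 2 + (polarCoord.symm (r, φ)).2 ^ 2 = r ^ 2 := by
            simp only [polarCoord_symm_apply]
            nlinarith [Real.sin_sq_add_cos_sq φ]
          rw [this, Real.sqrt_sq hr.le]
        rw [hsq]
        by_cases h2 : r < 1
        · rw [Set.indicator_of_mem (show r ∈ {r : ℝ | r < 1} from h2),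
            Set.indicator_of_mem (show (r, φ) ∈ Set.Ioo (0 : ℝ) 1 ×ˢ Set.Ioo 0 (Real.pi / 2) from
              ⟨⟨hr, h2⟩, h1⟩)]
          simp only [polarCoord_symm_apply, smul_eq_mul]
          rw [mul_div_cancel_left₀ _ hr.ne', ← mul_assoc, ← mul_assoc,
            ← ENNReal.ofReal_mul hr.le, ← ENNReal.ofReal_mul (by positivity)]
          congr 2
          ring
        · rw [Set.indicator_of_notMem (show r ∉ {r : ℝ | r < 1} from h2),
            Set.indicator_of_notMem (fun h => h2 h.1.2)]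
          simp
      · rw [Set.indicator_of_notMem (s := Set.Ioo (0 : ℝ) 1 ×ˢ Set.Ioo 0 (Real.pi / 2))
          (fun h => h1 h.2)]
        have hnm : polarCoord.symm (r, φ) ∉ (Set.Ioi (0 : ℝ)) ×ˢ (Set.Ioi (0 : ℝ)) := by
          rintro ⟨hc, hs⟩
          simp only [polarCoord_symm_apply, Set.mem_Ioi] at hc hs
          have hc' : 0 < Real.cos φ := (mul_pos_iff_of_pos_left hr).1 hc
          have hs' : 0 < Real.sin φ := (mul_pos_iff_of_pos_left hr).1 hs
          apply h1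
          constructor
          · by_contra hcon
            have := Real.sin_nonpos_of_nonpos_of_neg_pi_le (not_lt.1 hcon) hφ1.le
            linarith
          · by_contra hcon
            have := Real.cos_nonpos_of_pi_div_two_le_of_le (not_lt.1 hcon) (by linarith)
            linarith
        rw [Set.indicator_of_notMem hnm]
        simp
    · rw [Set.indicator_of_notMem h0, Set.indicator_of_notMem]
      rintro ⟨⟨hr, _⟩, hφ⟩
      exact h0 ⟨hr, by constructor <;> [linarith [hφ.1]; linarith [hφ.2]]⟩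
  rw [e1, Measure.volume_eq_prod, ← Measure.prod_restrict, lintegral_prod _ hm1.aemeasurable]
  have hm2 : Measurable fun q : ℝ => ENNReal.ofReal (Real.cos q * Real.sin q ^ k) *
      g (Real.cos q) := by
    fun_prop
  simp only [lintegral_const_mul _ hm2]
  rw [lintegral_mul_const _ (by fun_prop)]
  congr 1
  rw [lint_pow]
  congr 2
  push_cast
  ring

theorem join (hn : 3 ≤ finrank ℝ E) {N e : E} (hN : ‖N‖ = 1) (he : ‖e‖ = 1) (hNe : inner ℝ N e = (0:ℝ)) :
    ∃ C : ℝ≥0∞, C ≠ ⊤ ∧ ∀ G : ℝ × ℝ → ℝ≥0∞, Measurable G →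
      ∫⁻ x, G (inner ℝ x N, inner ℝ x e) ∂(om E) =
        C * ∫⁻ φ in Set.Ioo 0 (Real.pi / 2), (∫⁻ ψ in Set.Ioo (-Real.pi) Real.pi,
          ENNReal.ofReal (Real.cos φ * Real.sin φ ^ (finrank ℝ E - 3)) *
            G (Real.cos φ * Real.cos ψ, Real.cos φ * Real.sin ψ)) := by
  obtain ⟨k, hk⟩ : ∃ k, finrank ℝ E = k + 3 := ⟨finrank ℝ E - 3, by omega⟩
  have hnt : Nontrivial E := Module.nontrivial_of_finrank_pos (R := ℝ) (by omega)
  refine ⟨om (EuclideanSpace ℝ (Fin (k + 1))) Set.univ, ?_, fun G hG => ?_⟩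
  · unfold om
    rw [Measure.map_apply measurable_subtype_coe MeasurableSet.univ]
    exact measure_ne_top _ _
  set C := om (EuclideanSpace ℝ (Fin (k + 1))) Set.univ with hC
  have hPh := Ph_meas hG
  have hm0 : Measurable fun y : E => Ph G (inner ℝ y N, inner ℝ y e, ‖y‖) :=
    hPh.comp ((measurable_id.inner measurable_const).prodMk
      ((measurable_id.inner measurable_const).prodMk measurable_norm))
  -- first evaluation
  have hA : ∫⁻ y : E, Ph G (inner ℝ y N, inner ℝ y e, ‖y‖) =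
      ENNReal.ofReal (1 / ((k : ℝ) + 3)) * ∫⁻ x, G (inner ℝ x N, inner ℝ x e) ∂(om E) := by
    have hmG : Measurable fun x : E => G (inner ℝ x N, inner ℝ x e) := hG.comp
      ((measurable_id.inner measurable_const).prodMk (measurable_id.inner measurable_const))
    rw [polar (by omega) _ hm0, ← lintegral_const_mul _ hmG]
    refine lintegral_congr_ae ?_
    filter_upwards [om_norm (E := E)] with x hx
    have h1 : ∀ r ∈ Set.Ioi (0 : ℝ), ENNReal.ofReal (r ^ (finrank ℝ E - 1)) *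
        Ph G (inner ℝ (r • x) N, inner ℝ (r • x) e, ‖r • x‖) =
        (Set.Ioo (0 : ℝ) 1).indicator (fun r => ENNReal.ofReal (r ^ (k + 2)) *
          G (inner ℝ x N, inner ℝ x e)) r := by
      intro r hr
      have hr' : (0 : ℝ) < r := hr
      have hnr : ‖r • x‖ = r := by rw [norm_smul, hx, mul_one, Real.norm_of_nonneg hr'.le]
      rw [hnr, real_inner_smul_left, real_inner_smul_left, hk]
      by_cases h2 : r < 1
      · rw [Set.indicator_of_mem (show r ∈ Set.Ioo (0 : ℝ) 1 from ⟨hr, h2⟩), Ph,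
          Set.indicator_of_mem (by exact h2)]
        simp only
        rw [mul_div_cancel_left₀ _ hr'.ne', mul_div_cancel_left₀ _ hr'.ne']
        rfl
      · rw [Set.indicator_of_notMem (fun h => h2 h.2), Ph, Set.indicator_of_notMem (by exact h2),
          mul_zero]
    rw [setLIntegral_congr_fun measurableSet_Ioi h1, setLIntegral_indicator measurableSet_Ioo,
      Set.inter_eq_left.2 (fun r hr => hr.1), lintegral_mul_const _ (by fun_prop), lint_pow]
    congr 3
    push_cast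
    ring
  -- second evaluation
  have hB : ∫⁻ y : E, Ph G (inner ℝ y N, inner ℝ y e, ‖y‖) =
      C * (ENNReal.ofReal (1 / ((k : ℝ) + 3)) *
        ∫⁻ φ in Set.Ioo 0 (Real.pi / 2), (∫⁻ ψ in Set.Ioo (-Real.pi) Real.pi,
          ENNReal.ofReal (Real.cos φ * Real.sin φ ^ k) *
            G (Real.cos φ * Real.cos ψ, Real.cos φ * Real.sin ψ))) := by
    -- the basis
    have hN1 : inner ℝ N N = (1 : ℝ) := by rw [real_inner_self_eq_norm_sq, hN]; norm_num
    have he1 : inner ℝ e e = (1 : ℝ) := by rw [real_inner_self_eq_norm_sq, he]; norm_num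
    have heN : inner ℝ e N = (0 : ℝ) := by rw [real_inner_comm]; exact hNe
    obtain ⟨b, hb⟩ := Orthonormal.exists_orthonormalBasis_extension_of_card_eq (𝕜 := ℝ)
      (ι := Fin 2 ⊕ Fin (k + 1)) (E := E) (by rw [hk]; simp; ring)
      (v := Sum.elim ![N, e] (fun _ => 0)) (s := Set.range Sum.inl) (by
        rw [orthonormal_iff_ite]
        rintro ⟨i, i', rfl⟩ ⟨j, j', rfl⟩
        fin_cases i' <;> fin_cases j' <;> simp [Set.domRestrict, hN1, he1, hNe, heN, hN, he])
    have hb0 : b (Sum.inl 0) = N := by rw [hb _ ⟨0, rfl⟩]; rfl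
    have hb1 : b (Sum.inl 1) = e := by rw [hb _ ⟨1, rfl⟩]; rfl
    have s1 : ∫⁻ y : E, Ph G (inner ℝ y N, inner ℝ y e, ‖y‖) =
        ∫⁻ z : EuclideanSpace ℝ (Fin 2 ⊕ Fin (k + 1)), Ph G (z (Sum.inl 0), z (Sum.inl 1), ‖z‖) := by
      have hm1 : Measurable fun z : EuclideanSpace ℝ (Fin 2 ⊕ Fin (k + 1)) =>
          Ph G (z (Sum.inl 0), z (Sum.inl 1), ‖z‖) := hPh.comp (by fun_prop)
      rw [← b.measurePreserving_repr.lintegral_comp hm1]
      refine lintegral_congr fun y => ?_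
      rw [b.repr_apply_apply, b.repr_apply_apply, hb0, hb1, real_inner_comm, real_inner_comm e y,
        LinearIsometryEquiv.norm_map]
    have s2 : ∫⁻ z : EuclideanSpace ℝ (Fin 2 ⊕ Fin (k + 1)),
          Ph G (z (Sum.inl 0), z (Sum.inl 1), ‖z‖) =
        ∫⁻ w : Fin 2 ⊕ Fin (k + 1) → ℝ, Ph G (w (Sum.inl 0), w (Sum.inl 1),
          Real.sqrt (∑ i, w i ^ 2)) := by
      rw [← (PiLp.volume_preserving_toLp (Fin 2 ⊕ Fin (k + 1))).lintegral_comp
        (f := fun z : EuclideanSpace ℝ (Fin 2 ⊕ Fin (k + 1)) =>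
          Ph G (z (Sum.inl 0), z (Sum.inl 1), ‖z‖)) (hPh.comp (by fun_prop))]
      refine lintegral_congr fun w => ?_
      rw [EuclideanSpace.norm_eq]
      simp
    have s3 : ∫⁻ w : Fin 2 ⊕ Fin (k + 1) → ℝ, Ph G (w (Sum.inl 0), w (Sum.inl 1),
          Real.sqrt (∑ i, w i ^ 2)) =
        ∫⁻ p : (Fin 2 → ℝ) × (Fin (k + 1) → ℝ), Ph G (p.1 0, p.1 1,
          Real.sqrt (p.1 0 ^ 2 + p.1 1 ^ 2 + ∑ i, p.2 i ^ 2)) := by
      have hmp := volume_measurePreserving_sumPiEquivProdPi (fun _ : Fin 2 ⊕ Fin (k + 1) => ℝ)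
      rw [← hmp.lintegral_comp (f := fun p : (Fin 2 → ℝ) × (Fin (k + 1) → ℝ) => Ph G (p.1 0, p.1 1,
          Real.sqrt (p.1 0 ^ 2 + p.1 1 ^ 2 + ∑ i, p.2 i ^ 2))) (hPh.comp (by fun_prop))]
      refine lintegral_congr fun w => ?_
      rw [Fintype.sum_sum_type, Fin.sum_univ_two]
      rfl
    have s4 : ∫⁻ p : (Fin 2 → ℝ) × (Fin (k + 1) → ℝ), Ph G (p.1 0, p.1 1,
          Real.sqrt (p.1 0 ^ 2 + p.1 1 ^ 2 + ∑ i, p.2 i ^ 2)) =
        ∫⁻ a : Fin 2 → ℝ, C * ∫⁻ ρ in Set.Ioi (0 : ℝ), ENNReal.ofReal (ρ ^ k) *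
          Ph G (a 0, a 1, Real.sqrt (a 0 ^ 2 + a 1 ^ 2 + ρ ^ 2)) := by
      have hm1 : Measurable fun p : (Fin 2 → ℝ) × (Fin (k + 1) → ℝ) => Ph G (p.1 0, p.1 1,
          Real.sqrt (p.1 0 ^ 2 + p.1 1 ^ 2 + ∑ i, p.2 i ^ 2)) := hPh.comp (by fun_prop)
      rw [Measure.volume_eq_prod, lintegral_prod _ hm1.aemeasurable]
      refine lintegral_congr fun a => ?_
      rw [hC, ← radial k (fun ρ => Ph G (a 0, a 1, Real.sqrt (a 0 ^ 2 + a 1 ^ 2 + ρ ^ 2)))
        (hPh.comp (by fun_prop))]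
      refine lintegral_congr fun y => ?_
      rw [Real.sq_sqrt (Finset.sum_nonneg fun _ _ => sq_nonneg _)]
    have hmρ : Measurable fun q : (ℝ × ℝ) × ℝ => ENNReal.ofReal (q.2 ^ k) *
          Ph G (q.1.1, q.1.2, Real.sqrt (q.1.1 ^ 2 + q.1.2 ^ 2 + q.2 ^ 2)) := by
      refine Measurable.mul (by fun_prop) (hPh.comp (by fun_prop))
    have hmI : Measurable fun p : ℝ × ℝ => ∫⁻ ρ in Set.Ioi (0 : ℝ), ENNReal.ofReal (ρ ^ k) *
          Ph G (p.1, p.2, Real.sqrt (p.1 ^ 2 + p.2 ^ 2 + ρ ^ 2)) :=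
      hmρ.lintegral_prod_right'
    have s5 : ∫⁻ a : Fin 2 → ℝ, C * ∫⁻ ρ in Set.Ioi (0 : ℝ), ENNReal.ofReal (ρ ^ k) *
          Ph G (a 0, a 1, Real.sqrt (a 0 ^ 2 + a 1 ^ 2 + ρ ^ 2)) =
        C * ∫⁻ p : ℝ × ℝ, ∫⁻ ρ in Set.Ioi (0 : ℝ), ENNReal.ofReal (ρ ^ k) *
          Ph G (p.1, p.2, Real.sqrt (p.1 ^ 2 + p.2 ^ 2 + ρ ^ 2)) := by
      have hmp := volume_preserving_finTwoArrow ℝ
      rw [← hmp.lintegral_comp hmI]
      have hmI2 : Measurable fun a : Fin 2 → ℝ => ∫⁻ ρ in Set.Ioi (0 : ℝ), ENNReal.ofReal (ρ ^ k) *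
          Ph G (a 0, a 1, Real.sqrt (a 0 ^ 2 + a 1 ^ 2 + ρ ^ 2)) :=
        hmI.comp (MeasurableEquiv.finTwoArrow (α := ℝ)).measurable
      rw [lintegral_const_mul _ hmI2]
      rfl
    have s6 : ∫⁻ p : ℝ × ℝ, ∫⁻ ρ in Set.Ioi (0 : ℝ), ENNReal.ofReal (ρ ^ k) *
          Ph G (p.1, p.2, Real.sqrt (p.1 ^ 2 + p.2 ^ 2 + ρ ^ 2)) =
        ∫⁻ ψ in Set.Ioo (-Real.pi) Real.pi, ∫⁻ τ in Set.Ioi (0 : ℝ), ∫⁻ ρ in Set.Ioi (0 : ℝ),
          ENNReal.ofReal (τ * ρ ^ k) *
          ({r : ℝ | r < 1}.indicator (fun r => G (τ / r * Real.cos ψ, τ / r * Real.sin ψ))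
            (Real.sqrt (τ ^ 2 + ρ ^ 2))) := by
      rw [← lintegral_comp_polarCoord_symm, polarCoord_target]
      have hm3 : Measurable fun p : ℝ × ℝ => ENNReal.ofReal p.1 •
          ∫⁻ ρ in Set.Ioi (0 : ℝ), ENNReal.ofReal (ρ ^ k) *
          Ph G ((polarCoord.symm p).1, (polarCoord.symm p).2,
            Real.sqrt ((polarCoord.symm p).1 ^ 2 + (polarCoord.symm p).2 ^ 2 + ρ ^ 2)) := by
        have hmc : Measurable fun p : ℝ × ℝ => polarCoord.symm p :=
          continuous_polarCoord_symm.measurable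
        exact Measurable.smul measurable_fst.ennreal_ofReal (hmI.comp hmc)
      rw [Measure.volume_eq_prod, ← Measure.prod_restrict,
        lintegral_prod_symm' _ hm3]
      refine setLIntegral_congr_fun measurableSet_Ioo fun ψ _ => ?_
      refine setLIntegral_congr_fun measurableSet_Ioi fun τ hτ => ?_
      have hτ' : (0 : ℝ) < τ := hτ
      simp only [smul_eq_mul, polarCoord_symm_apply]
      have hm4 : Measurable fun ρ : ℝ => ENNReal.ofReal (ρ ^ k) *
          Ph G (τ * Real.cos ψ, τ * Real.sin ψ,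
            Real.sqrt ((τ * Real.cos ψ) ^ 2 + (τ * Real.sin ψ) ^ 2 + ρ ^ 2)) :=
        Measurable.mul (by fun_prop) (hPh.comp (by fun_prop))
      rw [← lintegral_const_mul _ hm4]
      refine lintegral_congr fun ρ => ?_
      have hsq : (τ * Real.cos ψ) ^ 2 + (τ * Real.sin ψ) ^ 2 + ρ ^ 2 = τ ^ 2 + ρ ^ 2 := by
        nlinarith [Real.sin_sq_add_cos_sq ψ]
      rw [hsq, ENNReal.ofReal_mul hτ'.le, mul_assoc]
      congr 2
      unfold Ph
      by_cases h2 : Real.sqrt (τ ^ 2 + ρ ^ 2) < 1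
      · rw [Set.indicator_of_mem (by exact h2), Set.indicator_of_mem (by exact h2)]
        simp only
        rw [mul_div_right_comm, mul_div_right_comm]
      · rw [Set.indicator_of_notMem (by exact h2), Set.indicator_of_notMem (by exact h2)]
    have s7 : ∀ ψ : ℝ, ∫⁻ τ in Set.Ioi (0 : ℝ), ∫⁻ ρ in Set.Ioi (0 : ℝ),
          ENNReal.ofReal (τ * ρ ^ k) *
          ({r : ℝ | r < 1}.indicator (fun r => G (τ / r * Real.cos ψ, τ / r * Real.sin ψ))
            (Real.sqrt (τ ^ 2 + ρ ^ 2))) =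
        ENNReal.ofReal (1 / ((k : ℝ) + 3)) *
        ∫⁻ φ in Set.Ioo 0 (Real.pi / 2), ENNReal.ofReal (Real.cos φ * Real.sin φ ^ k) *
          G (Real.cos φ * Real.cos ψ, Real.cos φ * Real.sin ψ) := by
      intro ψ
      have hgψ : Measurable fun c : ℝ => G (c * Real.cos ψ, c * Real.sin ψ) :=
        hG.comp (by fun_prop)
      rw [← quad k (fun c => G (c * Real.cos ψ, c * Real.sin ψ)) hgψ, Measure.volume_eq_prod,
        ← Measure.prod_restrict, lintegral_prod]
      have hset : MeasurableSet {q : ℝ × ℝ | Real.sqrt (q.1 ^ 2 + q.2 ^ 2) < 1} :=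
        measurableSet_lt (by fun_prop) measurable_const
      have hfun : (fun p : ℝ × ℝ => ENNReal.ofReal (p.1 * p.2 ^ k) *
          {r : ℝ | r < 1}.indicator (fun r => G (p.1 / r * Real.cos ψ, p.1 / r * Real.sin ψ))
            (Real.sqrt (p.1 ^ 2 + p.2 ^ 2))) =
          fun p : ℝ × ℝ => ENNReal.ofReal (p.1 * p.2 ^ k) *
            {q : ℝ × ℝ | Real.sqrt (q.1 ^ 2 + q.2 ^ 2) < 1}.indicator
              (fun p => G (p.1 / Real.sqrt (p.1 ^ 2 + p.2 ^ 2) * Real.cos ψ,
                p.1 / Real.sqrt (p.1 ^ 2 + p.2 ^ 2) * Real.sin ψ)) p := by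
        funext p
        congr 1
      rw [hfun]
      refine (Measurable.mul (by fun_prop) (Measurable.indicator (hG.comp ?_) hset)).aemeasurable
      fun_prop
    rw [s1, s2, s3, s4, s5, s6]
    congr 1
    simp only [s7]
    have hm5 : Measurable fun q : ℝ × ℝ => ENNReal.ofReal (Real.cos q.2 * Real.sin q.2 ^ k) *
        G (Real.cos q.2 * Real.cos q.1, Real.cos q.2 * Real.sin q.1) :=
      Measurable.mul (by fun_prop) (hG.comp (by fun_prop))
    rw [lintegral_const_mul _ hm5.lintegral_prod_right']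
    congr 1
    rw [lintegral_lintegral_swap hm5.aemeasurable]
  have hκ0 : ENNReal.ofReal (1 / ((k : ℝ) + 3)) ≠ 0 := by
    rw [Ne, ENNReal.ofReal_eq_zero, not_le]
    positivity
  rw [hk, Nat.add_sub_cancel]
  have h := hA.symm.trans hB
  rw [mul_left_comm] at h
  exact (ENNReal.mul_right_inj hκ0 ENNReal.ofReal_ne_top).1 h

end RC
end

section

/-!
# RC constant factor: the measure of the intersection of two caps (medium)

`phiint`: `sin φ < ρ` iff `φ < arcsin ρ` for `φ` in `(0,π/2)`, `0 ≤ ρ ≤ 1`; the function `sin^m φ / m` has the derivative `cos φ sin^(m-1) φ`; `lintegral` of a nonnegative continuous function over an interval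
by `ofReal_integral_eq_lintegral_ofReal` and the fundamental theorem of calculus, or `lintegral_image_eq_lintegral_abs_deriv_mul` (substitution `x = sin φ`).
`rr_iff`: divide by `sin² t > 0`; `cos² φ = 1 - sin² φ`; `Real.lt_sqrt`.
`rr_nonneg`, `rr_le_one`: `c² + c'² - 2cc' cos t ≥ (|c| - |c'|)² ≥ 0`.
`V_rep`: `⟪x, pp N e θ⟫ = cos θ ⟪x,N⟫ + sin θ ⟪x,e⟫`. Apply `join` to the indicator `G` of `{(s,t) | c < s ∧ c' < cos θ s + sin θ t}` (the constant `C` of `join` depends on `N, e` only). As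
`cos θ cos φ cos ψ + sin θ cos φ sin ψ = cos φ cos (ψ - θ)`, the inner integral is `ofReal (cos φ sin^(n-3) φ)` times the left side of `slice` for `r = cos φ`. Insert the right side of `slice`, exchange the
integrals over `φ` and `t` (Tonelli) and use `rr_iff` and `phiint` with `m = n - 2` (so `m - 1 = n - 3`), `ρ = rr c c' t`. So the constant is `C * ofReal (1/(n-2))`.
-/

set_option autoImplicit false
set_option linter.unusedSectionVars false

open MeasureTheory Module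
open scoped ENNReal NNReal

namespace RC

variable {E : Type*} [NormedAddCommGroup E] [InnerProductSpace ℝ E] [MeasurableSpace E]
  [BorelSpace E] [FiniteDimensional ℝ E]

theorem phiint (m : ℕ) (hm : 1 ≤ m) {ρ : ℝ} (h0 : 0 ≤ ρ) (h1 : ρ ≤ 1) :
    ∫⁻ φ in {φ : ℝ | φ ∈ Set.Ioo 0 (Real.pi / 2) ∧ Real.sin φ < ρ},
      ENNReal.ofReal (Real.cos φ * Real.sin φ ^ (m - 1)) = ENNReal.ofReal (ρ ^ m / m) := by
  have hset : {φ : ℝ | φ ∈ Set.Ioo 0 (Real.pi / 2) ∧ Real.sin φ < ρ} =
      Set.Ioo 0 (Real.arcsin ρ) := by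
    ext φ
    simp only [Set.mem_ofPred_eq, Set.mem_Ioo]
    constructor
    · rintro ⟨⟨h2, h3⟩, h4⟩
      exact ⟨h2, (Real.lt_arcsin_iff_sin_lt' ⟨by linarith, h3⟩).2 h4⟩
    · rintro ⟨h2, h3⟩
      have h4 : φ < Real.pi / 2 := h3.trans_le (Real.arcsin_le_pi_div_two _)
      exact ⟨⟨h2, h4⟩, (Real.lt_arcsin_iff_sin_lt' ⟨by linarith, h4⟩).1 h3⟩
  rw [hset]
  have ha0 : 0 ≤ Real.arcsin ρ := Real.arcsin_nonneg.2 h0
  have hcont : Continuous fun φ : ℝ => Real.cos φ * Real.sin φ ^ (m - 1) := by fun_prop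
  have hint : IntegrableOn (fun φ : ℝ => Real.cos φ * Real.sin φ ^ (m - 1))
      (Set.Ioo 0 (Real.arcsin ρ)) :=
    (hcont.integrableOn_Icc (a := 0) (b := Real.arcsin ρ)).mono_set Set.Ioo_subset_Icc_self
  rw [← ofReal_integral_eq_lintegral_ofReal hint]
  · congr 1
    rw [← integral_Ioc_eq_integral_Ioo, ← intervalIntegral.integral_of_le ha0]
    have hm0 : (m : ℝ) ≠ 0 := by
      have : (0 : ℝ) < m := by exact_mod_cast hm
      exact this.ne'
    have hd : ∀ x ∈ Set.uIcc 0 (Real.arcsin ρ), HasDerivAt (fun x : ℝ => Real.sin x ^ m / m)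
        (Real.cos x * Real.sin x ^ (m - 1)) x := by
      intro x _
      have h2 := ((Real.hasDerivAt_sin x).pow m).div_const (m : ℝ)
      refine h2.congr_deriv ?_
      field_simp
    rw [intervalIntegral.integral_eq_sub_of_hasDerivAt hd
      (hcont.intervalIntegrable _ _), Real.sin_arcsin (by linarith) h1, Real.sin_zero,
      zero_pow (by omega)]
    ring
  · refine (ae_restrict_iff' measurableSet_Ioo).2 (Filter.Eventually.of_forall fun φ hφ => ?_)
    have h2 : φ ≤ Real.pi / 2 := hφ.2.le.trans (Real.arcsin_le_pi_div_two _)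
    have h3 : 0 ≤ Real.cos φ := Real.cos_nonneg_of_mem_Icc ⟨by linarith [hφ.1, Real.pi_pos], h2⟩
    have h4 : 0 ≤ Real.sin φ :=
      Real.sin_nonneg_of_mem_Icc ⟨hφ.1.le, by linarith [Real.pi_pos]⟩
    exact mul_nonneg h3 (pow_nonneg h4 _)

theorem rr_iff {c c' t φ : ℝ} (ht : t ∈ Set.Ioo 0 Real.pi) (hφ : φ ∈ Set.Ioo 0 (Real.pi / 2)) :
    c ^ 2 + c' ^ 2 - 2 * c * c' * Real.cos t < Real.cos φ ^ 2 * Real.sin t ^ 2 ↔
      Real.sin φ < rr c c' t := by
  have hs : 0 < Real.sin t := Real.sin_pos_of_mem_Ioo ht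
  have hs2 : 0 < Real.sin t ^ 2 := by positivity
  have hφ0 : 0 ≤ Real.sin φ :=
    Real.sin_nonneg_of_mem_Icc ⟨hφ.1.le, by linarith [hφ.2, Real.pi_pos]⟩
  have h1 : Real.cos φ ^ 2 * Real.sin t ^ 2 =
      Real.sin t ^ 2 - Real.sin φ ^ 2 * Real.sin t ^ 2 := by
    have h2 : Real.cos φ ^ 2 = 1 - Real.sin φ ^ 2 := by
      linarith [Real.sin_sq_add_cos_sq φ]
    rw [h2]
    ring
  rw [rr, Real.lt_sqrt hφ0, lt_div_iff₀ hs2, h1]
  constructor <;> intro h <;> linarith

theorem rr_nonneg (c c' t : ℝ) : 0 ≤ rr c c' t := Real.sqrt_nonneg _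

theorem rr_le_one (c c' t : ℝ) : rr c c' t ≤ 1 := by
  have hD : 0 ≤ c ^ 2 + c' ^ 2 - 2 * c * c' * Real.cos t := by
    have h1 := Real.cos_le_one t
    have h2 := Real.neg_one_le_cos t
    rcases le_total 0 (c * c') with h3 | h3
    · nlinarith [sq_nonneg (c - c'), mul_nonneg h3 (sub_nonneg.2 h1)]
    · nlinarith [sq_nonneg (c + c'), mul_nonneg (neg_nonneg.2 h3)
        (by linarith : (0 : ℝ) ≤ 1 + Real.cos t)]
  have h5 : (Real.sin t ^ 2 - (c ^ 2 + c' ^ 2 - 2 * c * c' * Real.cos t)) / Real.sin t ^ 2 ≤ 1 := by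
    refine div_le_one_of_le₀ ?_ (sq_nonneg _)
    linarith
  exact (Real.sqrt_le_sqrt h5).trans_eq Real.sqrt_one

private theorem vrep_measurable_rr (c c' : ℝ) : Measurable (rr c c') := by
  unfold rr
  fun_prop

open Classical in
private theorem vrep_pt {N e : E} {c c' θ : ℝ} (x : E) :
    (cap N c ∩ cap (pp N e θ) c').indicator (fun _ => (1 : ℝ≥0∞)) x =
      {p : ℝ × ℝ | c < p.1 ∧ c' < Real.cos θ * p.1 + Real.sin θ * p.2}.indicator
        (fun _ => (1 : ℝ≥0∞)) (inner ℝ x N, inner ℝ x e) := by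
  have h1 : inner ℝ x (pp N e θ) = Real.cos θ * inner ℝ x N + Real.sin θ * inner ℝ x e := by
    rw [pp, inner_add_right, real_inner_smul_right, real_inner_smul_right]
  have h2 : x ∈ cap N c ∩ cap (pp N e θ) c' ↔ (inner ℝ x N, inner ℝ x e) ∈
      {p : ℝ × ℝ | c < p.1 ∧ c' < Real.cos θ * p.1 + Real.sin θ * p.2} := by
    rw [Set.mem_inter_iff, cap, cap, Set.mem_ofPred_eq, Set.mem_ofPred_eq, h1]
    rfl
  by_cases h : x ∈ cap N c ∩ cap (pp N e θ) c'
  · rw [Set.indicator_of_mem h, Set.indicator_of_mem (h2.1 h)]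
  · rw [Set.indicator_of_notMem h, Set.indicator_of_notMem (fun h' => h (h2.2 h'))]

private theorem vrep_inner {c c' θ φ : ℝ} (hc : |c| < 1) (hc' : |c'| < 1) (hcc : 0 ≤ c + c')
    (hθ : 0 ≤ θ) (hθπ : θ ≤ Real.pi) (hφ : φ ∈ Set.Ioo 0 (Real.pi / 2)) (k : ℝ≥0∞) :
    ∫⁻ ψ in Set.Ioo (-Real.pi) Real.pi, k *
      {p : ℝ × ℝ | c < p.1 ∧ c' < Real.cos θ * p.1 + Real.sin θ * p.2}.indicator
        (fun _ => (1 : ℝ≥0∞)) (Real.cos φ * Real.cos ψ, Real.cos φ * Real.sin ψ) =
    ∫⁻ t in Set.Ioo θ Real.pi, k *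
      {q : ℝ × ℝ | Real.sin q.1 < rr c c' q.2}.indicator (fun _ => (1 : ℝ≥0∞)) (φ, t) := by
  have hr : 0 < Real.cos φ := Real.cos_pos_of_mem_Ioo ⟨by linarith [hφ.1, Real.pi_pos], hφ.2⟩
  have hm1 : MeasurableSet {ψ : ℝ | c < Real.cos φ * Real.cos ψ ∧
      c' < Real.cos φ * Real.cos (ψ - θ)} := by
    have f1 : Measurable fun ψ : ℝ => Real.cos φ * Real.cos ψ := by fun_prop
    have f2 : Measurable fun ψ : ℝ => Real.cos φ * Real.cos (ψ - θ) := by fun_prop
    exact (measurableSet_lt measurable_const f1).inter (measurableSet_lt measurable_const f2)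
  have hm2 : MeasurableSet {t : ℝ | c ^ 2 + c' ^ 2 - 2 * c * c' * Real.cos t <
      Real.cos φ ^ 2 * Real.sin t ^ 2} := measurableSet_lt (by fun_prop) (by fun_prop)
  have e1 : ∀ ψ : ℝ, {p : ℝ × ℝ | c < p.1 ∧ c' < Real.cos θ * p.1 + Real.sin θ * p.2}.indicator
        (fun _ => (1 : ℝ≥0∞)) (Real.cos φ * Real.cos ψ, Real.cos φ * Real.sin ψ) =
      {ψ : ℝ | c < Real.cos φ * Real.cos ψ ∧ c' < Real.cos φ * Real.cos (ψ - θ)}.indicator
        (fun _ => (1 : ℝ≥0∞)) ψ := by
    intro ψ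
    have h1 : Real.cos θ * (Real.cos φ * Real.cos ψ) + Real.sin θ * (Real.cos φ * Real.sin ψ) =
        Real.cos φ * Real.cos (ψ - θ) := by
      rw [Real.cos_sub]
      ring
    have h2 : (Real.cos φ * Real.cos ψ, Real.cos φ * Real.sin ψ) ∈
        {p : ℝ × ℝ | c < p.1 ∧ c' < Real.cos θ * p.1 + Real.sin θ * p.2} ↔
        ψ ∈ {ψ : ℝ | c < Real.cos φ * Real.cos ψ ∧ c' < Real.cos φ * Real.cos (ψ - θ)} := by
      rw [Set.mem_ofPred_eq, Set.mem_ofPred_eq, h1]
    by_cases h : ψ ∈ {ψ : ℝ | c < Real.cos φ * Real.cos ψ ∧ c' < Real.cos φ * Real.cos (ψ - θ)}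
    · rw [Set.indicator_of_mem h, Set.indicator_of_mem (h2.2 h)]
    · rw [Set.indicator_of_notMem h, Set.indicator_of_notMem (fun h' => h (h2.1 h'))]
  have e2 : ∀ t ∈ Set.Ioo θ Real.pi,
      {q : ℝ × ℝ | Real.sin q.1 < rr c c' q.2}.indicator (fun _ => (1 : ℝ≥0∞)) (φ, t) =
      {t : ℝ | c ^ 2 + c' ^ 2 - 2 * c * c' * Real.cos t <
        Real.cos φ ^ 2 * Real.sin t ^ 2}.indicator (fun _ => (1 : ℝ≥0∞)) t := by
    intro t ht
    have h1 : t ∈ Set.Ioo 0 Real.pi := ⟨hθ.trans_lt ht.1, ht.2⟩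
    have h2 := rr_iff (c := c) (c' := c') h1 hφ
    by_cases h : t ∈ {t : ℝ | c ^ 2 + c' ^ 2 - 2 * c * c' * Real.cos t <
        Real.cos φ ^ 2 * Real.sin t ^ 2}
    · have h3 : (φ, t) ∈ {q : ℝ × ℝ | Real.sin q.1 < rr c c' q.2} := h2.1 h
      rw [Set.indicator_of_mem h, Set.indicator_of_mem h3]
    · have h3 : (φ, t) ∉ {q : ℝ × ℝ | Real.sin q.1 < rr c c' q.2} := fun h' => h (h2.2 h')
      rw [Set.indicator_of_notMem h, Set.indicator_of_notMem h3]
  have e3 : ∫⁻ ψ in Set.Ioo (-Real.pi) Real.pi,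
      {p : ℝ × ℝ | c < p.1 ∧ c' < Real.cos θ * p.1 + Real.sin θ * p.2}.indicator
        (fun _ => (1 : ℝ≥0∞)) (Real.cos φ * Real.cos ψ, Real.cos φ * Real.sin ψ) =
      volume {ψ : ℝ | ψ ∈ Set.Ioo (-Real.pi) Real.pi ∧ c < Real.cos φ * Real.cos ψ ∧
        c' < Real.cos φ * Real.cos (ψ - θ)} := by
    simp only [e1]
    rw [lintegral_indicator_const hm1, one_mul, Measure.restrict_apply hm1, Set.inter_comm]
    rfl
  have e4 : ∫⁻ t in Set.Ioo θ Real.pi,
      {q : ℝ × ℝ | Real.sin q.1 < rr c c' q.2}.indicator (fun _ => (1 : ℝ≥0∞)) (φ, t) =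
      volume {t : ℝ | t ∈ Set.Ioo θ Real.pi ∧
        c ^ 2 + c' ^ 2 - 2 * c * c' * Real.cos t < Real.cos φ ^ 2 * Real.sin t ^ 2} := by
    rw [setLIntegral_congr_fun measurableSet_Ioo e2]
    rw [lintegral_indicator_const hm2, one_mul, Measure.restrict_apply hm2, Set.inter_comm]
    rfl
  have hmG : Measurable fun ψ : ℝ =>
      {p : ℝ × ℝ | c < p.1 ∧ c' < Real.cos θ * p.1 + Real.sin θ * p.2}.indicator
        (fun _ => (1 : ℝ≥0∞)) (Real.cos φ * Real.cos ψ, Real.cos φ * Real.sin ψ) := by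
    simp only [e1]
    exact measurable_const.indicator hm1
  have hmH : Measurable fun t : ℝ =>
      {q : ℝ × ℝ | Real.sin q.1 < rr c c' q.2}.indicator (fun _ => (1 : ℝ≥0∞)) (φ, t) := by
    have h1 : MeasurableSet {t : ℝ | Real.sin φ < rr c c' t} :=
      measurableSet_lt measurable_const (vrep_measurable_rr c c')
    have h2 : (fun t : ℝ => {q : ℝ × ℝ | Real.sin q.1 < rr c c' q.2}.indicator
        (fun _ => (1 : ℝ≥0∞)) (φ, t)) = {t : ℝ | Real.sin φ < rr c c' t}.indicator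
        (fun _ => (1 : ℝ≥0∞)) := by
      funext t
      by_cases h : t ∈ {t : ℝ | Real.sin φ < rr c c' t}
      · have h3 : (φ, t) ∈ {q : ℝ × ℝ | Real.sin q.1 < rr c c' q.2} := h
        rw [Set.indicator_of_mem h, Set.indicator_of_mem h3]
      · have h3 : (φ, t) ∉ {q : ℝ × ℝ | Real.sin q.1 < rr c c' q.2} := h
        rw [Set.indicator_of_notMem h, Set.indicator_of_notMem h3]
    rw [h2]
    exact measurable_const.indicator h1
  rw [lintegral_const_mul _ hmG, lintegral_const_mul _ hmH, e3, e4,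
    slice hc hc' hcc hr hθ hθπ]

theorem V_rep (hn : 3 ≤ finrank ℝ E) {N e : E} (hN : ‖N‖ = 1) (he : ‖e‖ = 1) (hNe : inner ℝ N e = (0:ℝ)) :
    ∃ C : ℝ≥0∞, C ≠ ⊤ ∧ ∀ c c' θ : ℝ, |c| < 1 → |c'| < 1 → 0 ≤ c + c' → 0 ≤ θ → θ ≤ Real.pi →
      om E (cap N c ∩ cap (pp N e θ) c') =
        C * ∫⁻ t in Set.Ioo θ Real.pi, ENNReal.ofReal (rr c c' t ^ (finrank ℝ E - 2)) := by
  obtain ⟨C, hC, hG⟩ := join hn hN he hNe
  refine ⟨C * ENNReal.ofReal (1 / ((finrank ℝ E - 2 : ℕ) : ℝ)),
    ENNReal.mul_ne_top hC ENNReal.ofReal_ne_top, ?_⟩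
  intro c c' θ hc hc' hcc hθ hθπ
  have hmS : MeasurableSet {p : ℝ × ℝ | c < p.1 ∧ c' < Real.cos θ * p.1 + Real.sin θ * p.2} := by
    have f2 : Measurable fun p : ℝ × ℝ => Real.cos θ * p.1 + Real.sin θ * p.2 := by fun_prop
    exact (measurableSet_lt measurable_const measurable_fst).inter
      (measurableSet_lt measurable_const f2)
  have h1 := hG ({p : ℝ × ℝ | c < p.1 ∧ c' < Real.cos θ * p.1 + Real.sin θ * p.2}.indicator
    (fun _ => (1 : ℝ≥0∞))) (measurable_const.indicator hmS)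
  have h2 : om E (cap N c ∩ cap (pp N e θ) c') = ∫⁻ x,
      {p : ℝ × ℝ | c < p.1 ∧ c' < Real.cos θ * p.1 + Real.sin θ * p.2}.indicator
        (fun _ => (1 : ℝ≥0∞)) (inner ℝ x N, inner ℝ x e) ∂(om E) := by
    have hm : MeasurableSet (cap N c ∩ cap (pp N e θ) c') :=
      (measurableSet_cap N c).inter (measurableSet_cap _ c')
    simp only [← vrep_pt]
    rw [lintegral_indicator_const hm, one_mul]
  rw [h2, h1, mul_assoc]
  congr 1
  have h3 : ∫⁻ φ in Set.Ioo 0 (Real.pi / 2), (∫⁻ ψ in Set.Ioo (-Real.pi) Real.pi,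
      ENNReal.ofReal (Real.cos φ * Real.sin φ ^ (finrank ℝ E - 3)) *
        {p : ℝ × ℝ | c < p.1 ∧ c' < Real.cos θ * p.1 + Real.sin θ * p.2}.indicator
          (fun _ => (1 : ℝ≥0∞)) (Real.cos φ * Real.cos ψ, Real.cos φ * Real.sin ψ)) =
      ∫⁻ φ in Set.Ioo 0 (Real.pi / 2), ∫⁻ t in Set.Ioo θ Real.pi,
        ENNReal.ofReal (Real.cos φ * Real.sin φ ^ (finrank ℝ E - 3)) *
        {q : ℝ × ℝ | Real.sin q.1 < rr c c' q.2}.indicator (fun _ => (1 : ℝ≥0∞)) (φ, t) :=
    setLIntegral_congr_fun measurableSet_Ioo fun φ hφ => vrep_inner hc hc' hcc hθ hθπ hφ _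
  have hmR : MeasurableSet {q : ℝ × ℝ | Real.sin q.1 < rr c c' q.2} :=
    measurableSet_lt (by fun_prop) ((vrep_measurable_rr c c').comp measurable_snd)
  rw [h3, lintegral_lintegral_swap]
  swap
  · refine Measurable.aemeasurable ?_
    refine Measurable.mul ?_ ?_
    · exact (ENNReal.measurable_ofReal.comp (by fun_prop :
        Measurable fun q : ℝ × ℝ => Real.cos q.1 * Real.sin q.1 ^ (finrank ℝ E - 3)))
    · exact measurable_const.indicator hmR
  have h4 : ∀ t ∈ Set.Ioo θ Real.pi, ∫⁻ φ in Set.Ioo 0 (Real.pi / 2),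
      ENNReal.ofReal (Real.cos φ * Real.sin φ ^ (finrank ℝ E - 3)) *
        {q : ℝ × ℝ | Real.sin q.1 < rr c c' q.2}.indicator (fun _ => (1 : ℝ≥0∞)) (φ, t) =
      ENNReal.ofReal (1 / ((finrank ℝ E - 2 : ℕ) : ℝ)) *
        ENNReal.ofReal (rr c c' t ^ (finrank ℝ E - 2)) := by
    intro t _
    have hmT : MeasurableSet {φ : ℝ | Real.sin φ < rr c c' t} :=
      measurableSet_lt (by fun_prop) measurable_const
    have e1 : ∀ φ : ℝ, ENNReal.ofReal (Real.cos φ * Real.sin φ ^ (finrank ℝ E - 3)) *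
        {q : ℝ × ℝ | Real.sin q.1 < rr c c' q.2}.indicator (fun _ => (1 : ℝ≥0∞)) (φ, t) =
        {φ : ℝ | Real.sin φ < rr c c' t}.indicator (fun φ =>
          ENNReal.ofReal (Real.cos φ * Real.sin φ ^ (finrank ℝ E - 2 - 1))) φ := by
      intro φ
      rw [show finrank ℝ E - 3 = finrank ℝ E - 2 - 1 by omega]
      by_cases h : φ ∈ {φ : ℝ | Real.sin φ < rr c c' t}
      · have h5 : (φ, t) ∈ {q : ℝ × ℝ | Real.sin q.1 < rr c c' q.2} := h
        rw [Set.indicator_of_mem h, Set.indicator_of_mem h5, mul_one]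
      · have h5 : (φ, t) ∉ {q : ℝ × ℝ | Real.sin q.1 < rr c c' q.2} := h
        rw [Set.indicator_of_notMem h, Set.indicator_of_notMem h5, mul_zero]
    simp only [e1]
    rw [lintegral_indicator hmT, Measure.restrict_restrict hmT, Set.inter_comm]
    have h6 := phiint (finrank ℝ E - 2) (by omega) (rr_nonneg c c' t) (rr_le_one c c' t)
    have h7 : Set.Ioo 0 (Real.pi / 2) ∩ {φ : ℝ | Real.sin φ < rr c c' t} =
        {φ : ℝ | φ ∈ Set.Ioo 0 (Real.pi / 2) ∧ Real.sin φ < rr c c' t} := rfl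
    rw [h7, h6, ← ENNReal.ofReal_mul (by positivity)]
    congr 1
    ring
  rw [setLIntegral_congr_fun measurableSet_Ioo h4]
  rw [lintegral_const_mul]
  exact ENNReal.measurable_ofReal.comp ((vrep_measurable_rr c c').pow_const _)

end RC
end

section

/-!
# RC constant factor: shape of the intersection measure of two caps (medium)

`n = finrank ≥ 3`, `k = n - 2`, `α = arccos c`, `β = arccos c'`, `a = |α - β|`, `b = α + β`, `0 ≤ a < b ≤ π` (`arccos_add_le`, file Conc).
`V θ = C * ∫ t in (max θ a)..b, rr c c' t ^ k`, where `C` (`toReal`) is the constant of `V_rep`. For `θ` in `[0,b]`: the integral over `(θ,π)` in `V_rep` is the integral over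
`(max θ a, b)`, since `rr = 0` on `(0,π)` outside `(a,b)` (`rr_zero`; `k ≥ 1`, so `0^k = 0`); for `θ ≥ b` it is zero. `rr^k` is continuous on `(a,b)` (a concave function on an open interval, `rr_concave`; or directly) and between `0` and `1`
(`rr_nonneg`, `rr_le_one`), so integrable (`ofReal_integral_eq_lintegral_ofReal`). `tail_concave` says that `θ ↦ (∫ t in θ..b, rr^k)^(1/(k+1))` is concave on `[a,b]`; it is antitone there, and `θ ↦ max θ a` is convex with values in `[a,b]`,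
so the composition is concave on `[0,b]`; the factor `C^(1/(k+1))` does not matter. `((n - 1 : ℕ) : ℝ) = k + 1`.
-/

set_option autoImplicit false

open MeasureTheory Module
open scoped ENNReal NNReal

namespace RC

variable {E : Type*} [NormedAddCommGroup E] [InnerProductSpace ℝ E] [MeasurableSpace E]
  [BorelSpace E] [FiniteDimensional ℝ E]

private theorem meas_rrk (c c' : ℝ) (k : ℕ) : Measurable fun t => rr c c' t ^ k := by
  unfold rr
  fun_prop

private theorem rrk_mem (c c' t : ℝ) (k : ℕ) : 0 ≤ rr c c' t ^ k ∧ rr c c' t ^ k ≤ 1 :=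
  ⟨pow_nonneg (rr_nonneg c c' t) k, pow_le_one₀ (rr_nonneg c c' t) (rr_le_one c c' t)⟩

private theorem ii_rrk (c c' : ℝ) (k : ℕ) (x y : ℝ) :
    IntervalIntegrable (fun t => rr c c' t ^ k) volume x y := by
  refine (intervalIntegrable_const (c := (1 : ℝ))).mono_fun
    (meas_rrk c c' k).aestronglyMeasurable ?_
  refine Filter.Eventually.of_forall fun t => ?_
  have h := rrk_mem c c' t k
  show ‖rr c c' t ^ k‖ ≤ ‖(1 : ℝ)‖
  rw [Real.norm_of_nonneg h.1, norm_one]
  exact h.2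

private theorem lint_rrk (c c' : ℝ) (k : ℕ) {x y : ℝ} (hxy : x ≤ y) :
    ∫⁻ t in Set.Ioo x y, ENNReal.ofReal (rr c c' t ^ k) =
      ENNReal.ofReal (∫ t in x..y, rr c c' t ^ k) := by
  have h1 : IntegrableOn (fun t => rr c c' t ^ k) (Set.Ioo x y) volume :=
    ((ii_rrk c c' k x y).1).mono_set Set.Ioo_subset_Ioc_self
  rw [intervalIntegral.integral_of_le hxy, integral_Ioc_eq_integral_Ioo,
    ofReal_integral_eq_lintegral_ofReal h1 (Filter.Eventually.of_forall fun t =>
      (rrk_mem c c' t k).1)]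

private theorem anti_rrk (c c' : ℝ) (k : ℕ) {x y b : ℝ} (hxy : x ≤ y) :
    ∫ t in y..b, rr c c' t ^ k ≤ ∫ t in x..b, rr c c' t ^ k := by
  rw [← intervalIntegral.integral_add_adjacent_intervals (ii_rrk c c' k x y) (ii_rrk c c' k y b)]
  have h : 0 ≤ ∫ t in x..y, rr c c' t ^ k :=
    intervalIntegral.integral_nonneg hxy fun t _ => (rrk_mem c c' t k).1
  linarith

theorem V_shape (hn : 3 ≤ finrank ℝ E) {N e : E} (hN : ‖N‖ = 1) (he : ‖e‖ = 1) (hNe : inner ℝ N e = (0:ℝ))
    {c c' : ℝ} (hc : |c| < 1) (hc' : |c'| < 1) (hcc : 0 ≤ c + c') :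
    ∃ (V : ℝ → ℝ) (b : ℝ), 0 < b ∧ b ≤ Real.pi ∧ (∀ θ ∈ Set.Icc 0 b, 0 ≤ V θ) ∧ AntitoneOn V (Set.Icc 0 b) ∧
      ConcaveOn ℝ (Set.Icc 0 b) (fun θ => V θ ^ (1 / ((finrank ℝ E - 1 : ℕ) : ℝ))) ∧
      (∀ θ ∈ Set.Icc 0 b, om E (cap N c ∩ cap (pp N e θ) c') = ENNReal.ofReal (V θ)) ∧
      (∀ θ ∈ Set.Icc b Real.pi, om E (cap N c ∩ cap (pp N e θ) c') = 0) := by
  obtain ⟨C, hC, hrep⟩ := V_rep hn hN he hNe
  obtain ⟨k, hk⟩ : ∃ k, finrank ℝ E - 2 = k := ⟨_, rfl⟩
  have hk1 : 1 ≤ k := by omega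
  have hk2 : ((finrank ℝ E - 1 : ℕ) : ℝ) = (k : ℝ) + 1 := by
    have : finrank ℝ E - 1 = k + 1 := by omega
    rw [this]
    push_cast
    rfl
  have hα : 0 < Real.arccos c := Real.arccos_pos.2 (abs_lt.1 hc).2
  have hβ : 0 < Real.arccos c' := Real.arccos_pos.2 (abs_lt.1 hc').2
  set a := |Real.arccos c - Real.arccos c'| with ha
  set b := Real.arccos c + Real.arccos c' with hb
  have hbpi : b ≤ Real.pi := arccos_add_le hc hc' hcc
  have hb0 : 0 < b := by positivity
  have ha0 : 0 ≤ a := abs_nonneg _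
  have hab : a < b := by
    rw [ha, abs_lt]
    constructor <;> linarith
  have hz : ∀ t ∈ Set.Ioo 0 Real.pi, t ∉ Set.Ioo a b → ENNReal.ofReal (rr c c' t ^ k) = 0 := by
    intro t ht hI
    rw [rr_zero hc hc' hcc ht hI, zero_pow (by omega), ENNReal.ofReal_zero]
  have hconc := tail_concave k hab (rr c c') (rr_concave hc hc' hcc)
    (fun t _ => rr_nonneg c c' t) (fun t _ => rr_le_one c c' t)
  have hCr : 0 ≤ C.toReal := ENNReal.toReal_nonneg
  have hGn : ∀ x, x ≤ b → 0 ≤ ∫ t in x..b, rr c c' t ^ k := fun x hx =>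
    intervalIntegral.integral_nonneg hx fun t _ => (rrk_mem c c' t k).1
  have hmx : ∀ θ ∈ Set.Icc 0 b, max θ a ∈ Set.Icc a b := fun θ hθ =>
    ⟨le_max_right _ _, max_le hθ.2 hab.le⟩
  refine ⟨fun θ => C.toReal * ∫ t in (max θ a)..b, rr c c' t ^ k, b, hb0, hbpi, ?_, ?_, ?_, ?_, ?_⟩
  · intro θ hθ
    exact mul_nonneg hCr (hGn _ (hmx θ hθ).2)
  · intro x _ y _ hxy
    exact mul_le_mul_of_nonneg_left (anti_rrk c c' k (max_le_max hxy le_rfl)) hCr
  · rw [hk2]
    have hp : (0 : ℝ) ≤ 1 / ((k : ℝ) + 1) := by positivity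
    refine ⟨convex_Icc 0 b, ?_⟩
    intro x hx y hy s t hs ht hst
    have hxy : s • x + t • y ∈ Set.Icc 0 b := (convex_Icc 0 b) hx hy hs ht hst
    have hmxy : s • max x a + t • max y a ∈ Set.Icc a b :=
      (convex_Icc a b) (hmx x hx) (hmx y hy) hs ht hst
    have h1 : max (s • x + t • y) a ≤ s • max x a + t • max y a := by
      refine max_le ?_ hmxy.1
      simp only [smul_eq_mul]
      exact add_le_add (mul_le_mul_of_nonneg_left (le_max_left _ _) hs)
        (mul_le_mul_of_nonneg_left (le_max_left _ _) ht)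
    have h2 := hconc.2 (hmx x hx) (hmx y hy) hs ht hst
    have h3 : (∫ u in (s • max x a + t • max y a)..b, rr c c' u ^ k) ^ (1 / ((k : ℝ) + 1)) ≤
        (∫ u in (max (s • x + t • y) a)..b, rr c c' u ^ k) ^ (1 / ((k : ℝ) + 1)) :=
      Real.rpow_le_rpow (hGn _ hmxy.2) (anti_rrk c c' k h1) hp
    have h4 : ∀ z ∈ Set.Icc 0 b, (C.toReal * ∫ u in (max z a)..b, rr c c' u ^ k) ^
        (1 / ((k : ℝ) + 1)) = C.toReal ^ (1 / ((k : ℝ) + 1)) *
          (∫ u in (max z a)..b, rr c c' u ^ k) ^ (1 / ((k : ℝ) + 1)) := fun z hz' =>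
      Real.mul_rpow hCr (hGn _ (hmx z hz').2)
    simp only [h4 x hx, h4 y hy, h4 _ hxy]
    have h5 : 0 ≤ C.toReal ^ (1 / ((k : ℝ) + 1)) := Real.rpow_nonneg hCr _
    have h6 := mul_le_mul_of_nonneg_left (h2.trans h3) h5
    refine le_trans (le_of_eq ?_) h6
    simp only [smul_eq_mul]
    ring
  · intro θ hθ
    rw [hrep c c' θ hc hc' hcc hθ.1 (hθ.2.trans hbpi), hk]
    have h1 : ∫⁻ t in Set.Ioo θ Real.pi, ENNReal.ofReal (rr c c' t ^ k) =
        ∫⁻ t in Set.Ioo (max θ a) b, ENNReal.ofReal (rr c c' t ^ k) := by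
      rw [← lintegral_indicator measurableSet_Ioo, ← lintegral_indicator measurableSet_Ioo]
      congr 1
      funext t
      by_cases h : t ∈ Set.Ioo (max θ a) b
      · rw [Set.indicator_of_mem h, Set.indicator_of_mem]
        exact ⟨(le_max_left _ _).trans_lt h.1, h.2.trans_le hbpi⟩
      · rw [Set.indicator_of_notMem h]
        by_cases h' : t ∈ Set.Ioo θ Real.pi
        · rw [Set.indicator_of_mem h']
          refine hz t ⟨hθ.1.trans_lt h'.1, h'.2⟩ fun h'' => h ⟨max_lt h'.1 h''.1, h''.2⟩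
        · rw [Set.indicator_of_notMem h']
    rw [h1, lint_rrk c c' k (hmx θ hθ).2, ENNReal.ofReal_mul hCr, ENNReal.ofReal_toReal hC]
  · intro θ hθ
    rw [hrep c c' θ hc hc' hcc (hb0.le.trans hθ.1) hθ.2, hk]
    have h1 : ∫⁻ t in Set.Ioo θ Real.pi, ENNReal.ofReal (rr c c' t ^ k) = 0 := by
      rw [← lintegral_indicator measurableSet_Ioo]
      refine (lintegral_congr fun t => ?_).trans lintegral_zero
      by_cases h' : t ∈ Set.Ioo θ Real.pi
      · rw [Set.indicator_of_mem h']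
        refine hz t ⟨(hb0.le.trans hθ.1).trans_lt h'.1, h'.2⟩ fun h'' => ?_
        exact absurd (hθ.1.trans h'.1.le) (not_le.2 h''.2)
      · rw [Set.indicator_of_notMem h']
    rw [h1, mul_zero]

end RC
end
end
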