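import Mathlib
import Pool.Agent.Lib.MP_91315a_an.Level
import Pool.Agent.Lib.MP_91315a_an.K.Defs
import Pool.Agent.Lib.MP_91315a_an.Trunc2
import Pool.Agent.Lib.MP_91315a_an.K.Shape

section

section

/-!
# RC constant factor: the distribution of one coordinate (medium)

`n = finrank`. Let `F y = H (⟪y,N⟫/‖y‖) * 1_{‖y‖ < 1}`. By `polar` (file CVb) and `om_norm`, `∫ F = (∫ r in (0,1), r^(n-1)) * ∫ H ⟪x,N⟫ dom = (1/n) ∫ H ⟪x,N⟫ dom`.
On the other hand choose an orthonormal basis `b : OrthonormalBasis (Fin n) ℝ E` with `b 0 = N` (for example `exists_orthonormalBasis_extension_of_card_eq` for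
`v : Fin n → E`, `v 0 = N`, restricted to `{0}`); `b.measurePreserving_repr`, `EuclideanSpace.volume_preserving_symm_measurableEquiv_toLp` (or the name of this kind in the present Mathlib),
`MeasureTheory.volume_preserving_piFinSuccAbove` give `∫ F = ∫ s : ℝ, ∫ y : Fin (n-1) → ℝ, F (s, y)`, where `F (s,y) = H (s/R) 1_{R<1}`, `R = √(s² + Σ y_i²)`.
The inner integral is, again by `polar` for `EuclideanSpace ℝ (Fin (n-1))` (dimension `n-1 ≥ 1`), `C' ∫ ρ in Ioi 0, ρ^(n-2) H (s/√(s²+ρ²)) 1_{s²+ρ²<1}`, `C' = om univ < ⊤`. Polar coordinates in the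
plane (`lintegral_comp_polarCoord_symm`) `ρ = R cos a`, `s = R sin a` (the half plane `ρ > 0` is `a` in `(-π/2, π/2)`): `C' ∫ R in (0,1), R^(n-1) ∫ a in (-π/2,π/2), cos^(n-2) a H (sin a)`. So `C = C'`.
Any other proof is welcome (e.g. with another radial weight).
-/

set_option autoImplicit false

open MeasureTheory Module
open scoped ENNReal NNReal

namespace RC

variable {E : Type*} [NormedAddCommGroup E] [InnerProductSpace ℝ E] [MeasurableSpace E]
  [BorelSpace E] [FiniteDimensional ℝ E]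

omit [MeasurableSpace E] [BorelSpace E] in
/-- orthogonal coordinates: the coordinate along `N` and the rest -/
private theorem marg_iso {N : E} (hN : ‖N‖ = 1) (hn : 2 ≤ finrank ℝ E) :
    ∃ e : E ≃ₗᵢ[ℝ] WithLp 2 (ℝ × EuclideanSpace ℝ (Fin (finrank ℝ E - 1))),
      e N = WithLp.toLp 2 (1, 0) := by
  have hm : finrank ℝ (ℝ ∙ N)ᗮ = finrank ℝ E - 1 := by
    have h1 := Submodule.finrank_add_finrank_orthogonal (𝕜 := ℝ) (ℝ ∙ N)
    have h2 : finrank ℝ (ℝ ∙ N) = 1 := by
      apply finrank_span_singleton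
      intro h
      rw [h, norm_zero] at hN
      norm_num at hN
    omega
  let e3 : (ℝ ∙ N)ᗮ ≃ₗᵢ[ℝ] EuclideanSpace ℝ (Fin (finrank ℝ E - 1)) :=
    ((stdOrthonormalBasis ℝ (ℝ ∙ N)ᗮ).reindex (finCongr hm)).repr
  let e2 : (ℝ ∙ N) ≃ₗᵢ[ℝ] ℝ := (LinearIsometryEquiv.toSpanUnitSingleton N hN).symm
  refine ⟨(Submodule.orthogonalDecomposition (ℝ ∙ N)).trans
    (LinearIsometryEquiv.withLpProdCongr 2 e2 e3), ?_⟩
  have hmem : N ∈ (ℝ ∙ N) := Submodule.mem_span_singleton_self N
  rw [LinearIsometryEquiv.trans_apply, Submodule.orthogonalDecomposition_apply,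
    LinearIsometryEquiv.withLpProdCongr_apply]
  have h1 : (ℝ ∙ N).orthogonalProjectionOnto N = ⟨N, hmem⟩ :=
    Submodule.orthogonalProjectionOnto_mem_subspace_eq_self (⟨N, hmem⟩ : (ℝ ∙ N))
  have h2 : (ℝ ∙ N)ᗮ.orthogonalProjectionOnto N = 0 :=
    Submodule.orthogonalProjectionOnto_orthogonalComplement_singleton_eq_zero N
  have h3 : e2 ⟨N, hmem⟩ = 1 := by
    have h4 : (⟨N, hmem⟩ : (ℝ ∙ N)) = LinearIsometryEquiv.toSpanUnitSingleton (𝕜 := ℝ) N hN 1 := by
      rw [LinearIsometryEquiv.toSpanUnitSingleton_apply]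
      exact Subtype.ext (one_smul ℝ N).symm
    rw [h4]
    exact LinearIsometryEquiv.symm_apply_apply _ _
  simp only [h1, h2]
  simp [h3]

private theorem marg_split {N : E} (hN : ‖N‖ = 1) (hn : 2 ≤ finrank ℝ E) (G : ℝ → ℝ → ℝ≥0∞)
    (hG : Measurable (Function.uncurry G)) :
    ∫⁻ y : E, G (inner ℝ y N) ‖y‖ =
      om (EuclideanSpace ℝ (Fin (finrank ℝ E - 1))) Set.univ *
        ∫⁻ s : ℝ, ∫⁻ r in Set.Ioi (0 : ℝ), ENNReal.ofReal (r ^ (finrank ℝ E - 2)) *
          G s (Real.sqrt (s ^ 2 + r ^ 2)) := by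
  obtain ⟨e, he⟩ := marg_iso hN hn
  have hmp : MeasurePreserving
      (fun p : ℝ × EuclideanSpace ℝ (Fin (finrank ℝ E - 1)) => e.symm (WithLp.toLp 2 p)) :=
    e.symm.measurePreserving.comp
      (WithLp.volume_preserving_toLp ℝ (EuclideanSpace ℝ (Fin (finrank ℝ E - 1))))
  have hm1 : Measurable fun y : E => G (inner ℝ y N) ‖y‖ :=
    hG.comp ((continuous_id.inner continuous_const).measurable.prodMk measurable_norm)
  rw [← hmp.lintegral_comp hm1]
  have hval : ∀ p : ℝ × EuclideanSpace ℝ (Fin (finrank ℝ E - 1)),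
      G (inner ℝ (e.symm (WithLp.toLp 2 p)) N) ‖e.symm (WithLp.toLp 2 p)‖ =
        G p.1 (Real.sqrt (p.1 ^ 2 + ‖p.2‖ ^ 2)) := by
    intro p
    congr 1
    · rw [← e.inner_map_map, e.apply_symm_apply, he, WithLp.prod_inner_apply]
      simp
    · rw [e.symm.norm_map, WithLp.prod_norm_eq_of_L2]
      simp
  simp only [hval]
  have hm2 : Measurable fun p : ℝ × EuclideanSpace ℝ (Fin (finrank ℝ E - 1)) =>
      G p.1 (Real.sqrt (p.1 ^ 2 + ‖p.2‖ ^ 2)) := by
    refine hG.comp (measurable_fst.prodMk ?_)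
    fun_prop
  rw [Measure.volume_eq_prod, lintegral_prod _ hm2.aemeasurable, ← lintegral_const_mul']
  · refine lintegral_congr fun s => ?_
    have hm3 : Measurable fun v : EuclideanSpace ℝ (Fin (finrank ℝ E - 1)) =>
        G s (Real.sqrt (s ^ 2 + ‖v‖ ^ 2)) := by
      refine hG.comp (measurable_const.prodMk ?_)
      fun_prop
    have hfr : finrank ℝ (EuclideanSpace ℝ (Fin (finrank ℝ E - 1))) = finrank ℝ E - 1 :=
      finrank_euclideanSpace_fin
    have hpol := polar (E := EuclideanSpace ℝ (Fin (finrank ℝ E - 1))) (by omega) _ hm3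
    simp only
    rw [hpol]
    have h1 : ∀ᵐ x ∂(om (EuclideanSpace ℝ (Fin (finrank ℝ E - 1)))),
        (∫⁻ r in Set.Ioi (0 : ℝ), ENNReal.ofReal
          (r ^ (finrank ℝ (EuclideanSpace ℝ (Fin (finrank ℝ E - 1))) - 1)) *
          G s (Real.sqrt (s ^ 2 + ‖r • x‖ ^ 2))) =
        ∫⁻ r in Set.Ioi (0 : ℝ), ENNReal.ofReal (r ^ (finrank ℝ E - 2)) *
          G s (Real.sqrt (s ^ 2 + r ^ 2)) := by
      filter_upwards [om_norm] with x hx
      refine lintegral_congr fun r => ?_
      rw [norm_smul, hx, mul_one, Real.norm_eq_abs, sq_abs, hfr]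
      congr 3
    rw [lintegral_congr_ae h1, lintegral_const, mul_comm]
  · exact measure_ne_top _ _

private theorem marg_plane (n : ℕ) (hn : 2 ≤ n) (w H : ℝ → ℝ≥0∞) (hw : Measurable w)
    (hH : Measurable H) :
    ∫⁻ s : ℝ, ∫⁻ r in Set.Ioi (0 : ℝ), ENNReal.ofReal (r ^ (n - 2)) *
        (w (Real.sqrt (s ^ 2 + r ^ 2)) * H (s / Real.sqrt (s ^ 2 + r ^ 2))) =
      (∫⁻ R in Set.Ioi (0 : ℝ), ENNReal.ofReal (R ^ (n - 1)) * w R) *
        ∫⁻ a in Set.Ioo (-(Real.pi / 2)) (Real.pi / 2),
          ENNReal.ofReal (Real.cos a ^ (n - 2)) * H (Real.sin a) := by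
  have hg : Measurable fun p : ℝ × ℝ => ENNReal.ofReal (p.1 ^ (n - 2)) *
      (w (Real.sqrt (p.2 ^ 2 + p.1 ^ 2)) * H (p.2 / Real.sqrt (p.2 ^ 2 + p.1 ^ 2))) := by
    have h1 : Measurable fun p : ℝ × ℝ => Real.sqrt (p.2 ^ 2 + p.1 ^ 2) := by fun_prop
    exact ((measurable_fst.pow_const _).ennreal_ofReal).mul
      ((hw.comp h1).mul (hH.comp (measurable_snd.div h1)))
  have hS : MeasurableSet {p : ℝ × ℝ | 0 < p.1} := measurableSet_lt measurable_const measurable_fst
  have hf := hg.indicator hS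
  have h1 : ∫⁻ s : ℝ, ∫⁻ r in Set.Ioi (0 : ℝ), ENNReal.ofReal (r ^ (n - 2)) *
        (w (Real.sqrt (s ^ 2 + r ^ 2)) * H (s / Real.sqrt (s ^ 2 + r ^ 2))) =
      ∫⁻ p : ℝ × ℝ, {p : ℝ × ℝ | 0 < p.1}.indicator (fun p : ℝ × ℝ => ENNReal.ofReal (p.1 ^ (n - 2)) *
      (w (Real.sqrt (p.2 ^ 2 + p.1 ^ 2)) * H (p.2 / Real.sqrt (p.2 ^ 2 + p.1 ^ 2)))) p := by
    rw [Measure.volume_eq_prod, lintegral_prod_symm _ hf.aemeasurable]
    refine lintegral_congr fun s => ?_
    rw [← lintegral_indicator measurableSet_Ioi]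
    refine lintegral_congr fun r => ?_
    by_cases hr : 0 < r
    · rw [Set.indicator_of_mem (show r ∈ Set.Ioi (0 : ℝ) from hr),
        Set.indicator_of_mem (show (r, s) ∈ {p : ℝ × ℝ | 0 < p.1} from hr)]
    · rw [Set.indicator_of_notMem (show r ∉ Set.Ioi (0 : ℝ) from hr),
        Set.indicator_of_notMem (show (r, s) ∉ {p : ℝ × ℝ | 0 < p.1} from hr)]
  rw [h1, ← lintegral_comp_polarCoord_symm]
  have h2 : ∀ p ∈ polarCoord.target, ENNReal.ofReal p.1 •
      {p : ℝ × ℝ | 0 < p.1}.indicator (fun p : ℝ × ℝ => ENNReal.ofReal (p.1 ^ (n - 2)) *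
        (w (Real.sqrt (p.2 ^ 2 + p.1 ^ 2)) * H (p.2 / Real.sqrt (p.2 ^ 2 + p.1 ^ 2))))
        (polarCoord.symm p) =
      (ENNReal.ofReal (p.1 ^ (n - 1)) * w p.1) *
        {a : ℝ | 0 < Real.cos a}.indicator
          (fun a => ENNReal.ofReal (Real.cos a ^ (n - 2)) * H (Real.sin a)) p.2 := by
    intro p hp
    have hR : 0 < p.1 := by
      have := hp
      simp only [polarCoord_target, Set.mem_prod, Set.mem_Ioi] at this
      exact this.1
    rw [polarCoord_symm_apply]
    by_cases hc : 0 < Real.cos p.2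
    · rw [Set.indicator_of_mem
        (show (p.1 * Real.cos p.2, p.1 * Real.sin p.2) ∈ {p : ℝ × ℝ | 0 < p.1} from mul_pos hR hc),
        Set.indicator_of_mem (show p.2 ∈ {a : ℝ | 0 < Real.cos a} from hc)]
      have h3 : Real.sqrt ((p.1 * Real.sin p.2) ^ 2 + (p.1 * Real.cos p.2) ^ 2) = p.1 := by
        have : (p.1 * Real.sin p.2) ^ 2 + (p.1 * Real.cos p.2) ^ 2 = p.1 ^ 2 := by
          have h4 := Real.sin_sq_add_cos_sq p.2
          nlinarith [h4]
        rw [this, Real.sqrt_sq hR.le]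
      simp only [h3]
      have h5 : p.1 * Real.sin p.2 / p.1 = Real.sin p.2 := by field_simp
      rw [h5, smul_eq_mul, mul_pow, ENNReal.ofReal_mul (pow_nonneg hR.le _)]
      have h6 : ENNReal.ofReal (p.1 ^ (n - 1)) =
          ENNReal.ofReal p.1 * ENNReal.ofReal (p.1 ^ (n - 2)) := by
        rw [← ENNReal.ofReal_mul hR.le, ← pow_succ']
        congr 2
        omega
      rw [h6]
      ring
    · have hc' : ¬ 0 < p.1 * Real.cos p.2 := by
        intro h
        exact hc ((mul_pos_iff_of_pos_left hR).mp h)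
      rw [Set.indicator_of_notMem
        (show (p.1 * Real.cos p.2, p.1 * Real.sin p.2) ∉ {p : ℝ × ℝ | 0 < p.1} from hc'),
        Set.indicator_of_notMem (show p.2 ∉ {a : ℝ | 0 < Real.cos a} from hc)]
      simp
  rw [setLIntegral_congr_fun polarCoord.open_target.measurableSet h2, polarCoord_target,
    Measure.volume_eq_prod, ← Measure.prod_restrict]
  have hcs : MeasurableSet {a : ℝ | 0 < Real.cos a} :=
    measurableSet_lt measurable_const Real.continuous_cos.measurable
  have hk : Measurable fun a : ℝ => ENNReal.ofReal (Real.cos a ^ (n - 2)) * H (Real.sin a) :=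
    ((Real.continuous_cos.measurable.pow_const _).ennreal_ofReal).mul
      (hH.comp Real.continuous_sin.measurable)
  have hk' := hk.indicator hcs
  have hj : Measurable fun R : ℝ => ENNReal.ofReal (R ^ (n - 1)) * w R :=
    ((measurable_id.pow_const _).ennreal_ofReal).mul hw
  rw [lintegral_prod_mul hj.aemeasurable hk'.aemeasurable]
  congr 1
  rw [← lintegral_indicator measurableSet_Ioo, ← lintegral_indicator measurableSet_Ioo]
  refine lintegral_congr fun a => ?_
  by_cases ha : a ∈ Set.Ioo (-(Real.pi / 2)) (Real.pi / 2)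
  · have ha2 : a ∈ Set.Ioo (-Real.pi) Real.pi := by
      have := Real.pi_pos
      exact ⟨by linarith [ha.1], by linarith [ha.2]⟩
    rw [Set.indicator_of_mem ha, Set.indicator_of_mem ha2,
      Set.indicator_of_mem (show a ∈ {a : ℝ | 0 < Real.cos a} from Real.cos_pos_of_mem_Ioo ha)]
  · rw [Set.indicator_of_notMem ha]
    by_cases ha2 : a ∈ Set.Ioo (-Real.pi) Real.pi
    · rw [Set.indicator_of_mem ha2]
      have hc : a ∉ {a : ℝ | 0 < Real.cos a} := by
        intro hc
        apply ha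
        have hc' : 0 < Real.cos a := hc
        by_contra hcon
        rw [Set.mem_Ioo, not_and_or, not_lt, not_lt] at hcon
        have hpi := Real.pi_pos
        rcases hcon with h | h
        · have : Real.cos a ≤ 0 := by
            rw [← Real.cos_neg]
            apply Real.cos_nonpos_of_pi_div_two_le_of_le
            · linarith
            · linarith [ha2.1]
          linarith
        · have : Real.cos a ≤ 0 := by
            apply Real.cos_nonpos_of_pi_div_two_le_of_le h
            linarith [ha2.2]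
          linarith
      rw [Set.indicator_of_notMem hc]
    · rw [Set.indicator_of_notMem ha2]

theorem marg (hn : 2 ≤ finrank ℝ E) {N : E} (hN : ‖N‖ = 1) :
    ∃ C : ℝ≥0∞, C ≠ ⊤ ∧ ∀ H : ℝ → ℝ≥0∞, Measurable H →
      ∫⁻ x, H (inner ℝ x N) ∂(om E) =
        C * ∫⁻ a in Set.Ioo (-(Real.pi / 2)) (Real.pi / 2),
          ENNReal.ofReal (Real.cos a ^ (finrank ℝ E - 2)) * H (Real.sin a) := by
  obtain ⟨w, hwdef⟩ : ∃ w : ℝ → ℝ≥0∞, w = (Set.Iio (1 : ℝ)).indicator fun _ => 1 := ⟨_, rfl⟩
  have hw : Measurable w := by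
    rw [hwdef]
    exact measurable_const.indicator measurableSet_Iio
  obtain ⟨c, hc⟩ : ∃ c : ℝ≥0∞, c = ∫⁻ R in Set.Ioi (0 : ℝ), ENNReal.ofReal (R ^ (finrank ℝ E - 1)) * w R :=
    ⟨_, rfl⟩
  have hcval : c = ∫⁻ R in Set.Ioo (0 : ℝ) 1, ENNReal.ofReal (R ^ (finrank ℝ E - 1)) := by
    rw [hc, ← lintegral_indicator measurableSet_Ioi, ← lintegral_indicator measurableSet_Ioo]
    refine lintegral_congr fun R => ?_
    by_cases h0 : 0 < R
    · rw [Set.indicator_of_mem (show R ∈ Set.Ioi (0 : ℝ) from h0), hwdef]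
      by_cases h1 : R < 1
      · rw [Set.indicator_of_mem (show R ∈ Set.Iio (1 : ℝ) from h1),
          Set.indicator_of_mem (show R ∈ Set.Ioo (0 : ℝ) 1 from ⟨h0, h1⟩), mul_one]
      · rw [Set.indicator_of_notMem (show R ∉ Set.Iio (1 : ℝ) from h1),
          Set.indicator_of_notMem (fun h : R ∈ Set.Ioo (0 : ℝ) 1 => h1 h.2), mul_zero]
    · rw [Set.indicator_of_notMem (show R ∉ Set.Ioi (0 : ℝ) from h0),
        Set.indicator_of_notMem (fun h : R ∈ Set.Ioo (0 : ℝ) 1 => h0 h.1)]
  have hctop : c ≠ ⊤ := by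
    have h1 : c ≤ ∫⁻ R in Set.Ioo (0 : ℝ) 1, 1 := by
      rw [hcval]
      refine setLIntegral_mono measurable_const fun R hR => ?_
      rw [← ENNReal.ofReal_one]
      exact ENNReal.ofReal_le_ofReal (pow_le_one₀ hR.1.le hR.2.le)
    rw [setLIntegral_one, Real.volume_Ioo] at h1
    exact ne_top_of_le_ne_top ENNReal.ofReal_ne_top h1
  have hc0 : c ≠ 0 := by
    have h1 : ∫⁻ R in Set.Ioo (1 / 2 : ℝ) 1, ENNReal.ofReal ((1 / 2) ^ (finrank ℝ E - 1)) ≤ c := by
      rw [hcval]
      refine (lintegral_mono_set (Set.Ioo_subset_Ioo_left (by norm_num : (0 : ℝ) ≤ 1 / 2))).trans' ?_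
      refine setLIntegral_mono (by fun_prop) fun R hR => ?_
      exact ENNReal.ofReal_le_ofReal (pow_le_pow_left₀ (by norm_num) hR.1.le _)
    intro h
    rw [h, setLIntegral_const, Real.volume_Ioo, nonpos_iff_eq_zero, mul_eq_zero] at h1
    rcases h1 with h1 | h1
    · rw [ENNReal.ofReal_eq_zero] at h1
      have : (0 : ℝ) < (1 / 2) ^ (finrank ℝ E - 1) := by positivity
      linarith
    · rw [ENNReal.ofReal_eq_zero] at h1
      norm_num at h1
  refine ⟨om (EuclideanSpace ℝ (Fin (finrank ℝ E - 1))) Set.univ, measure_ne_top _ _, ?_⟩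
  intro H hH
  have hG : Measurable (Function.uncurry fun s r : ℝ => w r * H (s / r)) :=
    (hw.comp measurable_snd).mul (hH.comp (measurable_fst.div measurable_snd))
  have h1 := marg_split hN hn (fun s r => w r * H (s / r)) hG
  rw [marg_plane (finrank ℝ E) hn w H hw hH, ← hc] at h1
  have hm1 : Measurable fun y : E => w ‖y‖ * H (inner ℝ y N / ‖y‖) :=
    hG.comp ((continuous_id.inner continuous_const).measurable.prodMk measurable_norm)
  have h2 := polar (E := E) (by omega) _ hm1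
  have h3 : ∀ᵐ x ∂(om E), (∫⁻ r in Set.Ioi (0 : ℝ), ENNReal.ofReal (r ^ (finrank ℝ E - 1)) *
      (w ‖r • x‖ * H (inner ℝ (r • x) N / ‖r • x‖))) = c * H (inner ℝ x N) := by
    filter_upwards [om_norm] with x hx
    have hj : Measurable fun R : ℝ => ENNReal.ofReal (R ^ (finrank ℝ E - 1)) * w R :=
      ((measurable_id.pow_const _).ennreal_ofReal).mul hw
    rw [hc, ← lintegral_mul_const _ hj]
    refine setLIntegral_congr_fun measurableSet_Ioi fun r hr => ?_
    have hr' : (0 : ℝ) < r := hr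
    have hnr : ‖r • x‖ = r := by rw [norm_smul, hx, mul_one, Real.norm_of_nonneg hr'.le]
    simp only [hnr]
    have h4 : inner ℝ (r • x) N / r = inner ℝ x N := by
      rw [real_inner_smul_left]
      field_simp
    rw [h4, mul_assoc]
  have hm2 : Measurable fun y : E => H (inner ℝ y N) :=
    hH.comp (continuous_id.inner continuous_const).measurable
  rw [lintegral_congr_ae h3, lintegral_const_mul _ hm2] at h2
  rw [h2] at h1
  have h5 : c * ∫⁻ x, H (inner ℝ x N) ∂(om E) =
      c * (om (EuclideanSpace ℝ (Fin (finrank ℝ E - 1))) Set.univ *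
        ∫⁻ a in Set.Ioo (-(Real.pi / 2)) (Real.pi / 2),
          ENNReal.ofReal (Real.cos a ^ (finrank ℝ E - 2)) * H (Real.sin a)) := by
    refine h1.trans ?_
    ring
  exact (ENNReal.mul_right_inj hc0 hctop).mp h5

end RC
end

section

/-!
# RC constant factor: a one dimensional inequality (medium, real analysis)

Let `I = ∫ 0..b V w`, `X s = ∫ 0..s w`. If `I = 0` the left side is `≤ 0` (the factor is `≥ 0`, the minimum is `≤ I`). Let `I > 0`; then `V 0 > 0` (`V` is antitone). `L = (d+1) I / V 0 > 0`.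
`W s = (V s)^(1/d)`, `h s = (V 0)^(1/d) (1 - X s / L)`; `X` is concave on `[0,b]` (its derivative `w` is antitone), so `h` is convex and `φ = W - h` is concave on `[0,b]`, `φ 0 = 0`.
Let `q s = max (1 - X s / L) 0` and `P s = - I q(s)^(d+1)`; on `[0,b]` `P' = V 0 q^d w` (as `I (d+1)/L = V 0`), so `∫ s₁..s₂ V 0 q^d w = I (q(s₁)^(d+1) - q(s₂)^(d+1))`, `q 0 = 1`.
Case `φ g ≥ 0`: then `φ ≥ 0` on `[0,g]` by concavity, so `W ≥ h`, `V = W^d ≥ V 0 q^d` there and `∫ 0..g V w ≥ I (1 - q(g)^(d+1))`.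
Case `φ g < 0`: then `φ < 0` on `[g,b]` (otherwise `φ g ≥ 0` by concavity), so `0 ≤ W < h` and `V ≤ V 0 q^d` there, `∫ g..b V w ≤ I (q(g)^(d+1) - q(b)^(d+1)) ≤ I q(g)^(d+1)` and `∫ 0..g V w = I - ∫ g..b V w ≥ I (1 - q(g)^(d+1))`.
In both cases it remains to see `I (1 - q(g)^(d+1)) ≥ (1 - (d/(d+1))^(d+1)) min (V 0 X g) I`. Let `z = V 0 X g / I`, so `X g / L = z/(d+1)`. If `z ≥ 1`: `q g ≤ d/(d+1)`. If `0 ≤ z < 1`: `q g = 1 - z/(d+1) = (1-z) 1 + z d/(d+1)` and by the
convexity of `x^(d+1)` `q(g)^(d+1) ≤ 1 - z + z (d/(d+1))^(d+1)`.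
-/

set_option autoImplicit false

open MeasureTheory

namespace RC

private theorem OneD_hasDeriv (n : ℕ) (hn : 1 ≤ n) (u : ℝ) :
    HasDerivAt (fun u : ℝ => (max u 0) ^ (n + 1)) (((n : ℝ) + 1) * (max u 0) ^ n) u := by
  rcases lt_trichotomy u 0 with hu | hu | hu
  · have h1 : (fun u : ℝ => (max u 0) ^ (n + 1)) =ᶠ[nhds u] fun _ => (0 : ℝ) := by
      filter_upwards [gt_mem_nhds hu] with v hv
      rw [max_eq_right hv.le, zero_pow (by omega)]
    have h2 : ((n : ℝ) + 1) * (max u 0) ^ n = 0 := by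
      rw [max_eq_right hu.le, zero_pow (by omega), mul_zero]
    rw [h2]
    exact (hasDerivAt_const u (0 : ℝ)).congr_of_eventuallyEq h1
  · subst hu
    have h0 : ((n : ℝ) + 1) * (max (0 : ℝ) 0) ^ n = 0 := by
      rw [max_self, zero_pow (by omega), mul_zero]
    rw [h0]
    have h1 : HasDerivAt (fun u : ℝ => u ^ (n + 1)) 0 0 := by
      have := hasDerivAt_pow (n + 1) (0 : ℝ)
      simpa [zero_pow (show n ≠ 0 by omega)] using this
    rw [hasDerivAt_iff_isLittleO] at h1 ⊢
    refine Asymptotics.IsBigO.trans_isLittleO (Asymptotics.IsBigO.of_bound 1 ?_) h1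
    refine Filter.Eventually.of_forall fun v => ?_
    simp only [max_self, smul_zero, sub_zero, one_mul]
    rw [zero_pow (by omega), sub_zero, sub_zero, norm_pow, norm_pow]
    refine pow_le_pow_left₀ (norm_nonneg _) ?_ _
    rw [Real.norm_eq_abs, Real.norm_eq_abs, abs_of_nonneg (le_max_right _ _)]
    exact max_le (le_abs_self v) (abs_nonneg v)
  · have h1 : (fun u : ℝ => (max u 0) ^ (n + 1)) =ᶠ[nhds u] fun u => u ^ (n + 1) := by
      filter_upwards [lt_mem_nhds hu] with v hv
      rw [max_eq_left hv.le]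
    have h2 : ((n : ℝ) + 1) * (max u 0) ^ n = ((n + 1 : ℕ) : ℝ) * u ^ (n + 1 - 1) := by
      rw [max_eq_left hu.le]
      push_cast
      rfl
    rw [h2]
    exact (hasDerivAt_pow (n + 1) u).congr_of_eventuallyEq h1

/-- the final numerical inequality -/
private theorem OneD_num (d : ℕ) {I z : ℝ} (hI : 0 < I) (hz : 0 ≤ z) :
    (1 - ((d:ℝ) / (d + 1)) ^ (d + 1)) * (I * min z 1) ≤
      I * (1 - (max (1 - z / (d + 1)) 0) ^ (d + 1)) := by
  have hd1 : (0 : ℝ) < d + 1 := by positivity
  have hκ0 : (0 : ℝ) ≤ (d : ℝ) / (d + 1) := by positivity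
  rcases le_or_gt 1 z with h | h
  · rw [min_eq_right h, mul_one, mul_comm]
    apply mul_le_mul_of_nonneg_left _ hI.le
    have h1 : max (1 - z / (d + 1)) 0 ≤ (d : ℝ) / (d + 1) := by
      apply max_le _ hκ0
      have h2 : 1 / ((d : ℝ) + 1) ≤ z / (d + 1) := div_le_div_of_nonneg_right h hd1.le
      have h3 : (d : ℝ) / (d + 1) = 1 - 1 / (d + 1) := by field_simp; ring
      rw [h3]
      linarith
    have := pow_le_pow_left₀ (le_max_right _ _) h1 (d + 1)
    linarith
  · rw [min_eq_left h.le]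
    have h1 : max (1 - z / (d + 1)) 0 = (1 - z) * 1 + z * ((d : ℝ) / (d + 1)) := by
      have h2 : (1 - z) * 1 + z * ((d : ℝ) / (d + 1)) = 1 - z / (d + 1) := by field_simp; ring
      rw [h2, max_eq_left]
      have h3 : z / ((d : ℝ) + 1) ≤ 1 := by
        rw [div_le_one hd1]
        have : (0 : ℝ) ≤ d := by positivity
        linarith
      linarith
    have h2 := (convexOn_pow (𝕜 := ℝ) (d + 1)).2 (show (1 : ℝ) ∈ Set.Ici 0 by simp)
      (show (d : ℝ) / (d + 1) ∈ Set.Ici 0 from hκ0) (show 0 ≤ 1 - z by linarith) hz (by ring)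
    simp only [smul_eq_mul, one_pow] at h2
    rw [h1]
    have h3 : (1 - ((d:ℝ) / (d + 1)) ^ (d + 1)) * (I * z) =
        I * (1 - ((1 - z) * 1 + z * ((d:ℝ) / (d + 1)) ^ (d + 1))) := by ring
    rw [h3]
    apply mul_le_mul_of_nonneg_left _ hI.le
    linarith

theorem oneD (d : ℕ) (hd : 1 ≤ d) {b g : ℝ} (hg : 0 ≤ g) (hgb : g ≤ b) (w V : ℝ → ℝ)
    (hw : Continuous w) (hw0 : ∀ s ∈ Set.Icc 0 b, 0 ≤ w s) (hwa : AntitoneOn w (Set.Icc 0 b))
    (hV0 : ∀ s ∈ Set.Icc 0 b, 0 ≤ V s) (hVa : AntitoneOn V (Set.Icc 0 b))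
    (hVc : ConcaveOn ℝ (Set.Icc 0 b) (fun s => V s ^ (1 / (d:ℝ)))) :
    (1 - ((d:ℝ) / (d + 1)) ^ (d + 1)) * min (V 0 * ∫ s in (0:ℝ)..g, w s) (∫ s in (0:ℝ)..b, V s * w s) ≤
      ∫ s in (0:ℝ)..g, V s * w s := by
  classical
  have hb : 0 ≤ b := hg.trans hgb
  have hd0 : (0 : ℝ) < d := by exact_mod_cast hd
  have hd1 : (0 : ℝ) < d + 1 := by positivity
  have h0b : (0 : ℝ) ∈ Set.Icc 0 b := ⟨le_refl _, hb⟩
  have hgm : g ∈ Set.Icc 0 b := ⟨hg, hgb⟩
  set κ : ℝ := 1 - ((d:ℝ) / (d + 1)) ^ (d + 1) with hκ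
  have hκ0 : 0 ≤ κ := by
    have h1 : (d : ℝ) / (d + 1) ≤ 1 := by rw [div_le_one hd1]; linarith
    have := pow_le_one₀ (n := d + 1) (show (0 : ℝ) ≤ (d : ℝ) / (d + 1) by positivity) h1
    rw [hκ]
    linarith
  -- integrability
  have hint : ∀ s₁ ∈ Set.Icc 0 b, ∀ s₂ ∈ Set.Icc 0 b,
      IntervalIntegrable (fun s => V s * w s) volume s₁ s₂ := by
    intro s₁ h1 s₂ h2
    have hsub : Set.uIcc s₁ s₂ ⊆ Set.Icc 0 b := by
      rw [Set.uIcc]
      exact Set.Icc_subset_Icc (le_min h1.1 h2.1) (max_le h1.2 h2.2)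
    exact ((hVa.mono hsub).intervalIntegrable).mul_continuousOn hw.continuousOn
  have hVw0 : ∀ s ∈ Set.Icc 0 b, 0 ≤ V s * w s := fun s hs => mul_nonneg (hV0 s hs) (hw0 s hs)
  set I : ℝ := ∫ s in (0:ℝ)..b, V s * w s with hI
  set X : ℝ → ℝ := fun s => ∫ t in (0:ℝ)..s, w t with hX
  have hsplit : (∫ s in (0:ℝ)..g, V s * w s) + (∫ s in g..b, V s * w s) = I :=
    intervalIntegral.integral_add_adjacent_intervals (hint 0 h0b g hgm)
      (hint g hgm b ⟨hb, le_refl _⟩)
  have hleft : 0 ≤ ∫ s in (0:ℝ)..g, V s * w s :=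
    intervalIntegral.integral_nonneg hg fun s hs => hVw0 s ⟨hs.1, hs.2.trans hgb⟩
  have hI0 : 0 ≤ I := intervalIntegral.integral_nonneg hb fun s hs => hVw0 s hs
  rcases hI0.lt_or_eq with hIpos | hIzero
  swap
  · rw [← hIzero]
    refine le_trans ?_ hleft
    exact mul_nonpos_of_nonneg_of_nonpos hκ0 (min_le_right _ _)
  -- `V 0 > 0`
  have hV0pos : 0 < V 0 := by
    rcases (hV0 0 h0b).lt_or_eq with h | h
    · exact h
    · exfalso
      have h1 : I = 0 := by
        rw [hI]
        have h2 : ∀ s ∈ Set.uIcc 0 b, V s * w s = 0 := by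
          intro s hs
          rw [Set.uIcc_of_le hb] at hs
          have h3 : V s ≤ V 0 := hVa h0b hs hs.1
          have h4 : V s = 0 := le_antisymm (by rw [h]; exact h3) (hV0 s hs)
          rw [h4, zero_mul]
        rw [intervalIntegral.integral_congr h2]
        simp
      linarith
  set L : ℝ := (d + 1) * I / V 0 with hL
  have hLpos : 0 < L := by positivity
  have hVL : V 0 * L = (d + 1) * I := by
    rw [hL]
    field_simp
  -- properties of `X`
  have hXd : ∀ s, HasDerivAt X (w s) s := fun s =>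
    intervalIntegral.integral_hasDerivAt_right (hw.intervalIntegrable _ _)
      (hw.stronglyMeasurableAtFilter _ _) hw.continuousAt
  have hXc : ConcaveOn ℝ (Set.Icc 0 b) X := by
    refine AntitoneOn.concaveOn_of_deriv (convex_Icc 0 b)
      (fun s _ => (hXd s).continuousAt.continuousWithinAt)
      (fun s _ => (hXd s).differentiableAt.differentiableWithinAt) ?_
    intro s hs t ht hst
    rw [(hXd s).deriv, (hXd t).deriv]
    rw [interior_Icc] at hs ht
    exact hwa ⟨hs.1.le, hs.2.le⟩ ⟨ht.1.le, ht.2.le⟩ hst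
  have hX0 : X 0 = 0 := by simp [hX]
  have hXcont : Continuous X := continuous_iff_continuousAt.2 fun s => (hXd s).continuousAt
  -- the comparison function
  set c : ℝ := V 0 ^ (1 / (d:ℝ)) with hc
  have hcpos : 0 < c := Real.rpow_pos_of_pos hV0pos _
  have hcd : c ^ d = V 0 := by
    rw [hc, one_div]
    exact Real.rpow_inv_natCast_pow hV0pos.le (by omega)
  set φ : ℝ → ℝ := fun s => V s ^ (1 / (d:ℝ)) + (c / L * X s + -c) with hφ
  have hφc : ConcaveOn ℝ (Set.Icc 0 b) φ := by
    refine hVc.add ?_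
    exact (hXc.smul (show 0 ≤ c / L by positivity)).add_const (-c)
  have hφ0 : φ 0 = 0 := by
    simp only [hφ, hX0, mul_zero, zero_add]
    rw [hc]
    ring
  have hφline : ∀ s ∈ Set.Icc 0 b, ∀ t ∈ Set.Icc 0 b, s ≤ t → 0 < t → s / t * φ t ≤ φ s := by
    intro s hs t ht hst ht0
    have h1 := hφc.2 h0b ht (show 0 ≤ 1 - s / t by
      have : s / t ≤ 1 := by rw [div_le_one ht0]; exact hst
      linarith) (show 0 ≤ s / t from div_nonneg hs.1 ht0.le) (by ring)
    simp only [smul_eq_mul, mul_zero, zero_add, hφ0] at h1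
    rw [div_mul_cancel₀ _ ht0.ne'] at h1
    exact h1
  set q : ℝ → ℝ := fun s => max (1 - X s / L) 0 with hq
  have hq0 : ∀ s, 0 ≤ q s := fun s => le_max_right _ _
  have hqcont : Continuous q := (continuous_const.sub (hXcont.div_const L)).max continuous_const
  have hVroot : ∀ s ∈ Set.Icc 0 b, (V s ^ (1 / (d:ℝ))) ^ d = V s := by
    intro s hs
    rw [one_div]
    exact Real.rpow_inv_natCast_pow (hV0 s hs) (by omega)
  have hcq : ∀ s, c * q s = max (c - c / L * X s) 0 := by
    intro s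
    rw [hq]
    simp only
    rw [mul_max_of_nonneg _ _ hcpos.le, mul_zero]
    congr 1
    ring
  have hup : ∀ s ∈ Set.Icc 0 b, 0 ≤ φ s → V 0 * q s ^ d ≤ V s := by
    intro s hs h
    rw [← hcd, ← mul_pow, hcq, ← hVroot s hs]
    refine pow_le_pow_left₀ (le_max_right _ _) (max_le ?_ (Real.rpow_nonneg (hV0 s hs) _)) d
    simp only [hφ] at h
    linarith
  have hlo : ∀ s ∈ Set.Icc 0 b, φ s ≤ 0 → V s ≤ V 0 * q s ^ d := by
    intro s hs h
    rw [← hcd, ← mul_pow, hcq, ← hVroot s hs]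
    refine pow_le_pow_left₀ (Real.rpow_nonneg (hV0 s hs) _) (le_max_of_le_left ?_) d
    simp only [hφ] at h
    linarith
  -- the primitive
  have hP : ∀ s, HasDerivAt (fun s => -(I * q s ^ (d + 1))) (V 0 * q s ^ d * w s) s := by
    intro s
    have h1 : HasDerivAt (fun s => 1 - X s / L) (-(w s / L)) s := by
      have := ((hXd s).div_const L).const_sub 1
      simpa using this
    have h2 := (OneD_hasDeriv d hd (1 - X s / L)).comp s h1
    have h3 := (h2.const_mul I).neg
    have h4 : -(I * (((d : ℝ) + 1) * (max (1 - X s / L) 0) ^ d * (-(w s / L)))) =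
        V 0 * q s ^ d * w s := by
      rw [hq]
      simp only
      have h5 : V 0 = (d + 1) * I / L := by
        rw [eq_div_iff hLpos.ne']
        exact hVL
      rw [h5]
      ring
    rw [← h4]
    exact h3
  have hcontq : Continuous fun s => V 0 * q s ^ d * w s :=
    (continuous_const.mul (hqcont.pow d)).mul hw
  have hPint : ∀ s₁ s₂ : ℝ, (∫ s in s₁..s₂, V 0 * q s ^ d * w s) =
      I * q s₁ ^ (d + 1) - I * q s₂ ^ (d + 1) := by
    intro s₁ s₂
    rw [intervalIntegral.integral_eq_sub_of_hasDerivAt (fun s _ => hP s)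
      (hcontq.intervalIntegrable _ _)]
    ring
  have hqz : q 0 = 1 := by
    simp [hq, hX0]
  -- the main inequality
  have hmain : I * (1 - q g ^ (d + 1)) ≤ ∫ s in (0:ℝ)..g, V s * w s := by
    rcases le_or_gt 0 (φ g) with h | h
    · have h1 : ∀ s ∈ Set.Icc 0 g, 0 ≤ φ s := by
        intro s hs
        rcases hg.lt_or_eq with hg0 | hg0
        · have h2 := hφline s ⟨hs.1, hs.2.trans hgb⟩ g hgm hs.2 hg0
          exact le_trans (mul_nonneg (div_nonneg hs.1 hg) h) h2
        · have : s = 0 := le_antisymm (by rw [hg0]; exact hs.2) hs.1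
          rw [this, hφ0]
      have h2 : (∫ s in (0:ℝ)..g, V 0 * q s ^ d * w s) ≤ ∫ s in (0:ℝ)..g, V s * w s := by
        refine intervalIntegral.integral_mono_on hg (hcontq.intervalIntegrable _ _)
          (hint 0 h0b g hgm) fun s hs => ?_
        have hs' : s ∈ Set.Icc 0 b := ⟨hs.1, hs.2.trans hgb⟩
        exact mul_le_mul_of_nonneg_right (hup s hs' (h1 s hs)) (hw0 s hs')
      rw [hPint, hqz, one_pow] at h2
      linarith
    · have hg0 : 0 < g := by
        rcases hg.lt_or_eq with hg0 | hg0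
        · exact hg0
        · rw [← hg0, hφ0] at h
          exact absurd h (lt_irrefl 0)
      have h1 : ∀ s ∈ Set.Icc g b, φ s ≤ 0 := by
        intro s hs
        by_contra hcon
        push Not at hcon
        have hs0 : 0 < s := hg0.trans_le hs.1
        have h2 := hφline g hgm s ⟨hs0.le, hs.2⟩ hs.1 hs0
        have h3 : 0 ≤ g / s * φ s := mul_nonneg (div_nonneg hg hs0.le) hcon.le
        linarith
      have h2 : (∫ s in g..b, V s * w s) ≤ ∫ s in g..b, V 0 * q s ^ d * w s := by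
        refine intervalIntegral.integral_mono_on hgb (hint g hgm b ⟨hb, le_refl _⟩)
          (hcontq.intervalIntegrable _ _) fun s hs => ?_
        have hs' : s ∈ Set.Icc 0 b := ⟨hg.trans hs.1, hs.2⟩
        exact mul_le_mul_of_nonneg_right (hlo s hs' (h1 s hs)) (hw0 s hs')
      rw [hPint] at h2
      have h3 : 0 ≤ I * q b ^ (d + 1) := mul_nonneg hI0 (pow_nonneg (hq0 b) _)
      linarith
  refine le_trans ?_ hmain
  have hXg : 0 ≤ X g := intervalIntegral.integral_nonneg hg fun s hs =>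
    hw0 s ⟨hs.1, hs.2.trans hgb⟩
  have hz : 0 ≤ V 0 * X g / I := by positivity
  have hnum := OneD_num d hIpos hz
  have h1 : I * min (V 0 * X g / I) 1 = min (V 0 * X g) I := by
    rw [mul_min_of_nonneg _ _ hI0, mul_one]
    congr 1
    field_simp
  have h2 : V 0 * X g / I / (d + 1) = X g / L := by
    rw [hL]
    field_simp
  rw [h1, h2] at hnum
  exact hnum

end RC
end
end

section

section

/-!
# RC constant factor: reduction to a function of one variable (easy/medium)

`exists_perp`: see the proof of `exists_unit` in SetIneq.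
`conv_cap_V`: by `convS_cap` (SetIneq) the left side is `ofReal (kk (cap N c) c' (sg u N))`, and the right side is `ofReal (kk (cap N c) c' (pp N e θ))`, `θ = 2 arcsin |⟪u,N⟫|` (`ofReal_measureReal`).
`⟪sg u N, N⟫ = 1 - 2 ⟪u,N⟫² = cos θ = ⟪pp N e θ, N⟫` (`cos 2x = 1 - 2 sin² x`), both are unit vectors, and `kk_mono_cap` (file KPol) in both directions gives the equality.
-/

set_option autoImplicit false

open MeasureTheory Module
open scoped ENNReal NNReal

namespace RC

variable {E : Type*} [NormedAddCommGroup E] [InnerProductSpace ℝ E] [MeasurableSpace E]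
  [BorelSpace E] [FiniteDimensional ℝ E]

theorem exists_perp (hn : 2 ≤ finrank ℝ E) {N : E} (hN : ‖N‖ = 1) : ∃ e : E, ‖e‖ = 1 ∧ inner ℝ N e = (0:ℝ) := by
  obtain ⟨e, he, heN⟩ := exists_unit hn hN (b := 0) (by norm_num)
  exact ⟨e, he, by rw [real_inner_comm]; exact heN⟩

theorem conv_cap_V {N e : E} (hN : ‖N‖ = 1) (he : ‖e‖ = 1)
    (hNe : inner ℝ N e = (0:ℝ)) (c c' : ℝ) {u : E} (hu : ‖u‖ = 1) :
    convS (cap N c) (cap N c') u =
      om E (cap N c ∩ cap (pp N e (2 * Real.arcsin |inner ℝ u N|)) c') := by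
  rw [convS_cap N c' hu]
  have hpp : om E (cap N c ∩ cap (pp N e (2 * Real.arcsin |inner ℝ u N|)) c') =
      ENNReal.ofReal (kk (cap N c) c' (pp N e (2 * Real.arcsin |inner ℝ u N|))) := by
    unfold kk
    rw [ofReal_measureReal]
  rw [hpp]
  set θ : ℝ := 2 * Real.arcsin |inner ℝ u N| with hθ
  have hNe' : inner ℝ e N = (0:ℝ) := by rw [real_inner_comm]; exact hNe
  have habs : |inner ℝ u N| ≤ 1 := by
    have h1 : |inner ℝ u N| ≤ ‖u‖ * ‖N‖ := abs_real_inner_le_norm u N
    rwa [hu, hN, mul_one] at h1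
  have hcos : Real.cos θ = 1 - 2 * (inner ℝ u N) ^ 2 := by
    rw [hθ, Real.cos_two_mul]
    have h2 : Real.sin (Real.arcsin |inner ℝ u N|) = |inner ℝ u N| :=
      Real.sin_arcsin (by linarith [abs_nonneg (inner ℝ u N)]) habs
    have h3 := Real.sin_sq_add_cos_sq (Real.arcsin |inner ℝ u N|)
    rw [h2, sq_abs] at h3
    linarith
  have hinnp : inner ℝ (pp N e θ) N = 1 - 2 * (inner ℝ u N) ^ 2 := by
    unfold pp
    rw [inner_add_left, real_inner_smul_left, real_inner_smul_left, hNe', mul_zero, add_zero,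
      real_inner_self_eq_norm_sq, hN, hcos]
    ring
  have hinns : inner ℝ (sg u N) N = 1 - 2 * (inner ℝ u N) ^ 2 := by
    unfold sg
    rw [inner_sub_left, real_inner_smul_left, real_inner_self_eq_norm_sq, hN,
      real_inner_comm N u]
    ring
  have hnp : ‖pp N e θ‖ = 1 := by
    have h1 : ‖pp N e θ‖ ^ 2 = 1 := by
      unfold pp
      rw [norm_add_sq_real, norm_smul, norm_smul, hN, he, real_inner_smul_left,
        real_inner_smul_right, hNe, mul_one, mul_one, Real.norm_eq_abs,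
        Real.norm_eq_abs, sq_abs, sq_abs]
      have h3 := Real.sin_sq_add_cos_sq θ
      linarith
    have h2 : 0 ≤ ‖pp N e θ‖ := norm_nonneg _
    nlinarith [h1, h2]
  have hns : ‖sg u N‖ = 1 := by rw [norm_sg hu, hN]
  congr 1
  apply le_antisymm
  · exact kk_mono_cap N c c' hns hnp (by rw [hinns, hinnp])
  · exact kk_mono_cap N c c' hnp hns (by rw [hinns, hinnp])

end RC
end

section

/-!
# RC constant factor: the unweighted inequality of Baernstein-Taylor type for sets
-/

set_option autoImplicit false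

open MeasureTheory Module
open scoped ENNReal NNReal

namespace RC

variable {E : Type*} [NormedAddCommGroup E] [InnerProductSpace ℝ E] [MeasurableSpace E]
  [BorelSpace E] [FiniteDimensional ℝ E]

theorem J1_pol {N w : E} (hw : ‖w‖ = 1) {A : Set E} (hA : MeasurableSet A)
    (l r : ℝ) : J1 l r A ≤ J1 l r (pol N w A) := by
  have hpA := measurableSet_pol N hw hA
  unfold J1
  have hm1 : Measurable (fun x => ENNReal.ofReal (kk A r x - l)) :=
    ((measurable_kk hA r).sub_const l).ennreal_ofReal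
  have hm2 : Measurable (fun x => ENNReal.ofReal (kk (pol N w A) r x - l)) :=
    ((measurable_kk hpA r).sub_const l).ennreal_ofReal
  rw [split N hw _ hm1, split N hw _ hm2]
  refine add_le_add ?_ ?_
  · refine setLIntegral_mono' (measurableSet_H N hw) ?_
    intro x hx
    have hx' : inner ℝ (sg w x) N < inner ℝ x N := hx
    have hadd := kk_pol_add N hw hA r x
    have hge := kk_pol_ge (N := N) hw hA r hx'
    have h := num_ineq l _ _ _ _ hadd hge.1 hge.2 1 1 le_rfl
    simpa only [mul_one] using h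
  · refine le_of_eq (setLIntegral_congr_fun (measurableSet_Z N hw) ?_)
    intro x hx
    have hx' : inner ℝ (sg w x) N = inner ℝ x N := hx
    have hk : kk (pol N w A) r x = kk A r x := by
      have hin : inner ℝ (sg w x) N = inner ℝ x N - 2 * inner ℝ x w * inner ℝ w N := by
        unfold sg
        rw [inner_sub_left, real_inner_smul_left]
      rw [hin] at hx'
      have h0 : inner ℝ x w * inner ℝ w N = 0 := by linarith
      rcases mul_eq_zero.1 h0 with h | h
      · have hs : sg w x = x := by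
          unfold sg
          rw [h]
          simp
        have hadd := kk_pol_add N hw hA r x
        rw [hs] at hadd
        linarith
      · have hpol : pol N w A = A := by
          ext y
          have hy : inner ℝ (sg w y) N = inner ℝ y N := by
            unfold sg
            rw [inner_sub_left, real_inner_smul_left, h]
            ring
          simp only [pol, Set.mem_ofPred_eq, hy, lt_irrefl, false_and, true_and, false_or]
          tauto
        rw [hpol]
    simp only [hk]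

theorem J1_close (l r : ℝ) {A C : Set E} :
    J1 l r A ≤ J1 l r C + om E (A \ C) * om E Set.univ := by
  unfold J1
  have hpt : ∀ u, ENNReal.ofReal (kk A r u - l) ≤
      ENNReal.ofReal (kk C r u - l) + om E (A \ C) := by
    intro u
    have h1 : kk A r u ≤ kk C r u + (om E).real (A \ C) := by
      unfold kk
      calc (om E).real (A ∩ cap u r)
          ≤ (om E).real ((C ∩ cap u r) ∪ (A \ C)) := by
            refine measureReal_mono ?_ (measure_ne_top _ _)
            rintro x ⟨hxA, hxc⟩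
            by_cases hxC : x ∈ C
            · exact Or.inl ⟨hxC, hxc⟩
            · exact Or.inr ⟨hxA, hxC⟩
        _ ≤ _ := measureReal_union_le _ _
    calc ENNReal.ofReal (kk A r u - l)
        ≤ ENNReal.ofReal ((kk C r u - l) + (om E).real (A \ C)) :=
          ENNReal.ofReal_le_ofReal (by linarith)
      _ ≤ ENNReal.ofReal (kk C r u - l) + ENNReal.ofReal ((om E).real (A \ C)) :=
          ENNReal.ofReal_add_le
      _ = _ := by rw [ofReal_measureReal]
  calc _ ≤ ∫⁻ u, (ENNReal.ofReal (kk C r u - l) + om E (A \ C)) ∂(om E) :=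
        lintegral_mono hpt
    _ = _ := by rw [lintegral_add_right _ measurable_const, lintegral_const]

theorem BT1 (hn : 2 ≤ finrank ℝ E) {N : E} (hN : ‖N‖ = 1) {A : Set E} (hA : MeasurableSet A) {c : ℝ}
    (hc : om E A = om E (cap N c)) (l r : ℝ) : J1 l r A ≤ J1 l r (cap N c) := by
  classical
  let K : Set (Set E) := {A' | MeasurableSet A' ∧ om E A' = om E A ∧ J1 l r A ≤ J1 l r A'}
  have hAK : A ∈ K := ⟨hA, rfl, le_refl _⟩
  have hpolK : ∀ A' ∈ K, ∀ w : E, ‖w‖ = 1 → pol N w A' ∈ K := by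
    intro A' hA' w hw
    exact ⟨measurableSet_pol N hw hA'.1, (om_pol N hw hA'.1).trans hA'.2.1,
      hA'.2.2.trans (J1_pol hw hA'.1 l r)⟩
  set s : ℝ≥0∞ := ⨆ A' ∈ K, Vp N A' with hs
  have hM : om E (Set.univ : Set E) < ⊤ := measure_lt_top _ _
  have hstop : s ≤ 2 * om E Set.univ := iSup₂_le (fun A' _ => Vp_le hN A')
  have hs' : s < ⊤ := lt_of_le_of_lt hstop (ENNReal.mul_lt_top (by norm_num) hM)
  have hle : ∀ A' ∈ K, Vp N A' ≤ s := fun A' hA' => le_iSup₂ (f := fun A' (_ : A' ∈ K) => Vp N A') A' hA'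
  have hex : ∀ δ : ℝ≥0∞, 0 < δ → ∃ A' ∈ K, s ≤ Vp N A' + δ := by
    intro δ hδ
    by_cases hδt' : δ = ⊤
    · exact ⟨A, hAK, by rw [hδt']; simp⟩
    have hδt : δ ≠ ⊤ := hδt'
    by_contra hcon
    push Not at hcon
    have h1 : s ≤ s - δ := by
      apply iSup₂_le
      intro A' hA'
      exact ENNReal.le_sub_of_add_le_right hδt (hcon A' hA').le
    have h2 : s ≠ 0 := by
      intro h0
      have := hcon A hAK
      rw [h0] at this
      exact absurd this not_lt_zero
    have h3 : s - δ < s := ENNReal.sub_lt_self hs'.ne h2 hδ.ne'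
    exact absurd h1 (not_le.2 h3)
  apply ENNReal.le_of_forall_pos_le_add
  intro ε₀ hε₀ _
  set ε : ℝ≥0∞ := (ε₀ : ℝ≥0∞) / (om E Set.univ + 1) with hε
  have hM1 : om E (Set.univ : Set E) + 1 ≠ ⊤ := (ENNReal.add_lt_top.2 ⟨hM, by norm_num⟩).ne
  have hεpos : 0 < ε := ENNReal.div_pos (by simpa using hε₀.ne') hM1
  obtain ⟨δ, hδ, hδA⟩ := close N c hεpos
  set Q : ℝ≥0∞ := 2 ^ (finrank ℝ E - 2) * om E Set.univ with hQ
  have hQt : Q < ⊤ := ENNReal.mul_lt_top (ENNReal.pow_lt_top (by norm_num)) hM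
  have hQ1 : Q + 1 ≠ ⊤ := (ENNReal.add_lt_top.2 ⟨hQt, by norm_num⟩).ne
  have hδ' : 0 < δ / (Q + 1) := ENNReal.div_pos hδ.ne' hQ1
  obtain ⟨A', hA'K, hA's⟩ := hex _ hδ'
  have hVt : Vp N A' ≠ ⊤ := (lt_of_le_of_lt (hle A' hA'K) hs').ne
  have hgain : ∀ w : E, ‖w‖ = 1 → gain N A' w ≤ δ / (Q + 1) := by
    intro w hw
    have h1 := hle _ (hpolK A' hA'K w hw)
    rw [Vp_pol hN hw hA'K.1] at h1
    exact (ENNReal.add_le_add_iff_left hVt).1 (h1.trans hA's)
  have hDD : DD N A' ≤ δ := by
    calc DD N A' ≤ 2 ^ (finrank ℝ E - 2) * ∫⁻ w, gain N A' w ∂(om E) := DD_le hn N hA'K.1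
      _ ≤ 2 ^ (finrank ℝ E - 2) * ∫⁻ w, δ / (Q + 1) ∂(om E) := by
          gcongr 2 ^ (finrank ℝ E - 2) * ?_
          apply lintegral_mono_ae
          filter_upwards [om_norm] with w hw
          exact hgain w hw
      _ = Q * (δ / (Q + 1)) := by rw [lintegral_const, hQ]; ring
      _ ≤ (Q + 1) * (δ / (Q + 1)) := by gcongr; exact le_self_add
      _ ≤ δ := ENNReal.mul_div_le
  have hcl := hδA A' hA'K.1 (hA'K.2.1.trans hc) hDD
  calc J1 l r A ≤ J1 l r A' := hA'K.2.2
    _ ≤ J1 l r (cap N c) + om E (A' \ cap N c) * om E Set.univ :=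
        J1_close l r
    _ ≤ J1 l r (cap N c) + ε₀ := by
        gcongr
        calc om E (A' \ cap N c) * om E Set.univ ≤ ε * (om E Set.univ + 1) := by
              gcongr
              exact le_self_add
          _ = (om E Set.univ + 1) * ((ε₀ : ℝ≥0∞) / (om E Set.univ + 1)) := by rw [hε]; ring
          _ ≤ ε₀ := ENNReal.mul_div_le

theorem set1 (hn : 2 ≤ finrank ℝ E) {N : E} (hN : ‖N‖ = 1) {A B : Set E} (hA : MeasurableSet A)
    {b c r : ℝ} (hAc : om E A = om E (cap N c)) (hBb : om E B = om E (cap N b)) :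
    ∫⁻ x in B, ENNReal.ofReal (kk A r x) ∂(om E) ≤
      ∫⁻ x in cap N b, ENNReal.ofReal (kk (cap N c) r x) ∂(om E) := by
  set C : Set E := cap N c with hC
  have hcap : MeasurableSet (cap N b) := measurableSet_cap N b
  have hmono : ∀ u v : E, ‖u‖ = 1 → ‖v‖ = 1 → inner ℝ u N ≤ inner ℝ v N →
      kk C r u ≤ kk C r v := fun u v hu hv h => kk_mono_cap N c r hu hv h
  -- the level
  obtain ⟨l, hl0, hl1, hl2⟩ : ∃ l : ℝ, 0 ≤ l ∧
      (∀ u : E, ‖u‖ = 1 → u ∈ cap N b → l ≤ kk C r u) ∧
      (∀ u : E, ‖u‖ = 1 → u ∉ cap N b → kk C r u ≤ l) := by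
    by_cases hb : -1 ≤ b
    · have hb' : |min b 1| ≤ 1 := by
        rw [abs_le]
        exact ⟨le_min hb (by norm_num), min_le_right _ _⟩
      obtain ⟨u₀, hu₀, hu₀N⟩ := exists_unit hn hN hb'
      refine ⟨kk C r u₀, measureReal_nonneg, ?_, ?_⟩
      · intro u hu hub
        refine hmono u₀ u hu₀ hu ?_
        rw [hu₀N]
        exact (min_le_left _ _).trans (le_of_lt hub)
      · intro u hu hub
        refine hmono u u₀ hu hu₀ ?_
        rw [hu₀N]
        refine le_min (not_lt.1 hub) ?_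
        have h1 := real_inner_le_norm u N
        rwa [hu, hN, mul_one] at h1
    · refine ⟨0, le_rfl, fun u _ _ => measureReal_nonneg, ?_⟩
      intro u hu hub
      exfalso
      apply hub
      show b < inner ℝ u N
      have h1 : |inner ℝ u N| ≤ ‖u‖ * ‖N‖ := abs_real_inner_le_norm u N
      rw [hu, hN, mul_one, abs_le] at h1
      exact lt_of_lt_of_le (not_le.1 hb) h1.1
  have h1 : ∫⁻ u in B, ENNReal.ofReal (kk A r u) ∂(om E) ≤
      J1 l r A + ENNReal.ofReal l * om E B := by
    calc ∫⁻ u in B, ENNReal.ofReal (kk A r u) ∂(om E)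
        ≤ ∫⁻ u in B, (ENNReal.ofReal (kk A r u - l) + ENNReal.ofReal l) ∂(om E) := by
          refine lintegral_mono fun u => ?_
          have := ENNReal.ofReal_add_le (p := kk A r u - l) (q := l)
          rwa [sub_add_cancel] at this
      _ = ∫⁻ u in B, ENNReal.ofReal (kk A r u - l) ∂(om E) +
          ∫⁻ _ in B, ENNReal.ofReal l ∂(om E) := lintegral_add_right _ measurable_const
      _ ≤ J1 l r A + ENNReal.ofReal l * om E B := by
          rw [setLIntegral_const]
          exact add_le_add (setLIntegral_le_lintegral _ _) le_rfl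
  have h2 : J1 l r C = ∫⁻ u in cap N b, ENNReal.ofReal (kk C r u - l) ∂(om E) := by
    unfold J1
    rw [← lintegral_add_compl _ hcap]
    have h3 : ∫⁻ u in (cap N b)ᶜ, ENNReal.ofReal (kk C r u - l) ∂(om E) = 0 := by
      rw [setLIntegral_congr_fun_ae (g := fun _ => 0) hcap.compl]
      · simp
      · filter_upwards [om_norm (E := E)] with u hu hub
        exact ENNReal.ofReal_of_nonpos (sub_nonpos.2 (hl2 u hu hub))
    rw [h3, add_zero]
  have h4 : J1 l r C + ENNReal.ofReal l * om E (cap N b) =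
      ∫⁻ u in cap N b, ENNReal.ofReal (kk C r u) ∂(om E) := by
    rw [h2, ← setLIntegral_const, ← lintegral_add_right _ measurable_const]
    refine setLIntegral_congr_fun_ae hcap ?_
    filter_upwards [om_norm (E := E)] with u hu hub
    rw [← ENNReal.ofReal_add (sub_nonneg.2 (hl1 u hu hub)) hl0, sub_add_cancel]
  calc ∫⁻ u in B, ENNReal.ofReal (kk A r u) ∂(om E)
      ≤ J1 l r A + ENNReal.ofReal l * om E B := h1
    _ ≤ J1 l r C + ENNReal.ofReal l * om E B := add_le_add (BT1 hn hN hA hAc l r) le_rfl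
    _ = J1 l r C + ENNReal.ofReal l * om E (cap N b) := by rw [hBb]
    _ = _ := h4

end RC
end

section

/-!
# RC constant factor: complements (medium)

`convS_compl`: `sg u` preserves `om` (`om_sg`), so with `B' = {y | sg u y ∈ B}`: `om B' = om B`, `(B')ᶜ = {y | sg u y ∈ Bᶜ}`, and `om (A ∩ B') + om univ = om A + om B' + om (Aᶜ ∩ B'ᶜ)`
(`measure_inter_add_diff`, `measure_compl`, everything finite; `om E` is a finite measure).
`compl_cap_ae`: `(cap N c)ᶜ = {⟪x,N⟫ ≤ c}` and `cap (-N) (-c) = {⟪x,N⟫ < c}` differ by a subset of `{⟪x,N⟫ = c}`, which is null (`level_null`).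
`convS_neg`: `sg u (-y) = - sg u y`, and `y ↦ -y` preserves `om` (`om_isometry` for `LinearIsometryEquiv.neg ℝ`); the preimage of `cap (-N) b ∩ {y | sg u y ∈ cap (-N) b'}` under `y ↦ -y` is `cap N b ∩ {y | sg u y ∈ cap N b'}`.
`convS_compl_cap`: for unit `u` combine `compl_cap_ae` with `convS_congr` (file Layer) and `convS_neg`.
`om_compl_cap`: `om (cap N c)ᶜ = om (cap (-N) (-c)) = om (cap N (-c))` (`om_cap`).
`convS_le_left`, `convS_le_right`: monotonicity of the measure, and `om_sg`.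
-/

set_option autoImplicit false

open MeasureTheory Module
open scoped ENNReal NNReal

namespace RC

variable {E : Type*} [NormedAddCommGroup E] [InnerProductSpace ℝ E] [MeasurableSpace E]
  [BorelSpace E] [FiniteDimensional ℝ E]

private lemma compl_meas_sg (u : E) : Measurable (sg u) :=
  (continuous_sg.comp (Continuous.prodMk_right u)).measurable

private lemma compl_meas_cap (a : E) (r : ℝ) : MeasurableSet (cap a r) := by
  have h : IsOpen (cap a r) := by
    unfold cap
    exact isOpen_lt continuous_const (by fun_prop)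
  exact h.measurableSet

theorem convS_le_left (A B : Set E) (u : E) : convS A B u ≤ om E A :=
  measure_mono Set.inter_subset_left

theorem convS_le_right {A B : Set E} (hB : MeasurableSet B) {u : E} (hu : ‖u‖ = 1) : convS A B u ≤ om E B := by
  have h1 : om E (sg u ⁻¹' B) = om E B := (om_sg hu).measure_preimage hB.nullMeasurableSet
  rw [← h1]
  exact measure_mono Set.inter_subset_right

theorem convS_compl {A B : Set E} (hA : MeasurableSet A) (hB : MeasurableSet B) {u : E} (hu : ‖u‖ = 1) :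
    convS A B u + om E Set.univ = om E A + om E B + convS Aᶜ Bᶜ u := by
  have h1 : om E (sg u ⁻¹' B) = om E B := (om_sg hu).measure_preimage hB.nullMeasurableSet
  have hB' : MeasurableSet (sg u ⁻¹' B) := compl_meas_sg u hB
  have h2 : convS A B u = om E (A ∩ sg u ⁻¹' B) := rfl
  have h3 : convS Aᶜ Bᶜ u = om E (A ∪ sg u ⁻¹' B)ᶜ := by
    rw [Set.compl_union]
    rfl
  have h4 := measure_add_measure_compl (μ := om E) (hA.union hB')
  have h5 := measure_union_add_inter (μ := om E) A hB'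
  rw [h2, h3, ← h4, ← h1, ← h5]
  ring

theorem compl_cap_ae (hn : 2 ≤ finrank ℝ E) {N : E} (hN : ‖N‖ = 1) (c : ℝ) :
    (cap N c)ᶜ =ᵐ[om E] cap (-N) (-c) := by
  have h := measure_eq_zero_iff_ae_notMem.1 (level_null hn hN c)
  filter_upwards [h] with x hx
  have hx' : inner ℝ x N ≠ c := hx
  apply propext
  change (¬ c < inner ℝ x N) ↔ (-c < inner ℝ x (-N))
  rw [inner_neg_right, neg_lt_neg_iff, not_lt]
  constructor
  · intro h1
    exact lt_of_le_of_ne h1 hx'
  · intro h1
    exact h1.le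

theorem convS_neg (N : E) (b b' : ℝ) (u : E) :
    convS (cap (-N) b) (cap (-N) b') u = convS (cap N b) (cap N b') u := by
  have hm : MeasurableSet (cap (-N) b ∩ {y | sg u y ∈ cap (-N) b'}) :=
    (compl_meas_cap _ _).inter (compl_meas_sg u (compl_meas_cap _ _))
  have h1 := (om_isometry (LinearIsometryEquiv.neg ℝ : E ≃ₗᵢ[ℝ] E)).measure_preimage
    hm.nullMeasurableSet
  unfold convS
  rw [← h1]
  congr 1
  ext y
  have hsg : sg u (-y) = - sg u y := by
    unfold sg
    rw [inner_neg_left, mul_neg, neg_smul, neg_sub]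
    abel
  simp only [Set.mem_preimage, Set.mem_inter_iff, LinearIsometryEquiv.coe_neg, cap,
    Set.mem_ofPred_eq, hsg, inner_neg_neg]

theorem convS_compl_cap (hn : 2 ≤ finrank ℝ E) {N : E} (hN : ‖N‖ = 1) (c c' : ℝ) {u : E} (hu : ‖u‖ = 1) :
    convS (cap N c)ᶜ (cap N c')ᶜ u = convS (cap N (-c)) (cap N (-c')) u := by
  have h : convS (cap N c)ᶜ (cap N c')ᶜ u = convS (cap (-N) (-c)) (cap (-N) (-c')) u :=
    convS_congr (compl_cap_ae hn hN c) (compl_cap_ae hn hN c') hu
  exact h.trans (convS_neg N (-c) (-c') u)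

theorem om_compl_cap (hn : 2 ≤ finrank ℝ E) {N : E} (hN : ‖N‖ = 1) (c : ℝ) :
    om E (cap N c)ᶜ = om E (cap N (-c)) := by
  have h : om E (cap N c)ᶜ = om E (cap (-N) (-c)) := measure_congr (compl_cap_ae hn hN c)
  exact h.trans (om_cap (by rw [norm_neg, hN]) hN _)

theorem measurable_convS {A B : Set E} (hA : MeasurableSet A) (hB : MeasurableSet B) :
    Measurable (convS A B) := by
  have hf : Measurable (A.indicator (1 : E → ℝ≥0)) := measurable_one.indicator hA
  have hg : Measurable (B.indicator (1 : E → ℝ≥0)) := measurable_one.indicator hB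
  have h := measurable_conv _ _ hf hg
  have he : convS A B = conv (A.indicator (1 : E → ℝ≥0)) (B.indicator (1 : E → ℝ≥0)) := by
    funext u
    have hm : MeasurableSet (A ∩ {y | sg u y ∈ B}) := hA.inter (compl_meas_sg u hB)
    unfold convS conv
    rw [← lintegral_indicator_one hm]
    refine lintegral_congr fun y => ?_
    by_cases h1 : y ∈ A <;> by_cases h2 : sg u y ∈ B <;> simp [Set.indicator, h1, h2]
  rw [he]
  exact h

end RC
end

section

/-!
# RC constant factor: the total integral (medium)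

`tot_eq`: for every `y` the library theorem `cv` (file CVc) with `G = B.indicator 1` and `a = y` gives
`∫ u, B.indicator 1 (sg u y) = ∫ x in B, W y x` (for unit `y`; almost every `y` is a unit vector, `om_norm`). Write `convS A B u = ∫ y in A, B.indicator 1 (sg u y)`
(compare `layerAux_convS` in Layer; `continuous_sg`) and exchange the integrals (`lintegral_lintegral_swap`, everything is jointly measurable, `om E` is finite).
-/

set_option autoImplicit false

open MeasureTheory Module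
open scoped ENNReal NNReal

namespace RC

variable {E : Type*} [NormedAddCommGroup E] [InnerProductSpace ℝ E] [MeasurableSpace E]
  [BorelSpace E] [FiniteDimensional ℝ E]

private lemma totA_convS {A B : Set E} (hA : MeasurableSet A) (hB : MeasurableSet B) (u : E) :
    convS A B u = ∫⁻ y in A, B.indicator (1 : E → ℝ≥0∞) (sg u y) ∂(om E) := by
  have hs : Measurable (sg u) := (continuous_sg.comp (Continuous.prodMk_right u)).measurable
  have hm : MeasurableSet (A ∩ {y | sg u y ∈ B}) := hA.inter (hs hB)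
  unfold convS
  rw [← lintegral_indicator_one hm, ← lintegral_indicator hA]
  refine lintegral_congr fun y => ?_
  by_cases h1 : y ∈ A <;> by_cases h2 : sg u y ∈ B <;> simp [Set.indicator, h1, h2]

theorem tot_eq (hn : 2 ≤ finrank ℝ E) {A B : Set E} (hA : MeasurableSet A) (hB : MeasurableSet B) :
    ∫⁻ u, convS A B u ∂(om E) = ∫⁻ y in A, (∫⁻ x in B, W y x ∂(om E)) ∂(om E) := by
  have hsg : Measurable (fun p : E × E => sg p.1 p.2) := continuous_sg.measurable
  have h1 : ∫⁻ u, convS A B u ∂(om E) =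
      ∫⁻ u, (∫⁻ y in A, B.indicator (1 : E → ℝ≥0∞) (sg u y) ∂(om E)) ∂(om E) :=
    lintegral_congr fun u => totA_convS hA hB u
  have hB1 : Measurable (B.indicator (1 : E → ℝ≥0∞)) := measurable_one.indicator hB
  rw [h1, lintegral_lintegral_swap]
  · refine setLIntegral_congr_fun_ae hA ?_
    filter_upwards [om_norm (E := E)] with y hy _
    rw [cv hn hy _ hB1, ← lintegral_indicator hB]
    refine lintegral_congr fun x => ?_
    by_cases hx : x ∈ B <;> simp [Set.indicator, hx]
  · exact (hB1.comp hsg).aemeasurable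

end RC
end

section

/-!
# RC constant factor: the total integral, layer cake
-/

set_option autoImplicit false

open MeasureTheory Module
open scoped ENNReal NNReal

namespace RC

variable {E : Type*} [NormedAddCommGroup E] [InnerProductSpace ℝ E] [MeasurableSpace E]
  [BorelSpace E] [FiniteDimensional ℝ E]

theorem W_lt_iff (hn : 3 ≤ finrank ℝ E) {s : ℝ} (hs : 0 < s) :
    ∃ ρ : ℝ, ∀ a x : E, ‖a‖ = 1 → ‖x‖ = 1 → (ENNReal.ofReal s < W a x ↔ ρ < inner ℝ x a) := by
  set k : ℕ := finrank ℝ E - 2 with hk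
  have hk1 : k ≠ 0 := by omega
  set q : ℝ := (s⁻¹) ^ ((1:ℝ) / (k:ℝ)) with hq
  have hs' : (0:ℝ) < s⁻¹ := inv_pos.2 hs
  have hq0 : 0 < q := Real.rpow_pos_of_pos hs' _
  have hqk : q ^ k = s⁻¹ := by
    rw [hq, ← Real.rpow_natCast, ← Real.rpow_mul hs'.le, one_div,
      inv_mul_cancel₀ (by exact_mod_cast hk1), Real.rpow_one]
  refine ⟨1 - q ^ 2 / 2, fun a x ha hx => ?_⟩
  have hnorm : ‖x - a‖ ^ 2 = 2 - 2 * inner ℝ x a := by
    rw [norm_sub_sq_real, ha, hx]
    ring
  by_cases hxa : x = a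
  · subst hxa
    have h1 : W x x = ⊤ := by
      unfold W
      rw [sub_self, enorm_zero, ENNReal.inv_zero, ENNReal.top_pow hk1]
    rw [h1, real_inner_self_eq_norm_sq, hx]
    constructor
    · intro _
      have : 0 < q ^ 2 := by positivity
      linarith
    · intro _
      exact ENNReal.ofReal_lt_top
  · have hD : 0 < ‖x - a‖ := norm_pos_iff.2 (sub_ne_zero.2 hxa)
    have h1 : W a x = ENNReal.ofReal ((‖x - a‖⁻¹) ^ k) := by
      unfold W
      rw [← hk, ← ofReal_norm, ← ENNReal.ofReal_inv_of_pos hD,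
        ENNReal.ofReal_pow (inv_nonneg.2 hD.le)]
    have h2 : 0 < (‖x - a‖⁻¹) ^ k := by positivity
    rw [h1, ENNReal.ofReal_lt_ofReal_iff h2, inv_pow]
    have h3 : s < (‖x - a‖ ^ k)⁻¹ ↔ ‖x - a‖ ^ k < q ^ k := by
      rw [hqk]
      constructor
      · intro h
        rw [lt_inv_comm₀ (by positivity) hs]
        exact h
      · intro h
        rw [lt_inv_comm₀ hs (by positivity)]
        exact h
    rw [h3, pow_lt_pow_iff_left₀ hD.le hq0.le hk1]
    constructor
    · intro h
      have : ‖x - a‖ ^ 2 < q ^ 2 := by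
        apply pow_lt_pow_left₀ h hD.le
        norm_num
      linarith
    · intro h
      have : ‖x - a‖ ^ 2 < q ^ 2 := by linarith
      exact lt_of_pow_lt_pow_left₀ 2 hq0.le this

private lemma layer_enn (z : ℝ≥0∞) :
    ∫⁻ s in Set.Ioi (0:ℝ), ({s : ℝ | ENNReal.ofReal s < z}).indicator (1 : ℝ → ℝ≥0∞) s = z := by
  have hm : MeasurableSet {s : ℝ | ENNReal.ofReal s < z} :=
    measurableSet_lt ENNReal.measurable_ofReal measurable_const
  rw [lintegral_indicator_one hm, Measure.restrict_apply hm]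
  rcases eq_or_ne z ⊤ with rfl | hz
  · have : {s : ℝ | ENNReal.ofReal s < ⊤} ∩ Set.Ioi 0 = Set.Ioi 0 := by
      ext s
      simp
    rw [this, Real.volume_Ioi]
  · have : {s : ℝ | ENNReal.ofReal s < z} ∩ Set.Ioi 0 = Set.Ioo 0 z.toReal := by
      ext s
      constructor
      · rintro ⟨h1, h2⟩
        refine ⟨h2, ?_⟩
        exact (ENNReal.ofReal_lt_iff_lt_toReal (le_of_lt h2) hz).1 h1
      · rintro ⟨h1, h2⟩
        exact ⟨(ENNReal.ofReal_lt_iff_lt_toReal (le_of_lt h1) hz).2 h2, h1⟩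
    rw [this, Real.volume_Ioo, sub_zero, ENNReal.ofReal_toReal hz]

private noncomputable def FF (p : (ℝ × E) × E) : ℝ≥0∞ :=
  ({q : ℝ | ENNReal.ofReal q < W p.1.2 p.2}).indicator (1 : ℝ → ℝ≥0∞) p.1.1

private lemma measurable_FF : Measurable (FF (E := E)) := by
  have hS : MeasurableSet {p : (ℝ × E) × E | ENNReal.ofReal p.1.1 < W p.1.2 p.2} := by
    have e1 : Measurable (fun p : (ℝ × E) × E => p.1.1) := measurable_fst.comp measurable_fst
    have e3 : Measurable (fun p : (ℝ × E) × E => ENNReal.ofReal p.1.1) := ENNReal.measurable_ofReal.comp e1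
    have a1 : Measurable (fun p : (ℝ × E) × E => p.1.2) := measurable_snd.comp measurable_fst
    have a2 : Measurable (fun p : (ℝ × E) × E => p.2) := measurable_snd
    have e4 : Measurable (fun p : (ℝ × E) × E => W p.1.2 p.2) := by
      unfold W
      exact ((a2.sub a1).enorm.inv).pow_const _
    exact measurableSet_lt e3 e4
  have h : FF (E := E) = ({p : (ℝ × E) × E | ENNReal.ofReal p.1.1 < W p.1.2 p.2}).indicator
      (fun _ => (1:ℝ≥0∞)) := by
    funext p
    unfold FF
    by_cases h4 : ENNReal.ofReal p.1.1 < W p.1.2 p.2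
    · rw [Set.indicator_of_mem (by exact h4), Set.indicator_of_mem (by exact h4)]
      rfl
    · rw [Set.indicator_of_notMem (by exact h4), Set.indicator_of_notMem (by exact h4)]
  rw [h]
  exact measurable_const.indicator hS

private lemma tl_one (B : Set E) (y : E) : ∫⁻ x in B, W y x ∂(om E) = ∫⁻ s in Set.Ioi (0:ℝ),
      (∫⁻ x in B, FF ((s, y), x) ∂(om E)) := by
  rw [lintegral_lintegral_swap]
  · refine lintegral_congr fun x => ?_
    exact (layer_enn (W y x)).symm
  · have : Measurable (fun p : ℝ × E => FF ((p.1, y), p.2)) :=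
      measurable_FF.comp ((measurable_fst.prodMk measurable_const).prodMk measurable_snd)
    exact this.aemeasurable

private lemma tl_two (B : Set E) : Measurable (fun q : ℝ × E => ∫⁻ x in B, FF (q, x) ∂(om E)) :=
  Measurable.lintegral_prod_right' measurable_FF

private lemma tl_three {B : Set E} (hB : MeasurableSet B) {s r : ℝ} {y : E} (hy : ‖y‖ = 1)
    (h : ∀ a x : E, ‖a‖ = 1 → ‖x‖ = 1 → (ENNReal.ofReal s < W a x ↔ r < inner ℝ x a)) :
    ∫⁻ x in B, FF ((s, y), x) ∂(om E) = ENNReal.ofReal (kk B r y) := by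
  have h2 : ∫⁻ x in B, FF ((s, y), x) ∂(om E) =
      ∫⁻ x in B, (cap y r).indicator (1 : E → ℝ≥0∞) x ∂(om E) := by
    refine setLIntegral_congr_fun_ae hB ?_
    filter_upwards [om_norm (E := E)] with x hx _
    have h3 := h y x hy hx
    unfold FF
    by_cases h4 : ENNReal.ofReal s < W y x
    · have h5 : x ∈ cap y r := h3.1 h4
      rw [Set.indicator_of_mem h5, Set.indicator_of_mem (by exact h4)]
      rfl
    · have h5 : x ∉ cap y r := fun h => h4 (h3.2 h)
      rw [Set.indicator_of_notMem h5, Set.indicator_of_notMem (by exact h4)]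
  rw [h2, lintegral_indicator_one (measurableSet_cap _ _), Measure.restrict_apply (measurableSet_cap _ _)]
  unfold kk
  rw [ofReal_measureReal (measure_ne_top _ _), Set.inter_comm]

theorem tot_layer (hn : 3 ≤ finrank ℝ E) : ∃ ρ : ℝ → ℝ, ∀ A B : Set E, MeasurableSet A → MeasurableSet B →
    ∫⁻ y in A, (∫⁻ x in B, W y x ∂(om E)) ∂(om E) =
      ∫⁻ s in Set.Ioi (0:ℝ), (∫⁻ y in A, ENNReal.ofReal (kk B (ρ s) y) ∂(om E)) := by
  classical
  have hex : ∀ s : ℝ, ∃ r : ℝ, 0 < s → ∀ a x : E, ‖a‖ = 1 → ‖x‖ = 1 →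
      (ENNReal.ofReal s < W a x ↔ r < inner ℝ x a) := by
    intro s
    by_cases hs : 0 < s
    · obtain ⟨r, hr⟩ := W_lt_iff (E := E) hn hs
      exact ⟨r, fun _ => hr⟩
    · exact ⟨0, fun h => absurd h hs⟩
  choose ρ hρ using hex
  refine ⟨ρ, fun A B hA hB => ?_⟩
  calc ∫⁻ y in A, (∫⁻ x in B, W y x ∂(om E)) ∂(om E)
      = ∫⁻ y in A, (∫⁻ s in Set.Ioi (0:ℝ), (∫⁻ x in B, FF ((s, y), x) ∂(om E))) ∂(om E) :=
        lintegral_congr fun y => tl_one B y
    _ = ∫⁻ s in Set.Ioi (0:ℝ), (∫⁻ y in A, (∫⁻ x in B, FF ((s, y), x) ∂(om E)) ∂(om E)) := by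
        rw [lintegral_lintegral_swap]
        exact ((tl_two B).comp measurable_swap).aemeasurable
    _ = _ := by
        refine setLIntegral_congr_fun measurableSet_Ioi fun s hs => ?_
        refine setLIntegral_congr_fun_ae hA ?_
        filter_upwards [om_norm (E := E)] with y hy _
        exact tl_three hB hy (hρ s hs)

theorem tot_ineq (hn : 3 ≤ finrank ℝ E) {N : E} (hN : ‖N‖ = 1) {A B : Set E} (hA : MeasurableSet A)
    (hB : MeasurableSet B) {c c' : ℝ} (hAc : om E A = om E (cap N c)) (hBc : om E B = om E (cap N c')) :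
    ∫⁻ u, convS A B u ∂(om E) ≤ ∫⁻ u, convS (cap N c) (cap N c') u ∂(om E) := by
  obtain ⟨ρ, hρ⟩ := tot_layer (E := E) hn
  rw [tot_eq (by omega) hA hB, tot_eq (by omega) (measurableSet_cap _ _) (measurableSet_cap _ _),
    hρ A B hA hB, hρ _ _ (measurableSet_cap _ _) (measurableSet_cap _ _)]
  refine lintegral_mono fun s => ?_
  exact set1 (by omega) hN hB hBc hAc

end RC
end

section

/-!
# RC constant factor: caps (medium/long)

`n = finrank ≥ 3`, `d = n - 1`, `k = n - 2`. Let `V`, `b` be as in `V_shape` (with `e` from `exists_perp`), `F θ = om (cap N c ∩ cap (pp N e θ) c')` for `θ` in `[0,π]`. By `conv_cap_V` `convS (cap N c) (cap N c') u = F (2 arcsin |⟪u,N⟫|)` for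
a.e. `u`. Choose a measurable `F'` on `ℝ` with `F' = F` on `[0,π]` (for instance `F' θ = if θ < b then ofReal (V (max θ 0)) else 0`, antitone, hence measurable). By `marg` (constant `C`): `∫_{band N h} convS = C ∫ s in (-π/2,π/2), cos^k s 1_{|sin s|<h} F' (2|s|)`,
`∫ convS = C ∫ s in (-π/2,π/2), cos^k s F' (2|s|)`, `om (band N h) = C ∫ s in (-π/2,π/2), cos^k s 1_{|sin s| < h}`. If `h ≤ 0` then `band N h = ∅` and the left side is zero. If `h > 1` the band is everything up to a null set, and the factor is `≤ 1`.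
Let `0 < h ≤ 1`, `g = arcsin h` in `(0,π/2]`. By symmetry the integrals over `(-π/2,π/2)` are twice those over `(0,π/2)`. With `b' = b/2 ≤ π/2`, `g' = min g b'`: `∫_{band} convS = 2C ofReal (∫ s in 0..g', V (2s) cos^k s)`,
`∫ convS = 2C ofReal (∫ s in 0..b', V (2s) cos^k s)`, `om (band N h) = 2C ofReal (∫ s in 0..g, cos^k s)`, `om (cap N c ∩ cap N c') = F 0 = ofReal (V 0)` (`pp N e 0 = N`). If `g ≤ b'` the claim is `oneD` for `d = n - 1`, `b'`, `g`, `w = cos^k`,
`V' s = V (2s)` (concavity of `V'^(1/d)` on `[0,b']`: composition with `s ↦ 2s`), multiplied by `2C`. If `g > b'` the minimum is at most the total integral, which is the right side, and the factor is at most 1.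
-/

set_option autoImplicit false

open MeasureTheory Module
open scoped ENNReal NNReal

namespace RC

variable {E : Type*} [NormedAddCommGroup E] [InnerProductSpace ℝ E] [MeasurableSpace E]
  [BorelSpace E] [FiniteDimensional ℝ E]

private theorem k3_even {p : ℝ} (φ : ℝ → ℝ≥0∞) (hφ : Measurable φ) :
    ∫⁻ a in Set.Ioo (-p) p, φ |a| = 2 * ∫⁻ a in Set.Ioo 0 p, φ a := by
  rcases le_or_gt p 0 with hp | hp
  · rw [Set.Ioo_eq_empty (by linarith), Set.Ioo_eq_empty (by linarith)]
    simp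
  have h1 : ∫⁻ a in Set.Ioo (-p) 0, φ |a| = ∫⁻ a in Set.Ioo 0 p, φ a := by
    have h2 := (Measure.measurePreserving_neg (volume : Measure ℝ)).setLIntegral_comp_preimage
      (measurableSet_Ioo (a := (0:ℝ)) (b := p)) hφ
    have h3 : (fun x : ℝ => -x) ⁻¹' Set.Ioo 0 p = Set.Ioo (-p) 0 := by
      ext x
      simp only [Set.mem_preimage, Set.mem_Ioo]
      constructor
      · rintro ⟨h, h'⟩
        constructor <;> linarith
      · rintro ⟨h, h'⟩
        constructor <;> linarith
    have h4 : (Neg.neg : ℝ → ℝ) ⁻¹' Set.Ioo 0 p = Set.Ioo (-p) 0 := h3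
    rw [h4] at h2
    rw [← h2]
    refine setLIntegral_congr_fun measurableSet_Ioo fun a ha => ?_
    show φ |a| = φ (-a)
    rw [abs_of_neg ha.2]
  have h5 : ∫⁻ a in Set.Ioo 0 p, φ |a| = ∫⁻ a in Set.Ioo 0 p, φ a := by
    refine setLIntegral_congr_fun measurableSet_Ioo fun a ha => ?_
    show φ |a| = φ a
    rw [abs_of_pos ha.1]
  have h6 : Set.Ioo (-p) p = Set.Ioo (-p) 0 ∪ ({0} ∪ Set.Ioo 0 p) := by
    ext x
    simp only [Set.mem_Ioo, Set.mem_union, Set.mem_singleton_iff]
    constructor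
    · rintro ⟨h, h'⟩
      rcases lt_trichotomy x 0 with hx | hx | hx
      · exact Or.inl ⟨h, hx⟩
      · exact Or.inr (Or.inl hx)
      · exact Or.inr (Or.inr ⟨hx, h'⟩)
    · rintro (⟨h, h'⟩ | h | ⟨h, h'⟩)
      · exact ⟨h, by linarith⟩
      · rw [h]; exact ⟨by linarith, hp⟩
      · exact ⟨by linarith, h'⟩
  have h7 : ∫⁻ a in Set.Ioo (-p) p, φ |a| =
      (∫⁻ a in Set.Ioo (-p) 0, φ |a|) + ∫⁻ a in Set.Ioo 0 p, φ |a| := by
    rw [h6, lintegral_union ((measurableSet_singleton 0).union measurableSet_Ioo)]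
    · congr 1
      rw [lintegral_union measurableSet_Ioo]
      · simp
      · rw [Set.disjoint_singleton_left]
        simp
    · rw [Set.disjoint_left]
      rintro x hx (hx' | hx')
      · rw [Set.mem_singleton_iff] at hx'
        exact absurd hx.2 (by rw [hx']; exact lt_irrefl _)
      · exact absurd hx.2 (not_lt.2 hx'.1.le)
  rw [h7, h1, h5, two_mul]

private theorem k3_int {g : ℝ} (hg : 0 ≤ g) (f : ℝ → ℝ) (hf : IntegrableOn f (Set.Icc 0 g))
    (hf0 : ∀ a ∈ Set.Icc 0 g, 0 ≤ f a) :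
    ∫⁻ a in Set.Ioo 0 g, ENNReal.ofReal (f a) = ENNReal.ofReal (∫ a in (0:ℝ)..g, f a) := by
  rw [intervalIntegral.integral_of_le hg, integral_Ioc_eq_integral_Ioo,
    ofReal_integral_eq_lintegral_ofReal (hf.mono_set Set.Ioo_subset_Icc_self)]
  rw [Filter.EventuallyLE, ae_restrict_iff' measurableSet_Ioo]
  exact Filter.Eventually.of_forall fun a ha => hf0 a (Set.Ioo_subset_Icc_self ha)

private theorem k3_arcsin {a : ℝ} (ha : |a| < Real.pi / 2) : Real.arcsin |Real.sin a| = |a| := by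
  have h0 := abs_nonneg a
  rw [Real.abs_sin_eq_sin_abs_of_abs_le_pi (by linarith [Real.pi_pos]),
    Real.arcsin_sin (by linarith [Real.pi_pos]) ha.le]

private theorem k3_gen {N : E} {C : ℝ≥0∞} {k : ℕ}
    (hmarg : ∀ H : ℝ → ℝ≥0∞, Measurable H →
      ∫⁻ x, H (inner ℝ x N) ∂(om E) =
        C * ∫⁻ a in Set.Ioo (-(Real.pi / 2)) (Real.pi / 2),
          ENNReal.ofReal (Real.cos a ^ k) * H (Real.sin a))
    (H : ℝ → ℝ≥0∞) (hH : Measurable H) (φ : ℝ → ℝ≥0∞) (hφ : Measurable φ)
    (hHφ : ∀ a : ℝ, |a| < Real.pi / 2 → H (Real.sin a) = φ |a|) :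
    ∫⁻ x, H (inner ℝ x N) ∂(om E) =
      C * (2 * ∫⁻ a in Set.Ioo 0 (Real.pi / 2), ENNReal.ofReal (Real.cos a ^ k) * φ a) := by
  rw [hmarg H hH]
  congr 1
  rw [← k3_even (fun a => ENNReal.ofReal (Real.cos a ^ k) * φ a)]
  · refine setLIntegral_congr_fun measurableSet_Ioo fun a ha => ?_
    show ENNReal.ofReal (Real.cos a ^ k) * H (Real.sin a) =
      ENNReal.ofReal (Real.cos |a| ^ k) * φ |a|
    rw [hHφ a (abs_lt.2 ⟨ha.1, ha.2⟩), Real.cos_abs]
  · exact (ENNReal.measurable_ofReal.comp ((Real.measurable_cos).pow_const k)).mul hφ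

theorem K3 (hn : 3 ≤ finrank ℝ E) {N : E} (hN : ‖N‖ = 1) {c c' : ℝ} (hc : |c| < 1) (hc' : |c'| < 1)
    (hcc : 0 ≤ c + c') (h : ℝ) :
    ENNReal.ofReal (1 - (((finrank ℝ E - 1 : ℕ) : ℝ) / ((finrank ℝ E - 1 : ℕ) + 1)) ^ ((finrank ℝ E - 1) + 1)) *
      min (om E (cap N c ∩ cap N c') * om E (band N h))
        (∫⁻ u, convS (cap N c) (cap N c') u ∂(om E)) ≤
      ∫⁻ u in band N h, convS (cap N c) (cap N c') u ∂(om E) := by
  have hn2 : 2 ≤ finrank ℝ E := by omega
  obtain ⟨e, he, hNe⟩ := exists_perp hn2 hN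
  obtain ⟨V, b, hb0, hbπ, hV0, hVa, hVc, hVF, hVz⟩ := V_shape hn hN he hNe hc hc' hcc
  obtain ⟨C, hC, hmarg⟩ := marg hn2 hN
  set k := finrank ℝ E - 2 with hk
  have hpi := Real.pi_pos
  -- the profile
  set F' : ℝ → ℝ≥0∞ := fun θ => if θ < b then ENNReal.ofReal (V (max θ 0)) else 0 with hF'
  have hF'anti : Antitone F' := by
    intro x y hxy
    show F' y ≤ F' x
    simp only [hF']
    by_cases hy : y < b
    · have hx : x < b := lt_of_le_of_lt hxy hy
      rw [if_pos hy, if_pos hx]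
      refine ENNReal.ofReal_le_ofReal (hVa ⟨le_max_right _ _, ?_⟩ ⟨le_max_right _ _, ?_⟩
        (max_le_max_right 0 hxy))
      · exact max_le hx.le hb0.le
      · exact max_le hy.le hb0.le
    · rw [if_neg hy]
      exact zero_le
  have hF'm : Measurable F' := hF'anti.measurable
  have key1 : ∀ u : E, ‖u‖ = 1 → convS (cap N c) (cap N c') u =
      F' (2 * Real.arcsin |inner ℝ u N|) := by
    intro u hu
    rw [conv_cap_V hN he hNe c c' hu]
    have h1 : 0 ≤ Real.arcsin |inner ℝ u N| := Real.arcsin_nonneg.2 (abs_nonneg _)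
    have h2 := Real.arcsin_le_pi_div_two |inner ℝ u N|
    by_cases hθ : 2 * Real.arcsin |inner ℝ u N| < b
    · rw [hVF _ ⟨by linarith, hθ.le⟩]
      simp only [hF']
      rw [if_pos hθ, max_eq_left (by linarith)]
    · rw [hVz _ ⟨not_lt.1 hθ, by linarith⟩]
      simp only [hF']
      rw [if_neg hθ]
  -- integrals
  have hae := om_norm (E := E)
  have hTot : ∫⁻ u, convS (cap N c) (cap N c') u ∂(om E) =
      C * (2 * ∫⁻ a in Set.Ioo 0 (Real.pi / 2), ENNReal.ofReal (Real.cos a ^ k) * F' (2 * a)) := by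
    rw [← k3_gen hmarg (fun s => F' (2 * Real.arcsin |s|))
      (hF'm.comp ((Real.measurable_arcsin.comp measurable_abs).const_mul 2))
      (fun a => F' (2 * a)) (hF'm.comp (measurable_id.const_mul 2)) (fun a ha => by
        show F' (2 * Real.arcsin |Real.sin a|) = F' (2 * |a|)
        rw [k3_arcsin ha])]
    exact lintegral_congr_ae (hae.mono fun u hu => key1 u hu)
  have hTotLe : ENNReal.ofReal (1 - (((finrank ℝ E - 1 : ℕ) : ℝ) / ((finrank ℝ E - 1 : ℕ) + 1)) ^
      ((finrank ℝ E - 1) + 1)) ≤ 1 := by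
    rw [← ENNReal.ofReal_one]
    refine ENNReal.ofReal_le_ofReal ?_
    have h0 : 0 ≤ (((finrank ℝ E - 1 : ℕ) : ℝ) / ((finrank ℝ E - 1 : ℕ) + 1)) ^
      ((finrank ℝ E - 1) + 1) := by positivity
    linarith
  have hbm := measurableSet_band N h
  rcases le_or_gt h 0 with hh0 | hh0
  · have : band N h = ∅ := by
      ext x
      simp only [band, Set.mem_ofPred_eq, Set.mem_empty_iff_false, iff_false, not_lt]
      exact le_trans hh0 (abs_nonneg _)
    rw [this]
    simp
  rcases lt_or_ge 1 h with hh1 | hh1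
  · have hfull : ∫⁻ u in band N h, convS (cap N c) (cap N c') u ∂(om E) =
        ∫⁻ u, convS (cap N c) (cap N c') u ∂(om E) := by
      rw [← lintegral_indicator hbm]
      refine lintegral_congr_ae (hae.mono fun u hu => ?_)
      show (band N h).indicator (convS (cap N c) (cap N c')) u = convS (cap N c) (cap N c') u
      rw [Set.indicator_of_mem]
      have h1 := abs_real_inner_le_norm u N
      rw [hu, hN, mul_one] at h1
      exact lt_of_le_of_lt h1 hh1
    rw [hfull]
    calc _ ≤ 1 * ∫⁻ u, convS (cap N c) (cap N c') u ∂(om E) :=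
          mul_le_mul' hTotLe (min_le_right _ _)
      _ = _ := one_mul _
  -- the main case
  set g := Real.arcsin h with hg
  have hg0 : 0 < g := Real.arcsin_pos.2 hh0
  have hgπ : g ≤ Real.pi / 2 := Real.arcsin_le_pi_div_two h
  have hlt : ∀ a ∈ Set.Ioo (0:ℝ) (Real.pi / 2), (|Real.sin a| < h ↔ a < g) := by
    intro a ha
    rw [abs_of_nonneg (Real.sin_nonneg_of_nonneg_of_le_pi ha.1.le (by linarith [ha.2])),
      hg, Real.lt_arcsin_iff_sin_lt ⟨by linarith [ha.1], ha.2.le⟩ ⟨by linarith, hh1⟩]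
  set b' := b / 2 with hb'
  have hb'0 : 0 < b' := by positivity
  have hb'π : b' ≤ Real.pi / 2 := by rw [hb']; linarith
  have hBand : ∫⁻ u in band N h, convS (cap N c) (cap N c') u ∂(om E) =
      C * (2 * ∫⁻ a in Set.Ioo 0 (Real.pi / 2), ENNReal.ofReal (Real.cos a ^ k) *
        (if |Real.sin a| < h then F' (2 * a) else 0)) := by
    have hms : MeasurableSet {s : ℝ | |s| < h} := measurableSet_lt measurable_abs measurable_const
    have hms' : MeasurableSet {a : ℝ | |Real.sin a| < h} :=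
      measurableSet_lt (measurable_abs.comp Real.measurable_sin) measurable_const
    rw [← k3_gen hmarg (fun s => if |s| < h then F' (2 * Real.arcsin |s|) else 0)
      (Measurable.ite hms (hF'm.comp ((Real.measurable_arcsin.comp measurable_abs).const_mul 2))
        measurable_const)
      (fun a => if |Real.sin a| < h then F' (2 * a) else 0)
      (Measurable.ite hms' (hF'm.comp (measurable_id.const_mul 2)) measurable_const)
      (fun a ha => by
        have h1 : |Real.sin (|a|)| = |Real.sin a| := by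
          rw [← Real.abs_sin_eq_sin_abs_of_abs_le_pi (by linarith [hpi]), abs_abs]
        show (if |Real.sin a| < h then F' (2 * Real.arcsin |Real.sin a|) else 0) =
          (if |Real.sin (|a|)| < h then F' (2 * |a|) else 0)
        rw [k3_arcsin ha, h1])]
    rw [← lintegral_indicator hbm]
    refine lintegral_congr_ae (hae.mono fun u hu => ?_)
    show (band N h).indicator (convS (cap N c) (cap N c')) u =
      if |inner ℝ u N| < h then F' (2 * Real.arcsin |inner ℝ u N|) else 0
    by_cases hu' : |inner ℝ u N| < h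
    · rw [if_pos hu', Set.indicator_of_mem (show u ∈ band N h from hu'), key1 u hu]
    · rw [if_neg hu', Set.indicator_of_notMem (show u ∉ band N h from hu')]
  have hOm : om E (band N h) =
      C * (2 * ∫⁻ a in Set.Ioo 0 (Real.pi / 2), ENNReal.ofReal (Real.cos a ^ k) *
        (if |Real.sin a| < h then 1 else 0)) := by
    have hms : MeasurableSet {s : ℝ | |s| < h} := measurableSet_lt measurable_abs measurable_const
    have hms' : MeasurableSet {a : ℝ | |Real.sin a| < h} :=
      measurableSet_lt (measurable_abs.comp Real.measurable_sin) measurable_const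
    rw [← k3_gen hmarg (fun s => if |s| < h then 1 else 0)
      (Measurable.ite hms measurable_const measurable_const)
      (fun a => if |Real.sin a| < h then 1 else 0)
      (Measurable.ite hms' measurable_const measurable_const)
      (fun a ha => by
        have h1 : |Real.sin (|a|)| = |Real.sin a| := by
          rw [← Real.abs_sin_eq_sin_abs_of_abs_le_pi (by linarith [hpi]), abs_abs]
        show (if |Real.sin a| < h then (1:ℝ≥0∞) else 0) =
          (if |Real.sin (|a|)| < h then 1 else 0)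
        rw [h1])]
    rw [← lintegral_indicator_one hbm]
    refine lintegral_congr fun u => ?_
    rfl
  -- evaluate the three integrals
  have hcosI : ∀ a ∈ Set.Icc (0:ℝ) (Real.pi / 2), 0 ≤ Real.cos a := fun a ha =>
    Real.cos_nonneg_of_neg_pi_div_two_le_of_le (by linarith [ha.1]) ha.2
  have hcosc : Continuous fun a : ℝ => Real.cos a ^ k := Real.continuous_cos.pow k
  have hfint : IntegrableOn (fun a => V (2 * a) * Real.cos a ^ k) (Set.Icc 0 b') := by
    refine IntegrableOn.mul_continuousOn ?_ hcosc.continuousOn isCompact_Icc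
    refine AntitoneOn.integrableOn_isCompact isCompact_Icc ?_
    intro x hx y hy hxy
    exact hVa ⟨by linarith [hx.1], by rw [hb'] at hx; linarith [hx.2]⟩
      ⟨by linarith [hy.1], by rw [hb'] at hy; linarith [hy.2]⟩ (by linarith)
  have hfnn : ∀ a ∈ Set.Icc 0 b', 0 ≤ V (2 * a) * Real.cos a ^ k := by
    intro a ha
    refine mul_nonneg (hV0 _ ⟨by linarith [ha.1], by rw [hb'] at ha; linarith [ha.2]⟩)
      (pow_nonneg (hcosI a ⟨ha.1, by linarith [ha.2]⟩) _)
  have hbd : ∀ a : ℝ, (2 * a < b ↔ a < b') := fun a => by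
    rw [hb']
    constructor <;> intro h <;> linarith
  have hIgen : ∀ t : ℝ, 0 ≤ t → t ≤ b' → 
      ∫⁻ a in Set.Ioo 0 (Real.pi / 2), (Set.Iio t).indicator
        (fun a => ENNReal.ofReal (V (2 * a) * Real.cos a ^ k)) a =
      ENNReal.ofReal (∫ s in (0:ℝ)..t, V (2 * s) * Real.cos s ^ k) := by
    intro t ht0 htb
    rw [setLIntegral_indicator measurableSet_Iio]
    have : Set.Iio t ∩ Set.Ioo 0 (Real.pi / 2) = Set.Ioo 0 t := by
      ext x
      simp only [Set.mem_inter_iff, Set.mem_Iio, Set.mem_Ioo]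
      constructor
      · rintro ⟨h1, h2, h3⟩; exact ⟨h2, h1⟩
      · rintro ⟨h1, h2⟩; exact ⟨h2, h1, by linarith⟩
    rw [this]
    exact k3_int ht0 _ (hfint.mono_set (Set.Icc_subset_Icc_right htb))
      (fun a ha => hfnn a ⟨ha.1, le_trans ha.2 htb⟩)
  have hI1 : ∫⁻ a in Set.Ioo 0 (Real.pi / 2), ENNReal.ofReal (Real.cos a ^ k) * F' (2 * a) =
      ENNReal.ofReal (∫ s in (0:ℝ)..b', V (2 * s) * Real.cos s ^ k) := by
    rw [← hIgen b' hb'0.le le_rfl]
    refine setLIntegral_congr_fun measurableSet_Ioo fun a ha => ?_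
    show ENNReal.ofReal (Real.cos a ^ k) * F' (2 * a) = (Set.Iio b').indicator
        (fun a => ENNReal.ofReal (V (2 * a) * Real.cos a ^ k)) a
    by_cases hab : a < b'
    · rw [Set.indicator_of_mem (show a ∈ Set.Iio b' from hab)]
      simp only [hF']
      rw [if_pos ((hbd a).2 hab), max_eq_left (by linarith [ha.1]), mul_comm (V (2 * a)),
        ENNReal.ofReal_mul (pow_nonneg (hcosI a ⟨ha.1.le, ha.2.le⟩) _)]
    · rw [Set.indicator_of_notMem (show a ∉ Set.Iio b' from hab)]
      simp only [hF']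
      rw [if_neg (fun hh => hab ((hbd a).1 hh)), mul_zero]
  have hI2 : ∫⁻ a in Set.Ioo 0 (Real.pi / 2), ENNReal.ofReal (Real.cos a ^ k) *
        (if |Real.sin a| < h then F' (2 * a) else 0) =
      ENNReal.ofReal (∫ s in (0:ℝ)..(min g b'), V (2 * s) * Real.cos s ^ k) := by
    rw [← hIgen (min g b') (le_min hg0.le hb'0.le) (min_le_right _ _)]
    refine setLIntegral_congr_fun measurableSet_Ioo fun a ha => ?_
    show ENNReal.ofReal (Real.cos a ^ k) * (if |Real.sin a| < h then F' (2 * a) else 0) =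
      (Set.Iio (min g b')).indicator (fun a => ENNReal.ofReal (V (2 * a) * Real.cos a ^ k)) a
    by_cases hab : a < min g b'
    · rw [Set.indicator_of_mem (show a ∈ Set.Iio (min g b') from hab)]
      have h1 := (lt_min_iff.1 hab)
      rw [if_pos ((hlt a ha).2 h1.1)]
      simp only [hF']
      rw [if_pos ((hbd a).2 h1.2), max_eq_left (by linarith [ha.1]), mul_comm (V (2 * a)),
        ENNReal.ofReal_mul (pow_nonneg (hcosI a ⟨ha.1.le, ha.2.le⟩) _)]
    · rw [Set.indicator_of_notMem (show a ∉ Set.Iio (min g b') from hab)]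
      by_cases h1 : |Real.sin a| < h
      · rw [if_pos h1]
        have h2 : ¬ (a < b') := fun h3 => hab (lt_min ((hlt a ha).1 h1) h3)
        simp only [hF']
        rw [if_neg (fun hh => h2 ((hbd a).1 hh)), mul_zero]
      · rw [if_neg h1, mul_zero]
  have hI3 : ∫⁻ a in Set.Ioo 0 (Real.pi / 2), ENNReal.ofReal (Real.cos a ^ k) *
        (if |Real.sin a| < h then 1 else 0) =
      ENNReal.ofReal (∫ s in (0:ℝ)..g, Real.cos s ^ k) := by
    rw [← k3_int hg0.le (fun a => Real.cos a ^ k) (hcosc.continuousOn.integrableOn_Icc)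
      (fun a ha => pow_nonneg (hcosI a ⟨ha.1, le_trans ha.2 hgπ⟩) _)]
    have h1 : ∫⁻ a in Set.Ioo 0 (Real.pi / 2), ENNReal.ofReal (Real.cos a ^ k) *
        (if |Real.sin a| < h then 1 else 0) = ∫⁻ a in Set.Ioo 0 (Real.pi / 2),
          (Set.Iio g).indicator (fun a => ENNReal.ofReal (Real.cos a ^ k)) a := by
      refine setLIntegral_congr_fun measurableSet_Ioo fun a ha => ?_
      show ENNReal.ofReal (Real.cos a ^ k) * (if |Real.sin a| < h then 1 else 0) =
        (Set.Iio g).indicator (fun a => ENNReal.ofReal (Real.cos a ^ k)) a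
      by_cases hab : a < g
      · rw [Set.indicator_of_mem (show a ∈ Set.Iio g from hab), if_pos ((hlt a ha).2 hab), mul_one]
      · rw [Set.indicator_of_notMem (show a ∉ Set.Iio g from hab),
          if_neg (fun hh => hab ((hlt a ha).1 hh)), mul_zero]
    rw [h1, setLIntegral_indicator measurableSet_Iio]
    congr 2
    ext x
    simp only [Set.mem_inter_iff, Set.mem_Iio, Set.mem_Ioo]
    constructor
    · rintro ⟨h1, h2, h3⟩; exact ⟨h2, h1⟩
    · rintro ⟨h1, h2⟩; exact ⟨h2, h1, by linarith⟩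
  rw [hBand, hTot, hOm, hI1, hI2, hI3]
  have hcap0 : om E (cap N c ∩ cap N c') = ENNReal.ofReal (V 0) := by
    have h1 := hVF 0 ⟨le_rfl, hb0.le⟩
    have h2 : pp N e 0 = N := by simp [pp]
    rwa [h2] at h1
  rw [hcap0]
  rcases le_or_gt g b' with hgb | hgb
  · rw [min_eq_left hgb]
    have h1 := oneD (finrank ℝ E - 1) (by omega) hg0.le hgb (fun s => Real.cos s ^ k)
      (fun s => V (2 * s)) hcosc
      (fun s hs => pow_nonneg (hcosI s ⟨hs.1, le_trans hs.2 hb'π⟩) _)
      (by
        intro x hx y hy hxy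
        refine pow_le_pow_left₀ (hcosI y ⟨hy.1, le_trans hy.2 hb'π⟩) ?_ k
        exact Real.cos_le_cos_of_nonneg_of_le_pi hx.1 (by linarith [hy.2]) hxy)
      (fun s hs => hV0 _ ⟨by linarith [hs.1], by rw [hb'] at hs; linarith [hs.2]⟩)
      (by
        intro x hx y hy hxy
        exact hVa ⟨by linarith [hx.1], by rw [hb'] at hx; linarith [hx.2]⟩
          ⟨by linarith [hy.1], by rw [hb'] at hy; linarith [hy.2]⟩ (by linarith))
      (by
        refine ⟨convex_Icc _ _, ?_⟩
        intro x hx y hy s t hs ht hst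
        have h2 := hVc.2 (x := 2 * x) ⟨by linarith [hx.1], by rw [hb'] at hx; linarith [hx.2]⟩
          (y := 2 * y) ⟨by linarith [hy.1], by rw [hb'] at hy; linarith [hy.2]⟩ hs ht hst
        have h3 : s • (2 * x) + t • (2 * y) = 2 * (s • x + t • y) := by
          simp only [smul_eq_mul]; ring
        rw [h3] at h2
        exact h2)
    simp only [mul_zero] at h1
    have hV00 : 0 ≤ V 0 := hV0 0 ⟨le_rfl, hb0.le⟩
    set κ := (1 - (((finrank ℝ E - 1 : ℕ) : ℝ) / ((finrank ℝ E - 1 : ℕ) + 1)) ^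
      ((finrank ℝ E - 1) + 1)) with hκ
    have hκ0 : 0 ≤ κ := by
      rw [hκ, sub_nonneg]
      refine pow_le_one₀ (by positivity) ?_
      rw [div_le_one (by positivity)]
      linarith
    have e1 : ENNReal.ofReal (V 0) * (C * (2 * ENNReal.ofReal (∫ s in (0:ℝ)..g, Real.cos s ^ k))) =
        (C * 2) * ENNReal.ofReal (V 0 * ∫ s in (0:ℝ)..g, Real.cos s ^ k) := by
      rw [ENNReal.ofReal_mul hV00]
      ring
    have e2 : C * (2 * ENNReal.ofReal (∫ s in (0:ℝ)..b', V (2 * s) * Real.cos s ^ k)) =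
        (C * 2) * ENNReal.ofReal (∫ s in (0:ℝ)..b', V (2 * s) * Real.cos s ^ k) := by ring
    have hmono : Monotone fun t : ℝ≥0∞ => (C * 2) * t := fun x y hxy => mul_le_mul_right hxy _
    have hmono2 : Monotone ENNReal.ofReal := fun x y hxy => ENNReal.ofReal_le_ofReal hxy
    rw [e1, e2, ← hmono.map_min, ← hmono2.map_min]
    calc ENNReal.ofReal κ * (C * 2 * ENNReal.ofReal (min (V 0 * ∫ s in (0:ℝ)..g, Real.cos s ^ k)
          (∫ s in (0:ℝ)..b', V (2 * s) * Real.cos s ^ k))) =
        (C * 2) * ENNReal.ofReal (κ * min (V 0 * ∫ s in (0:ℝ)..g, Real.cos s ^ k)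
          (∫ s in (0:ℝ)..b', V (2 * s) * Real.cos s ^ k)) := by
          rw [ENNReal.ofReal_mul hκ0]
          ring
      _ ≤ (C * 2) * ENNReal.ofReal (∫ s in (0:ℝ)..g, V (2 * s) * Real.cos s ^ k) :=
          hmono (hmono2 h1)
      _ = _ := by ring
  · rw [min_eq_right hgb.le]
    calc _ ≤ 1 * (C * (2 * ENNReal.ofReal (∫ s in (0:ℝ)..b', V (2 * s) * Real.cos s ^ k))) :=
          mul_le_mul' hTotLe (min_le_right _ _)
      _ = _ := one_mul _

end RC
end

section

/-!
# RC constant factor: the inequality for three sets, up to a constant factor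
-/

set_option autoImplicit false

open MeasureTheory Module
open scoped ENNReal NNReal

namespace RC

variable {E : Type*} [NormedAddCommGroup E] [InnerProductSpace ℝ E] [MeasurableSpace E]
  [BorelSpace E] [FiniteDimensional ℝ E]

/-- the factor, a number in `(0,1)` depending on the dimension `d` of the sphere -/
noncomputable def fac (d : ℕ) : ℝ := 1 - ((d:ℝ) / (d + 1)) ^ (d + 1)

theorem fac_pos (d : ℕ) : 0 < fac d := by
  unfold fac
  have h1 : ((d:ℝ) / (d + 1)) < 1 := by
    rw [div_lt_one (by positivity)]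
    linarith
  have h0 : 0 ≤ ((d:ℝ) / (d + 1)) := by positivity
  have : ((d:ℝ) / (d + 1)) ^ (d + 1) < 1 := pow_lt_one₀ h0 h1 (Nat.succ_ne_zero d)
  linarith

theorem fac_le_one (d : ℕ) : fac d ≤ 1 := by
  unfold fac
  have h0 : 0 ≤ ((d:ℝ) / (d + 1)) ^ (d + 1) := by positivity
  linarith

theorem cap_empty_of_le {N : E} (hN : ‖N‖ = 1) {c : ℝ} (hc : 1 ≤ c) : om E (cap N c) = 0 := by
  have h := om_norm (E := E)
  rw [ae_iff] at h
  refine measure_mono_null ?_ h
  intro x hx hx1
  have h1 := real_inner_le_norm x N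
  rw [hx1, hN, mul_one] at h1
  have h2 : c < inner ℝ x N := hx
  linarith

/-- the case of caps which are small -/
theorem setK_pos (hn : 3 ≤ finrank ℝ E) {N : E} (hN : ‖N‖ = 1) {A B U : Set E} (hA : MeasurableSet A)
    (hB : MeasurableSet B) {h c c' : ℝ} (hAc : om E A = om E (cap N c))
    (hBc : om E B = om E (cap N c')) (hUh : om E U = om E (band N h)) (hcc : 0 ≤ c + c') :
    ENNReal.ofReal (fac (finrank ℝ E - 1)) * ∫⁻ u in U, convS A B u ∂(om E) ≤
      ∫⁻ u in band N h, convS (cap N c) (cap N c') u ∂(om E) := by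
  by_cases hc1 : 1 ≤ c
  · have h0 : ∫⁻ u in U, convS A B u ∂(om E) = 0 := by
      have : ∀ u, convS A B u = 0 := fun u => by
        have := convS_le_left A B u
        rw [hAc, cap_empty_of_le hN hc1] at this
        exact le_antisymm this zero_le
      simp [this]
    rw [h0, mul_zero]
    exact zero_le
  by_cases hc1' : 1 ≤ c'
  · have h0 : ∫⁻ u in U, convS A B u ∂(om E) = 0 := by
      rw [lintegral_congr_ae (g := fun _ => 0)]
      · simp
      · filter_upwards [ae_restrict_of_ae (om_norm (E := E))] with u hu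
        have := convS_le_right (A := A) hB hu
        rw [hBc, cap_empty_of_le hN hc1'] at this
        exact le_antisymm this zero_le
    rw [h0, mul_zero]
    exact zero_le
  push Not at hc1 hc1'
  have habs : |c| < 1 := abs_lt.2 ⟨by linarith, hc1⟩
  have habs' : |c'| < 1 := abs_lt.2 ⟨by linarith, hc1'⟩
  refine le_trans ?_ (K3 hn hN habs habs' hcc h)
  have hfac : (1 - (((finrank ℝ E - 1 : ℕ) : ℝ) / ((finrank ℝ E - 1 : ℕ) + 1)) ^ ((finrank ℝ E - 1) + 1)) =
      fac (finrank ℝ E - 1) := rfl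
  rw [hfac]
  refine mul_le_mul_right ?_ _
  refine le_min ?_ ?_
  · -- the trivial bound
    have hmin : ∀ u : E, ‖u‖ = 1 → convS A B u ≤ om E (cap N c ∩ cap N c') := by
      intro u hu
      rcases le_total c c' with hle | hle
      · have hsub : cap N c ∩ cap N c' = cap N c' := by
          apply Set.inter_eq_right.2
          intro x hx
          exact lt_of_le_of_lt hle hx
        rw [hsub, ← hBc]
        exact convS_le_right hB hu
      · have hsub : cap N c ∩ cap N c' = cap N c := by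
          apply Set.inter_eq_left.2
          intro x hx
          exact lt_of_le_of_lt hle hx
        rw [hsub, ← hAc]
        exact convS_le_left A B u
    calc ∫⁻ u in U, convS A B u ∂(om E) ≤ ∫⁻ _ in U, om E (cap N c ∩ cap N c') ∂(om E) := by
          refine lintegral_mono_ae ?_
          filter_upwards [ae_restrict_of_ae (om_norm (E := E))] with u hu
          exact hmin u hu
      _ = om E (cap N c ∩ cap N c') * om E (band N h) := by
          rw [setLIntegral_const, hUh]
  · exact (setLIntegral_le_lintegral _ _).trans (tot_ineq hn hN hA hB hAc hBc)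

theorem setK (hn : 3 ≤ finrank ℝ E) {N : E} (hN : ‖N‖ = 1) {A B U : Set E} (hA : MeasurableSet A)
    (hB : MeasurableSet B) {h c c' : ℝ} (hAc : om E A = om E (cap N c))
    (hBc : om E B = om E (cap N c')) (hUh : om E U = om E (band N h)) :
    ENNReal.ofReal (fac (finrank ℝ E - 1)) * ∫⁻ u in U, convS A B u ∂(om E) ≤
      ∫⁻ u in band N h, convS (cap N c) (cap N c') u ∂(om E) := by
  rcases le_total 0 (c + c') with hcc | hcc
  · exact setK_pos hn hN hA hB hAc hBc hUh hcc
  have hn2 : 2 ≤ finrank ℝ E := by omega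
  have hfin : om E (Set.univ : Set E) ≠ ⊤ := measure_ne_top _ _
  -- the complements
  have hAc' : om E Aᶜ = om E (cap N (-c)) := by
    rw [measure_compl hA (measure_ne_top _ _), hAc, ← om_compl_cap hn2 hN c,
      measure_compl (measurableSet_cap N c) (measure_ne_top _ _)]
  have hBc' : om E Bᶜ = om E (cap N (-c')) := by
    rw [measure_compl hB (measure_ne_top _ _), hBc, ← om_compl_cap hn2 hN c',
      measure_compl (measurableSet_cap N c') (measure_ne_top _ _)]
  have key := setK_pos hn hN hA.compl hB.compl hAc' hBc' hUh (by linarith)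
  set κ : ℝ≥0∞ := ENNReal.ofReal (fac (finrank ℝ E - 1)) with hκ
  have hκ1 : κ ≤ 1 := by
    rw [hκ]
    exact ENNReal.ofReal_le_one.2 (fac_le_one _)
  -- add the constant to both sides
  have hUfin : om E Set.univ * om E U ≠ ⊤ := ENNReal.mul_ne_top hfin (measure_ne_top _ _)
  have e1 : ∫⁻ u in U, convS A B u ∂(om E) + om E Set.univ * om E U =
      (om E A + om E B) * om E U + ∫⁻ u in U, convS Aᶜ Bᶜ u ∂(om E) := by
    rw [← setLIntegral_const U (om E Set.univ), ← lintegral_add_right _ measurable_const,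
      ← setLIntegral_const U (om E A + om E B), ← lintegral_add_left measurable_const]
    refine lintegral_congr_ae ?_
    filter_upwards [ae_restrict_of_ae (om_norm (E := E))] with u hu
    exact convS_compl hA hB hu
  have e2 : ∫⁻ u in band N h, convS (cap N c) (cap N c') u ∂(om E) + om E Set.univ * om E U =
      (om E A + om E B) * om E U + ∫⁻ u in band N h, convS (cap N (-c)) (cap N (-c')) u ∂(om E) := by
    rw [hUh, ← setLIntegral_const (band N h) (om E Set.univ), ← lintegral_add_right _ measurable_const,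
      ← setLIntegral_const (band N h) (om E A + om E B), ← lintegral_add_left measurable_const]
    refine lintegral_congr_ae ?_
    filter_upwards [ae_restrict_of_ae (om_norm (E := E))] with u hu
    have h1 := convS_compl (measurableSet_cap N c) (measurableSet_cap N c') hu
    rw [convS_compl_cap hn2 hN c c' hu] at h1
    rw [hAc, hBc]
    exact h1
  -- the mass of the intersection is nonnegative
  have e3 : om E (Set.univ : Set E) ≤ om E A + om E B := by
    rw [hAc, hBc, ← measure_add_measure_compl (μ := om E) (measurableSet_cap N c), om_compl_cap hn2 hN c]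
    refine add_le_add le_rfl (measure_mono ?_)
    intro x hx
    have hx' : -c < inner ℝ x N := hx
    show c' < inner ℝ x N
    linarith
  obtain ⟨D, hD⟩ : ∃ D, om E A + om E B = om E (Set.univ : Set E) + D :=
    ⟨om E A + om E B - om E Set.univ, (add_tsub_cancel_of_le e3).symm⟩
  have e1' : ∫⁻ u in U, convS A B u ∂(om E) = D * om E U + ∫⁻ u in U, convS Aᶜ Bᶜ u ∂(om E) := by
    rw [hD] at e1
    have : ∫⁻ u in U, convS A B u ∂(om E) + om E Set.univ * om E U =
        (D * om E U + ∫⁻ u in U, convS Aᶜ Bᶜ u ∂(om E)) + om E Set.univ * om E U := by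
      rw [e1]; ring
    exact (ENNReal.add_left_inj hUfin).1 this
  have e2' : ∫⁻ u in band N h, convS (cap N c) (cap N c') u ∂(om E) =
      D * om E U + ∫⁻ u in band N h, convS (cap N (-c)) (cap N (-c')) u ∂(om E) := by
    rw [hD] at e2
    have : ∫⁻ u in band N h, convS (cap N c) (cap N c') u ∂(om E) + om E Set.univ * om E U =
        (D * om E U + ∫⁻ u in band N h, convS (cap N (-c)) (cap N (-c')) u ∂(om E)) +
          om E Set.univ * om E U := by
      rw [e2]; ring
    exact (ENNReal.add_left_inj hUfin).1 this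
  rw [e1', e2', mul_add]
  refine add_le_add ?_ key
  calc κ * (D * om E U) ≤ 1 * (D * om E U) := mul_le_mul_left hκ1 _
    _ = D * om E U := one_mul _

end RC
end

section

/-!
# RC constant factor: the inequality for functions
-/

set_option autoImplicit false

open MeasureTheory Module
open scoped ENNReal NNReal

namespace RC

variable {E : Type*} [NormedAddCommGroup E] [InnerProductSpace ℝ E] [MeasurableSpace E]
  [BorelSpace E] [FiniteDimensional ℝ E]

theorem exists_cap_level {N : E} {f fs : E → ℝ≥0}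
    (h1 : ∀ t : ℝ≥0, om E {x | t < fs x} = om E {x | t < f x})
    (h3 : ∀ t : ℝ≥0, ∃ c : ℝ, {x | t < fs x} =ᵐ[om E] cap N c) (t : ℝ≥0) :
    ∃ c : ℝ, {x | t < fs x} =ᵐ[om E] cap N c ∧ om E {x | t < f x} = om E (cap N c) := by
  obtain ⟨c, hc⟩ := h3 t
  exact ⟨c, hc, (h1 t).symm.trans (measure_congr hc)⟩

theorem T_ineqK (hn : 3 ≤ finrank ℝ E) {N : E} (hN : ‖N‖ = 1) (f g fs gs : E → ℝ≥0)
    (hf : Measurable f) (hg : Measurable g) (hfs : Measurable fs) (hgs : Measurable gs)
    (h1 : ∀ t : ℝ≥0, om E {x | t < fs x} = om E {x | t < f x})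
    (h2 : ∀ t : ℝ≥0, om E {x | t < gs x} = om E {x | t < g x})
    (h3 : ∀ t : ℝ≥0, ∃ c : ℝ, {x | t < fs x} =ᵐ[om E] cap N c)
    (h4 : ∀ t : ℝ≥0, ∃ c : ℝ, {x | t < gs x} =ᵐ[om E] cap N c)
    {U : Set E} (hU : MeasurableSet U) {b : ℝ} (hUb : om E U = om E (band N b)) :
    ENNReal.ofReal (fac (finrank ℝ E - 1)) * ∫⁻ u in U, conv f g u ∂(om E) ≤
      ∫⁻ u in band N b, conv fs gs u ∂(om E) := by
  rw [layer f g hf hg hU, layer fs gs hfs hgs (measurableSet_band N b),
    ← lintegral_const_mul' _ _ ENNReal.ofReal_ne_top]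
  refine lintegral_mono fun s => ?_
  rw [← lintegral_const_mul' _ _ ENNReal.ofReal_ne_top]
  refine lintegral_mono fun t => ?_
  obtain ⟨c, hc, hAc⟩ := exists_cap_level h1 h3 s.toNNReal
  obtain ⟨c', hc', hBc⟩ := exists_cap_level h2 h4 t.toNNReal
  have hA : MeasurableSet {y | s.toNNReal < f y} := measurableSet_lt measurable_const hf
  have hB : MeasurableSet {y | t.toNNReal < g y} := measurableSet_lt measurable_const hg
  have hR : ∫⁻ u in band N b, convS {y | s.toNNReal < fs y} {y | t.toNNReal < gs y} u ∂(om E) =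
      ∫⁻ u in band N b, convS (cap N c) (cap N c') u ∂(om E) := by
    apply lintegral_congr_ae
    filter_upwards [ae_restrict_of_ae (om_norm (E := E))] with u hu
    exact convS_congr hc hc' hu
  rw [hR]
  exact setK hn hN hA hB hAc hBc hUb

theorem truncK (hn : 3 ≤ finrank ℝ E) {N : E} (hN : ‖N‖ = 1) (f g fs gs : E → ℝ≥0)
    (hf : Measurable f) (hg : Measurable g) (hfs : Measurable fs) (hgs : Measurable gs)
    (h1 : ∀ t : ℝ≥0, om E {x | t < fs x} = om E {x | t < f x})
    (h2 : ∀ t : ℝ≥0, om E {x | t < gs x} = om E {x | t < g x})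
    (h3 : ∀ t : ℝ≥0, ∃ c : ℝ, {x | t < fs x} =ᵐ[om E] cap N c)
    (h4 : ∀ t : ℝ≥0, ∃ c : ℝ, {x | t < gs x} =ᵐ[om E] cap N c) (l : ℝ≥0) :
    ∫⁻ u, (conv f g u - l) ∂(om E) ≤
      ∫⁻ u, (ENNReal.ofReal (fac (finrank ℝ E - 1))⁻¹ * conv fs gs u - l) ∂(om E) := by
  set κ : ℝ≥0∞ := ENNReal.ofReal (fac (finrank ℝ E - 1))⁻¹ with hκ
  set U : Set E := {u | (l : ℝ≥0∞) < conv f g u} with hUdef
  have hm : Measurable (conv f g) := measurable_conv f g hf hg
  have hms : Measurable (conv fs gs) := measurable_conv fs gs hfs hgs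
  have hU : MeasurableSet U := measurableSet_lt measurable_const hm
  obtain ⟨b, hb⟩ := exists_band (by omega) hN (om E U) (measure_mono (Set.subset_univ _))
  have hT0 := T_ineqK hn hN f g fs gs hf hg hfs hgs h1 h2 h3 h4 hU hb.symm
  have hT : ∫⁻ u in U, conv f g u ∂(om E) ≤ ∫⁻ u in band N b, κ * conv fs gs u ∂(om E) := by
    rw [lintegral_const_mul' _ _ ENNReal.ofReal_ne_top]
    have hmul : κ * ENNReal.ofReal (fac (finrank ℝ E - 1)) = 1 := by
      rw [hκ, ← ENNReal.ofReal_mul (inv_nonneg.2 (fac_pos _).le), inv_mul_cancel₀ (fac_pos _).ne',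
        ENNReal.ofReal_one]
    calc ∫⁻ u in U, conv f g u ∂(om E)
        = κ * (ENNReal.ofReal (fac (finrank ℝ E - 1)) * ∫⁻ u in U, conv f g u ∂(om E)) := by
          rw [← mul_assoc, hmul, one_mul]
      _ ≤ _ := mul_le_mul_right hT0 _
  have hfin : (l : ℝ≥0∞) * om E U ≠ ⊤ :=
    ENNReal.mul_ne_top ENNReal.coe_ne_top (measure_ne_top _ _)
  have e1 : ∫⁻ u, (conv f g u - l) ∂(om E) = ∫⁻ u in U, (conv f g u - l) ∂(om E) := by
    rw [← lintegral_add_compl _ hU]
    have : ∫⁻ u in Uᶜ, (conv f g u - l) ∂(om E) = 0 := by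
      rw [setLIntegral_congr_fun hU.compl (g := fun _ => 0)]
      · simp
      · intro u hu
        have hu' : ¬ (l : ℝ≥0∞) < conv f g u := hu
        exact tsub_eq_zero_of_le (not_lt.1 hu')
    rw [this, add_zero]
  have e2 : ∫⁻ u in U, (conv f g u - l) ∂(om E) + l * om E U = ∫⁻ u in U, conv f g u ∂(om E) := by
    rw [← setLIntegral_const, ← lintegral_add_right _ measurable_const]
    apply setLIntegral_congr_fun hU
    intro u hu
    have hu' : (l : ℝ≥0∞) < conv f g u := hu
    exact tsub_add_cancel_of_le hu'.le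
  have e3 : ∫⁻ u in band N b, κ * conv fs gs u ∂(om E) ≤
      ∫⁻ u, (κ * conv fs gs u - l) ∂(om E) + l * om E U := by
    calc ∫⁻ u in band N b, κ * conv fs gs u ∂(om E)
        ≤ ∫⁻ u in band N b, ((κ * conv fs gs u - l) + l) ∂(om E) :=
          lintegral_mono fun u => le_tsub_add
      _ = ∫⁻ u in band N b, (κ * conv fs gs u - l) ∂(om E) + l * om E (band N b) := by
          rw [lintegral_add_right _ measurable_const, setLIntegral_const]
      _ ≤ ∫⁻ u, (κ * conv fs gs u - l) ∂(om E) + l * om E U := by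
          rw [hb]
          exact add_le_add (setLIntegral_le_lintegral _ _) le_rfl
  have e4 := (e2.le.trans (hT.trans e3))
  rw [e1]
  exact (ENNReal.add_le_add_iff_right hfin).1 e4

theorem main_K (d : ℕ) (hd : 2 ≤ d) (ω : Measure (EuclideanSpace ℝ (Fin (d+1))))
    (hω : ω = ((volume : Measure (EuclideanSpace ℝ (Fin (d+1)))).toSphere).map Subtype.val)
    (N : EuclideanSpace ℝ (Fin (d+1))) (hN : ‖N‖ = 1)
    (f g fs gs : EuclideanSpace ℝ (Fin (d+1)) → ℝ≥0)
    (hf : Measurable f) (hg : Measurable g) (hfs : Measurable fs) (hgs : Measurable gs)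
    (h1 : ∀ t : ℝ≥0, ω {x | t < fs x} = ω {x | t < f x})
    (h2 : ∀ t : ℝ≥0, ω {x | t < gs x} = ω {x | t < g x})
    (h3 : ∃ φ : ℝ → ℝ≥0, MonotoneOn φ (Set.Iio 1) ∧ ∀ x : EuclideanSpace ℝ (Fin (d+1)), ‖x‖ = 1 →
        x ≠ N → fs x = φ (inner ℝ x N))
    (h4 : ∃ φ : ℝ → ℝ≥0, MonotoneOn φ (Set.Iio 1) ∧ ∀ x : EuclideanSpace ℝ (Fin (d+1)), ‖x‖ = 1 →
        x ≠ N → gs x = φ (inner ℝ x N))
    (Φ : ℝ → ℝ) (hc : ConvexOn ℝ (Set.Ici 0) Φ) (hm : MonotoneOn Φ (Set.Ici 0)) :
    ∫⁻ u, (⨆ s : ℝ≥0, ⨆ (_ : (s : ℝ≥0∞) ≤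
        ∫⁻ y, (f y : ℝ≥0∞) * (g (y - (2 * inner ℝ y u) • u) : ℝ≥0∞) ∂ω),
        ENNReal.ofReal (Φ s - Φ 0)) ∂ω
      ≤
    ∫⁻ u, (⨆ s : ℝ≥0, ⨆ (_ : (s : ℝ≥0∞) ≤
        ENNReal.ofReal (1 / (1 - ((d:ℝ) / (d + 1)) ^ (d + 1))) *
          ∫⁻ y, (fs y : ℝ≥0∞) * (gs (y - (2 * inner ℝ y u) • u) : ℝ≥0∞) ∂ω),
        ENNReal.ofReal (Φ s - Φ 0)) ∂ω := by
  subst hω
  have hfr : finrank ℝ (EuclideanSpace ℝ (Fin (d+1))) = d + 1 := by
    rw [finrank_euclideanSpace, Fintype.card_fin]
  have hn : 3 ≤ finrank ℝ (EuclideanSpace ℝ (Fin (d+1))) := by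
    rw [hfr]; omega
  have hfac : (fac (finrank ℝ (EuclideanSpace ℝ (Fin (d+1))) - 1))⁻¹ =
      1 / (1 - ((d:ℝ) / (d + 1)) ^ (d + 1)) := by
    rw [hfr, Nat.add_sub_cancel, one_div]
    rfl
  rw [← hfac]
  obtain ⟨φ, hφ, hφ'⟩ := h3
  obtain ⟨ψ, hψ, hψ'⟩ := h4
  exact phi_ineq (om (EuclideanSpace ℝ (Fin (d+1)))) (conv f g)
    (fun u => ENNReal.ofReal (fac (finrank ℝ (EuclideanSpace ℝ (Fin (d+1))) - 1))⁻¹ * conv fs gs u)
    (measurable_conv f g hf hg) ((measurable_conv fs gs hfs hgs).const_mul _)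
    (fun l => truncK hn hN f g fs gs hf hg hfs hgs h1 h2
      (upset_ae_cap_on (by omega) hN φ hφ fs hφ')
      (upset_ae_cap_on (by omega) hN ψ hψ gs hψ') l) Φ hc hm

end RC
end
end
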